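import Pool.Agent.Work.MP_4cd38d_rs.Interface

set_option autoImplicit false

namespace Pool.RS

open Pool.Agent.Work.MP_4cd38d_lc
open Polynomial

theorem CH1_prod (r : ℕ → ℚ) (i : ℕ) :
    ((((List.range i).map r).map (fun r => (X : ℚ[X]) - C r)).prod) =
      ∏ j ∈ Finset.range i, (X - C (r j)) := by
  induction i with
  | zero => simp
  | succ i ih =>
    rw [List.range_succ, List.map_append, List.map_append, List.prod_append, ih,
      Finset.prod_range_succ]
    simp

theorem CH1_step (hNEW : Stmt_NEW) (q : ℚ[X]) (lam : ℝ) (l' : List ℚ[X]) (Q : ℚ[X])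
    (hq : q.Monic ∧ 1 ≤ q.natDegree ∧ Rts (rl q) lam ∧ (rl q).Separable)
    (ih : ∃ (T : ℕ) (N : ℕ → ℚ[X]) (β : ℕ → ℕ → ℚ), N 0 = Q * q ∧ N T = Q * q * l'.prod ∧
      (∀ i j, 0 ≤ β i j) ∧
      (∀ i < T, X * N i = N (i + 1) + ∑ j ∈ Finset.range (i + 1), C (β i j) * N j) ∧
      ∀ i < T, ∃ (l₁ l₂ : List ℚ[X]) (q' : ℚ[X]) (t : List ℚ), l' = l₁ ++ q' :: l₂ ∧
        (∀ r ∈ t, (r : ℝ) < lam) ∧ N i = Q * q * l₁.prod * (t.map (fun r => X - C r)).prod) :
    ∃ (T : ℕ) (N : ℕ → ℚ[X]) (β : ℕ → ℕ → ℚ), N 0 = Q ∧ N T = Q * (q :: l').prod ∧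
      (∀ i j, 0 ≤ β i j) ∧
      (∀ i < T, X * N i = N (i + 1) + ∑ j ∈ Finset.range (i + 1), C (β i j) * N j) ∧
      ∀ i < T, ∃ (l₁ l₂ : List ℚ[X]) (q' : ℚ[X]) (t : List ℚ), q :: l' = l₁ ++ q' :: l₂ ∧
        (∀ r ∈ t, (r : ℝ) < lam) ∧ N i = Q * l₁.prod * (t.map (fun r => X - C r)).prod := by
  obtain ⟨T', N', β', hN0, hNT, hβ, hX, hL⟩ := ih
  obtain ⟨hm, h1, hR, hS⟩ := hq
  obtain ⟨e, he⟩ : ∃ e : ℕ, e = q.natDegree := ⟨_, rfl⟩
  obtain ⟨r, c, hrc, hr, hprod⟩ := hNEW q e lam he.symm (by omega) hm hR hS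
  have he1 : 1 ≤ e := by omega
  obtain ⟨N, hN⟩ : ∃ N : ℕ → ℚ[X], ∀ i, N i = if i < e then
      Q * ∏ j ∈ Finset.range i, (X - C (r j)) else N' (i - e) := ⟨_, fun _ => rfl⟩
  obtain ⟨β, hβd⟩ : ∃ β : ℕ → ℕ → ℚ, ∀ i j, β i j =
      if i + 1 < e then (if j = i then r i else 0)
      else if i < e then ((if j < e then c j else 0) + if j = i then r i else 0)
      else if j < e then 0 else β' (i - e) (j - e) := ⟨_, fun _ _ => rfl⟩
  have hNlt : ∀ i, i < e → N i = Q * ∏ j ∈ Finset.range i, (X - C (r j)) := fun i hi => by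
    rw [hN, if_pos hi]
  have hNge : ∀ i, N (e + i) = N' i := fun i => by
    rw [hN, if_neg (by omega), Nat.add_sub_cancel_left]
  refine ⟨e + T', N, β, ?_, ?_, ?_, ?_, ?_⟩
  · rw [hNlt 0 (by omega)]
    simp
  · rw [hNge, hNT, List.prod_cons, mul_assoc]
  · intro i j
    rw [hβd]
    split_ifs with h1 h2 h3 h4 h5 h6 h7
    · exact (hrc i (by omega)).1
    · exact le_rfl
    · exact add_nonneg (hrc j h4).2 (hrc i h3).1
    · exact add_nonneg (hrc j h4).2 le_rfl
    · exact add_nonneg le_rfl (hrc i h3).1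
    · exact add_nonneg le_rfl le_rfl
    · exact le_rfl
    · exact hβ _ _
  · intro i hi
    rcases lt_or_ge i e with hie | hie
    · have hfac : (X - C (r i)) * N i = Q * ∏ j ∈ Finset.range (i + 1), (X - C (r j)) := by
        rw [hNlt i hie, Finset.prod_range_succ]
        ring
      rcases lt_or_ge (i + 1) e with h2 | h2
      · have hsum : ∑ j ∈ Finset.range (i + 1), C (β i j) * N j = C (r i) * N i := by
          rw [Finset.sum_eq_single i]
          · rw [hβd, if_pos h2, if_pos rfl]
          · intro j _ hj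
            rw [hβd, if_pos h2, if_neg hj, C_0, zero_mul]
          · intro h
            exact absurd (Finset.mem_range.2 (Nat.lt_succ_self i)) h
        rw [hsum, hNlt (i + 1) h2, ← hfac]
        ring
      · have hie' : i + 1 = e := by omega
        have hNe : N (i + 1) = Q * q := by
          rw [hie']
          have := hNge 0
          rw [Nat.add_zero] at this
          rw [this, hN0]
        have hsum : ∑ j ∈ Finset.range (i + 1), C (β i j) * N j =
            ∑ j ∈ Finset.range (i + 1), C (c j) * N j + C (r i) * N i := by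
          have h3 : ∀ j ∈ Finset.range (i + 1), C (β i j) * N j =
              C (c j) * N j + (if j = i then C (r i) * N i else 0) := by
            intro j hj
            have hj' : j < e := by
              have := Finset.mem_range.1 hj
              omega
            rw [hβd, if_neg (by omega), if_pos hie, if_pos hj', C_add, add_mul]
            by_cases hji : j = i
            · rw [if_pos hji, if_pos hji, hji]
            · rw [if_neg hji, if_neg hji, C_0, zero_mul]
          rw [Finset.sum_congr rfl h3, Finset.sum_add_distrib]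
          congr 1
          rw [Finset.sum_ite_eq']
          rw [if_pos (Finset.mem_range.2 (Nat.lt_succ_self i))]
        have hsum2 : ∑ j ∈ Finset.range (i + 1), C (c j) * N j =
            Q * ∑ j ∈ Finset.range e, C (c j) * ∏ j' ∈ Finset.range j, (X - C (r j')) := by
          rw [hie', Finset.mul_sum]
          refine Finset.sum_congr rfl fun j hj => ?_
          rw [hNlt j (Finset.mem_range.1 hj)]
          ring
        have hp2 : (X - C (r i)) * N i = Q * q + Q * ∑ j ∈ Finset.range e,
            C (c j) * ∏ j' ∈ Finset.range j, (X - C (r j')) := by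
          rw [hfac, hie', hprod, mul_add]
        rw [hsum, hsum2, hNe, ← add_assoc, ← hp2]
        ring
    · obtain ⟨k, rfl⟩ := Nat.exists_eq_add_of_le hie
      rw [hNge, show e + k + 1 = e + (k + 1) by omega, hNge, Finset.sum_range_add]
      have hz : ∑ j ∈ Finset.range e, C (β (e + k) j) * N j = 0 := by
        refine Finset.sum_eq_zero fun j hj => ?_
        rw [hβd, if_neg (by omega), if_neg (by omega), if_pos (Finset.mem_range.1 hj), C_0,
          zero_mul]
      have hz2 : ∑ j ∈ Finset.range (k + 1), C (β (e + k) (e + j)) * N (e + j) =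
          ∑ j ∈ Finset.range (k + 1), C (β' k j) * N' j := by
        refine Finset.sum_congr rfl fun j _ => ?_
        rw [hβd, if_neg (by omega), if_neg (by omega), if_neg (by omega), hNge,
          Nat.add_sub_cancel_left, Nat.add_sub_cancel_left]
      rw [hz, zero_add, hz2]
      exact hX k (by omega)
  · intro i hi
    rcases lt_or_ge i e with hie | hie
    · refine ⟨[], l', q, (List.range i).map r, rfl, ?_, ?_⟩
      · intro s hs
        obtain ⟨j, hj, rfl⟩ := List.mem_map.1 hs
        have := List.mem_range.1 hj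
        exact hr j (by omega)
      · rw [CH1_prod, hNlt i hie, List.prod_nil, mul_one]
    · obtain ⟨k, rfl⟩ := Nat.exists_eq_add_of_le hie
      obtain ⟨l₁, l₂, q', t, g1, g2, g3⟩ := hL k (by omega)
      refine ⟨q :: l₁, l₂, q', t, ?_, g2, ?_⟩
      · rw [g1, List.cons_append]
      · rw [hNge, g3, List.prod_cons, mul_assoc Q q]

theorem p_CH1 (hNEW : Stmt_NEW) : Stmt_CH1 := by
  intro l lam
  induction l with
  | nil =>
    intro _ Q
    refine ⟨0, fun _ => Q, fun _ _ => 0, rfl, by simp, fun _ _ => le_rfl, ?_, ?_⟩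
    · intro i hi
      exact absurd hi (Nat.not_lt_zero i)
    · intro i hi
      exact absurd hi (Nat.not_lt_zero i)
  | cons q l' ih =>
    intro h Q
    exact CH1_step hNEW q lam l' Q (h q (by simp)) (ih (fun q' hq' => h q' (by simp [hq'])) (Q * q))

end Pool.RS
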