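import Pool.Agent.Work.MP_4cd38d_rs.Interface

set_option autoImplicit false

namespace Pool.RS

open Pool.Agent.Work.MP_4cd38d_lc
open Polynomial

theorem CHN_rl_mul (p q : ℚ[X]) : rl (p * q) = rl p * rl q := by
  simp [rl]

theorem CHN_rl_monic {p : ℚ[X]} (h : p.Monic) : (rl p).Monic := h.map _

theorem CHN_rl_dvd {p q : ℚ[X]} (h : p ∣ q) : rl p ∣ rl q := Polynomial.map_dvd _ h

/-- the decomposition into monic irreducible factors -/
theorem CHN_factors (m : ℚ[X]) (hm : m.Monic) : ∃ S : Multiset ℚ[X],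
    (∀ q ∈ S, q.Monic ∧ Irreducible q) ∧ S.prod = m := by
  classical
  refine ⟨UniqueFactorizationMonoid.normalizedFactors m, fun q hq => ?_, ?_⟩
  · have h1 := UniqueFactorizationMonoid.irreducible_of_normalized_factor q hq
    have h2 := UniqueFactorizationMonoid.normalize_normalized_factor q hq
    refine ⟨?_, h1⟩
    rw [← h2]
    exact Polynomial.monic_normalize h1.ne_zero
  · rw [UniqueFactorizationMonoid.prod_normalizedFactors_eq hm.ne_zero]
    exact hm.normalize_eq_self

theorem CHN_tprod (lam : ℝ) (t : List ℚ) (ht : ∀ r ∈ t, (r : ℝ) < lam) :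
    (rl (t.map (fun r => X - C r)).prod).Monic ∧ (rl (t.map (fun r => X - C r)).prod).Splits ∧
    (∀ ρ, (rl (t.map (fun r => X - C r)).prod).IsRoot ρ → ρ < lam) := by
  induction t with
  | nil =>
    refine ⟨?_, ?_, ?_⟩
    · simp [rl]
    · simp only [List.map_nil, List.prod_nil, rl, Polynomial.map_one]
      exact Splits.one
    · intro ρ h
      simp [rl, IsRoot] at h
  | cons r t ih =>
    obtain ⟨h1, h2, h3⟩ := ih (fun r hr => ht r (List.mem_cons_of_mem _ hr))
    have he : rl (((r :: t).map (fun r => X - C r)).prod) =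
        (X - C (r : ℝ)) * rl (t.map (fun r => X - C r)).prod := by
      rw [List.map_cons, List.prod_cons, CHN_rl_mul]
      congr 1
      simp [rl]
    rw [he]
    refine ⟨(monic_X_sub_C _).mul h1, (Splits.X_sub_C _).mul h2, ?_⟩
    intro ρ h
    rw [IsRoot, eval_mul, mul_eq_zero] at h
    rcases h with h | h
    · rw [eval_sub, eval_X, eval_C, sub_eq_zero] at h
      rw [h]
      exact ht r List.mem_cons_self
    · exact h3 ρ h

theorem CHN_lprod (l : List ℚ[X]) (h : ∀ p ∈ l, p.Monic) : l.prod.Monic := by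
  induction l with
  | nil => simp
  | cons a l ih =>
    rw [List.prod_cons]
    exact (h a List.mem_cons_self).mul (ih (fun p hp => h p (List.mem_cons_of_mem _ hp)))

theorem p_CHN (hCH1 : Stmt_CH1) : Stmt_CHN := by
  classical
  intro m lam k hm hR hk
  obtain ⟨S, hS, hprod⟩ := CHN_factors m hm
  have hrm0 : rl m ≠ 0 := hR.1.ne_zero
  -- one factor has the root lam
  have hroot : (rl m).IsRoot lam := by
    rw [← rootMultiplicity_pos hrm0, hk]
    omega
  have hq : ∃ q ∈ S, (rl q).IsRoot lam := by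
    by_contra hcon
    push Not at hcon
    have key : ∀ T : Multiset ℚ[X], (∀ q ∈ T, ¬ (rl q).IsRoot lam) →
        ¬ (rl T.prod).IsRoot lam := by
      intro T
      induction T using Multiset.induction_on with
      | empty =>
        intro _ h
        simp [rl, IsRoot] at h
      | cons a T ih =>
        intro h1 h2
        rw [Multiset.prod_cons, CHN_rl_mul, IsRoot, eval_mul, mul_eq_zero] at h2
        rcases h2 with h2 | h2
        · exact h1 a (Multiset.mem_cons_self _ _) h2
        · exact ih (fun q hq => h1 q (Multiset.mem_cons_of_mem hq)) h2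
    exact key S hcon (by rw [hprod]; exact hroot)
  obtain ⟨q, hqS, hqr⟩ := hq
  set l' : List ℚ[X] := (S.erase q).toList with hl'
  have hl'prod : l'.prod = (S.erase q).prod := by
    rw [hl', Multiset.prod_toList]
  have hmq : l'.prod * q = m := by
    rw [hl'prod, mul_comm, Multiset.prod_erase hqS, hprod]
  have hmem : ∀ p ∈ l' ++ [q], p ∈ S := by
    intro p hp
    rw [List.mem_append] at hp
    rcases hp with hp | hp
    · rw [hl', Multiset.mem_toList] at hp
      exact Multiset.mem_of_mem_erase hp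
    · rw [List.mem_singleton] at hp
      rw [hp]; exact hqS
  have hdvd : ∀ p ∈ S, rl p ∣ rl m := by
    intro p hp
    rw [← hprod]
    exact CHN_rl_dvd (Multiset.dvd_prod hp)
  have hlist : ∀ p ∈ l' ++ [q], p.Monic ∧ 1 ≤ p.natDegree ∧ Rts (rl p) lam ∧
      (rl p).Separable := by
    intro p hp
    have hpS := hmem p hp
    obtain ⟨h1, h2⟩ := hS p hpS
    refine ⟨h1, h2.natDegree_pos, ⟨CHN_rl_monic h1, hR.2.1.of_dvd hrm0 (hdvd p hpS), ?_⟩, ?_⟩
    · intro ρ hρ
      exact hR.2.2 ρ (hρ.dvd (hdvd p hpS))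
    · exact (h2.separable).map
  obtain ⟨T, N, β, hN0, hNT, hβ, hrec, hstr⟩ := hCH1 (l' ++ [q]) lam hlist 1
  refine ⟨T, N, β, hN0, ?_, hβ, hrec, ?_⟩
  · rw [hNT, one_mul, List.prod_append, List.prod_singleton, hmq]
  intro i hi
  obtain ⟨l₁, l₂, q', t, hl, ht, hNi⟩ := hstr i hi
  obtain ⟨t1, t2, t3⟩ := CHN_tprod lam t ht
  -- `l₁` is an initial segment of `l'`
  have hpre : ∃ l₃, l' = l₁ ++ l₃ := by
    rw [List.append_eq_append_iff] at hl
    rcases hl with ⟨as, h1, h2⟩ | ⟨cs, h1, h2⟩
    · have : as = [] := by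
        have h3 := congrArg List.length h2
        simp only [List.length_append, List.length_cons, List.length_nil] at h3
        exact List.eq_nil_of_length_eq_zero (by omega)
      exact ⟨[], by rw [h1, this]; simp⟩
    · exact ⟨cs, h1⟩
  obtain ⟨l₃, hl₃⟩ := hpre
  have hfac : rl m = rl l₁.prod * (rl l₃.prod * rl q) := by
    rw [← hmq, hl₃, List.prod_append, mul_assoc, CHN_rl_mul, CHN_rl_mul]
  have hNi' : rl (N i) = rl l₁.prod * rl (t.map (fun r => X - C r)).prod := by
    rw [hNi, one_mul, CHN_rl_mul]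
  have hl1m : (rl l₁.prod).Monic := by
    apply CHN_rl_monic
    apply CHN_lprod
    intro p hp
    exact (hlist p (by rw [hl₃]; simp [hp])).1
  have hl1d : rl l₁.prod ∣ rl m := ⟨_, hfac⟩
  rw [hNi']
  refine ⟨hl1m.mul t1, (hR.2.1.of_dvd hrm0 hl1d).mul t2, ?_, ?_⟩
  · intro ρ h
    rw [IsRoot, eval_mul, mul_eq_zero] at h
    rcases h with h | h
    · exact (hR.2.2 ρ (IsRoot.dvd h hl1d)).2
    · exact (t3 ρ h).le
  · rw [rootMultiplicity_mul (mul_ne_zero hl1m.ne_zero t1.ne_zero)]
    have h0 : (rl (t.map (fun r => X - C r)).prod).rootMultiplicity lam = 0 := by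
      apply rootMultiplicity_eq_zero
      intro h
      exact lt_irrefl _ (t3 lam h)
    rw [h0, add_zero]
    have h1 : (rl m).rootMultiplicity lam = (rl l₁.prod).rootMultiplicity lam +
        ((rl l₃.prod).rootMultiplicity lam + (rl q).rootMultiplicity lam) := by
      have h2 : rl l₃.prod * rl q ≠ 0 := by
        intro h
        rw [hfac, h, mul_zero] at hrm0
        exact hrm0 rfl
      rw [hfac, rootMultiplicity_mul (mul_ne_zero hl1m.ne_zero h2), rootMultiplicity_mul h2]
    have h2 : 0 < (rl q).rootMultiplicity lam :=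
      (rootMultiplicity_pos (CHN_rl_monic (hS q hqS).1).ne_zero).2 hqr
    omega

end Pool.RS
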