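import Pool.Agent.Work.MP_4cd38d_rs.Interface

set_option autoImplicit false

namespace Pool.RS

open Pool.Agent.Work.MP_4cd38d_lc
open Polynomial

theorem p_CNA (hEIT : Stmt_EIT) (hKEV : Stmt_KEV) : Stmt_CNA := by
  classical
  intro Γ _ _ g c hc1 hc2 hg m μ ⟨v, ⟨z₀, hz₀⟩, hv⟩
  have hex : ∃ l, ∃ z : (Σ l : Fin (m + 1), Fin l → Γ), (z.1 : ℕ) = l ∧ v z ≠ 0 :=
    ⟨z₀.1, z₀, rfl, hz₀⟩
  obtain ⟨⟨lf, f₁⟩, h1, h2⟩ := Nat.find_spec hex
  have hmin : ∀ z : (Σ l : Fin (m + 1), Fin l → Γ), z.1 < lf → v z = 0 := by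
    intro z hz
    by_contra hc
    have h3 : (z.1 : ℕ) < Nat.find hex := by rw [← h1]; exact hz
    exact Nat.find_min hex h3 ⟨z, rfl, hc⟩
  have hN : ∀ μ, Eig (fun a b => ((g b).count a : ℂ)) μ → Ps μ := by
    intro μ hμ
    exact hg μ (hEIT Γ _ μ hμ)
  refine hKEV Γ (fun a b => ((g b).count a : ℂ)) hN lf μ ⟨fun f => v ⟨lf, f⟩, ⟨f₁, h2⟩, fun f => ?_⟩
  have h4 := hv ⟨lf, f⟩
  rw [← h4, Fintype.sum_sigma]
  rw [Finset.sum_eq_single lf]
  · apply Finset.sum_congr rfl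
    intro f' _
    congr 1
    simp only
    rw [hc2]
    push_cast
    rfl
  · intro l' _ hl'
    apply Finset.sum_eq_zero
    intro f' _
    rcases lt_or_gt_of_ne hl' with h | h
    · rw [hmin ⟨l', f'⟩ h, mul_zero]
    · simp only
      rw [hc1 _ _ (by rw [List.length_ofFn, List.length_ofFn]; exact h)]
      simp
  · intro h
    exact absurd (Finset.mem_univ _) h

end Pool.RS
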