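import Pool.Agent.Work.MP_4cd38d_rs.Interface

set_option autoImplicit false

namespace Pool.RS

open Pool.Agent.Work.MP_4cd38d_lc
open Polynomial

lemma CNT_sum (hPEC : Stmt_PEC) {ι : Type} (s : Finset ι) (f : ι → ℕ → ℝ)
    (h : ∀ i, PExp (f i)) : PExp (fun n => ∑ i ∈ s, f i n) := by
  classical
  induction s using Finset.induction_on with
  | empty =>
    simp only [Finset.sum_empty]
    exact hPEC.2.2.1 0
  | insert a s ha ih =>
    simp only [Finset.sum_insert ha]
    exact hPEC.1 _ _ (h a) ih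

theorem p_CNT (hPEC : Stmt_PEC) (hPEM : Stmt_PEM) (hCEX : Stmt_CEX) (hCNA : Stmt_CNA) :
    Stmt_CNT := by
  classical
  intro Γ D _ _ _ g G u x hg
  obtain ⟨c, hc1, hc2, hc3⟩ := hCEX Γ Γ g
  obtain ⟨c', _, _, hc3'⟩ := hCEX Γ D G
  set m := x.length with hm
  set W : ℕ → List Γ := fun n => (fun w : List Γ => w.flatMap g)^[n] u with hW
  have hWs : ∀ n, W (n + 1) = (W n).flatMap g := fun n => by
    rw [hW]
    exact Function.iterate_succ_apply' _ _ _
  have hy : ∀ z : (Σ l : Fin (m + 1), Fin l → Γ),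
      PExp (fun n => (scatteredCount (List.ofFn z.2) (W n) : ℝ)) := by
    refine hPEM (Σ l : Fin (m + 1), Fin l → Γ)
      (fun z z' => (c (List.ofFn z'.2) (List.ofFn z.2) : ℝ)) ?_
      (fun n z => (scatteredCount (List.ofFn z.2) (W n) : ℝ)) ?_
    · intro μ hμ
      apply hCNA Γ g c hc1 hc2 hg m μ
      have h1 : (fun z z' : (Σ l : Fin (m + 1), Fin l → Γ) =>
          (((c (List.ofFn z'.2) (List.ofFn z.2) : ℕ) : ℝ) : ℂ)) =
          fun z z' : (Σ l : Fin (m + 1), Fin l → Γ) =>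
          ((c (List.ofFn z'.2) (List.ofFn z.2) : ℕ) : ℂ) := by
        funext z z'
        exact Complex.ofReal_natCast _
      rw [← h1]
      exact hμ
    · intro n z
      have h2 := hc3 m (List.ofFn z.2) (W n) (by
        rw [List.length_ofFn]
        exact Nat.lt_succ_iff.1 z.1.2)
      rw [← hWs] at h2
      rw [h2]
      push_cast
      rfl
  have h3 : ∀ n, (scatteredCount x (hd0l g G u n) : ℝ) =
      ∑ z : (Σ l : Fin (m + 1), Fin l → Γ),
        (c' (List.ofFn z.2) x : ℝ) * (scatteredCount (List.ofFn z.2) (W n) : ℝ) := by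
    intro n
    have h4 := hc3' m x (W n) le_rfl
    have h5 : hd0l g G u n = (W n).flatMap G := rfl
    rw [h5, h4]
    push_cast
    rfl
  simp_rw [h3]
  exact CNT_sum hPEC _ _ fun z => hPEC.2.1 _ _ (hPEC.2.2.1 _) (hy z)

end Pool.RS
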