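import Pool.Agent.Work.MP_4cd38d_rs.Interface

set_option autoImplicit false

namespace Pool.RS

open Pool.Agent.Work.MP_4cd38d_lc
open Polynomial

lemma CR1_rel (s : ℕ → ℝ) (N : ℕ → ℚ[X]) (β : ℕ → ℕ → ℚ) (i : ℕ)
    (h : X * N i = N (i + 1) + ∑ j ∈ Finset.range (i + 1), C (β i j) * N j) (n : ℕ) :
    pE (rl (N i)) s (n + 1) = pE (rl (N (i + 1))) s n +
      ∑ j ∈ Finset.range (i + 1), (β i j : ℝ) * pE (rl (N j)) s n := by
  have h1 : X * rl (N i) = rl (N (i + 1)) +
      ∑ j ∈ Finset.range (i + 1), C ((β i j : ℝ)) * rl (N j) := by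
    have h2 := congrArg (Polynomial.map (algebraMap ℚ ℝ)) h
    rw [Polynomial.map_mul, map_X, Polynomial.map_add, Polynomial.map_sum] at h2
    unfold rl
    rw [h2]
    congr 1
    apply Finset.sum_congr rfl
    intro j _
    rw [Polynomial.map_mul, map_C]
    rfl
  have h3 := congrArg (fun p => pE p s n) h1
  have h4 : pE (X * rl (N i)) s n = pE (rl (N i)) s (n + 1) := by
    unfold pE
    rw [map_mul, aeval_X]
    rfl
  have h5 : pE (rl (N (i + 1)) + ∑ j ∈ Finset.range (i + 1), C ((β i j : ℝ)) * rl (N j)) s n =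
      pE (rl (N (i + 1))) s n +
      ∑ j ∈ Finset.range (i + 1), (β i j : ℝ) * pE (rl (N j)) s n := by
    unfold pE
    rw [map_add, map_sum, LinearMap.add_apply, Pi.add_apply, LinearMap.sum_apply,
      Finset.sum_apply]
    congr 1
    apply Finset.sum_congr rfl
    intro j _
    rw [map_mul, aeval_C, Module.End.mul_apply, Module.algebraMap_end_apply, Pi.smul_apply,
      smul_eq_mul]
  rw [← h4, ← h5]
  exact h3

theorem p_CR1 : Stmt_CR1 := by
  classical
  intro s T N β hT hN0 hβ hrel hpos hend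
  set sR : ℕ → ℝ := fun n => (s n : ℝ) with hsR
  set D : ℕ := ∏ i ∈ Finset.range T, ∏ j ∈ Finset.range T, (β i j).den with hD
  have hD1 : 1 ≤ D := by
    rw [hD]
    exact Nat.one_le_iff_ne_zero.2 (Finset.prod_ne_zero_iff.2 fun i _ =>
      Finset.prod_ne_zero_iff.2 fun j _ => (β i j).den_nz)
  have hb : ∀ i j, ∃ b : ℕ, i < T → j < T → (b : ℝ) = D * (β i j : ℝ) := by
    intro i j
    by_cases hi : i < T
    · by_cases hj : j < T
      · have hdvd : (β i j).den ∣ D := by
          rw [hD]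
          exact (Finset.dvd_prod_of_mem (fun j => (β i j).den) (Finset.mem_range.2 hj)).trans
            (Finset.dvd_prod_of_mem (fun i => ∏ j ∈ Finset.range T, (β i j).den)
              (Finset.mem_range.2 hi))
        obtain ⟨e, he⟩ := hdvd
        have hnum : 0 ≤ (β i j).num := Rat.num_nonneg.2 (hβ i j)
        refine ⟨e * (β i j).num.toNat, fun _ _ => ?_⟩
        have h1 : ((β i j).num.toNat : ℝ) = ((β i j).num : ℝ) := by
          exact_mod_cast Int.toNat_of_nonneg hnum
        have h2 : ((β i j : ℚ) : ℝ) * ((β i j).den : ℝ) = ((β i j).num : ℝ) := by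
          exact_mod_cast Rat.mul_den_eq_num (β i j)
        push_cast
        rw [h1, ← h2, he]
        push_cast
        ring
      · exact ⟨0, fun _ h => absurd h hj⟩
    · exact ⟨0, fun h => absurd h hi⟩
  choose b hb using hb
  set B : ℕ → ℕ → ℕ := fun i j => D ^ (i - j) * b i j with hB
  have hBr : ∀ i < T, ∀ j ∈ Finset.range (i + 1),
      (B i j : ℝ) * (D : ℝ) ^ j = (D : ℝ) ^ (i + 1) * (β i j : ℝ) := by
    intro i hi j hj
    have hj' : j ≤ i := Nat.lt_succ_iff.1 (Finset.mem_range.1 hj)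
    rw [hB]
    push_cast
    rw [hb i j hi (lt_of_le_of_lt hj' hi)]
    have h1 : (D : ℝ) ^ (i + 1) = (D : ℝ) ^ (i - j) * (D : ℝ) ^ j * D := by
      rw [← pow_add, Nat.sub_add_cancel hj', pow_succ]
    rw [h1]
    ring
  have hz : ∀ i ≤ T, ∃ z : ℕ → ℤ, ∀ n, (z n : ℝ) = (D : ℝ) ^ i * pE (rl (N i)) sR n := by
    intro i
    induction i using Nat.strong_induction_on with
    | _ i ih =>
      intro hiT
      rcases Nat.eq_zero_or_pos i with rfl | hi0
      · refine ⟨s, fun n => ?_⟩
        rw [hN0]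
        have : pE (rl 1) sR = sR := by
          unfold pE rl
          rw [Polynomial.map_one, map_one]
          rfl
        rw [this, pow_zero, one_mul]
      · obtain ⟨i, rfl⟩ : ∃ k, i = k + 1 := ⟨i - 1, by omega⟩
        have hi : i < T := hiT
        have hex : ∀ j, ∃ z : ℕ → ℤ, j ≤ i → ∀ n,
            (z n : ℝ) = (D : ℝ) ^ j * pE (rl (N j)) sR n := by
          intro j
          by_cases hj : j ≤ i
          · obtain ⟨z, hz⟩ := ih j (Nat.lt_succ_of_le hj) (hj.trans hi.le)
            exact ⟨z, fun _ => hz⟩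
          · exact ⟨0, fun h => absurd h hj⟩
        choose z hz using hex
        refine ⟨fun n => D * z i (n + 1) - ∑ j ∈ Finset.range (i + 1), (B i j : ℤ) * z j n,
          fun n => ?_⟩
        push_cast
        rw [hz i le_rfl, CR1_rel sR N β i (hrel i hi) n]
        have h1 : ∑ j ∈ Finset.range (i + 1), (B i j : ℝ) * (z j n : ℝ) =
            (D : ℝ) ^ (i + 1) * ∑ j ∈ Finset.range (i + 1),
              (β i j : ℝ) * pE (rl (N j)) sR n := by
          rw [Finset.mul_sum]
          apply Finset.sum_congr rfl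
          intro j hj
          rw [hz j (Nat.lt_succ_iff.1 (Finset.mem_range.1 hj)), ← mul_assoc, hBr i hi j hj]
          ring
        rw [h1]
        ring
  have hex : ∀ i, ∃ z : ℕ → ℤ, i ≤ T → ∀ n, (z n : ℝ) = (D : ℝ) ^ i * pE (rl (N i)) sR n := by
    intro i
    by_cases hi : i ≤ T
    · obtain ⟨z, hz⟩ := hz i hi
      exact ⟨z, fun _ => hz⟩
    · exact ⟨0, fun h => absurd h hi⟩
  choose y hy using hex
  have hth : ∀ i, ∃ n₀ : ℕ, i < T → ∀ n, n₀ ≤ n → 0 < pE (rl (N i)) sR n := by
    intro i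
    by_cases hi : i < T
    · obtain ⟨n₀, h⟩ := hpos i hi
      exact ⟨n₀, fun _ => h⟩
    · exact ⟨0, fun h => absurd h hi⟩
  choose n₀ hn₀ using hth
  have hDpos : (0 : ℝ) < D := by exact_mod_cast hD1
  refine ⟨D, B, (Finset.range T).sup n₀, y, hD1, hT, ?_, ?_, ?_, ?_⟩
  · intro n _
    have h1 := hy 0 (Nat.zero_le _) n
    rw [hN0] at h1
    have h2 : pE (rl 1) sR = sR := by
      unfold pE rl
      rw [Polynomial.map_one, map_one]
      rfl
    rw [h2, pow_zero, one_mul] at h1
    change ((y 0 n : ℤ) : ℝ) = ((s n : ℤ) : ℝ) at h1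
    exact_mod_cast h1
  · intro i hi n _
    have h1 : ((D : ℤ) * y i (n + 1) : ℝ) = (y (i + 1) n : ℝ) +
        ∑ j ∈ Finset.range (i + 1), ((B i j : ℤ) : ℝ) * (y j n : ℝ) := by
      rw [hy i hi.le, hy (i + 1) hi, CR1_rel sR N β i (hrel i hi) n]
      have h1 : ∑ j ∈ Finset.range (i + 1), ((B i j : ℤ) : ℝ) * (y j n : ℝ) =
            (D : ℝ) ^ (i + 1) * ∑ j ∈ Finset.range (i + 1),
              (β i j : ℝ) * pE (rl (N j)) sR n := by
        rw [Finset.mul_sum]
        apply Finset.sum_congr rfl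
        intro j hj
        have hj' : j ≤ i := Nat.lt_succ_iff.1 (Finset.mem_range.1 hj)
        rw [hy j (hj'.trans hi.le), ← mul_assoc, Int.cast_natCast, hBr i hi j hj]
        ring
      rw [h1]
      push_cast
      ring
    exact_mod_cast h1
  · intro i hi n hn
    have h1 : n₀ i ≤ n := (Finset.le_sup (f := n₀) (Finset.mem_range.2 hi)).trans hn
    have h2 := mul_pos (pow_pos hDpos i) (hn₀ i hi n h1)
    rw [← hy i hi.le n] at h2
    exact_mod_cast h2
  · intro n _
    have h1 := hy T le_rfl n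
    rw [hend] at h1
    simp only [Pi.zero_apply, mul_zero] at h1
    exact_mod_cast h1

end Pool.RS
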