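import Pool.Agent.Work.MP_4cd38d_rs.Interface

set_option autoImplicit false

namespace Pool.RS

open Pool.Agent.Work.MP_4cd38d_lc
open Polynomial

theorem p_CRT (hPDA : Stmt_PDA) (hDPO : Stmt_DPO) (hDPR : Stmt_DPR) (hMIN : Stmt_MIN)
    (hCHN : Stmt_CHN) (hCR1 : Stmt_CR1) : Stmt_CRT := by
  intro s d q hrec hs hexp ⟨n₀, hn₀⟩
  obtain ⟨lam, k, hlam, hdom, p, hp, hmult, hp0⟩ :=
    hPDA (fun n => (s n : ℝ)) hexp ⟨n₀, by exact_mod_cast hn₀⟩
  have hD : Dom lam k (fun n => (s n : ℝ)) := by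
    rcases hdom with h | h
    · exact h
    · exfalso
      obtain ⟨N, hN⟩ := hDPO lam k _ hlam h
      have h1 : (0 : ℝ) < -(s N : ℝ) := hN N le_rfl
      have h2 : (0 : ℝ) ≤ (s N : ℝ) := by exact_mod_cast hs N
      linarith
  obtain ⟨m, hm, hmin⟩ := hMIN s d q hrec
  have hdvd : rl m ∣ p := (hmin p).1 hp0
  have hm0 : pE (rl m) (fun n => (s n : ℝ)) = 0 := (hmin (rl m)).2 dvd_rfl
  have hmR : Rts (rl m) lam :=
    ⟨hm.map _, hp.2.1.of_dvd hp.1.ne_zero hdvd, fun ρ hρ => hp.2.2 ρ (hρ.dvd hdvd)⟩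
  have ha1 : (rl m).rootMultiplicity lam ≤ k + 1 :=
    (rootMultiplicity_le_rootMultiplicity_of_dvd hp.1.ne_zero hdvd lam).trans hmult
  have ha : (rl m).rootMultiplicity lam = k + 1 := by
    by_contra hcon
    have h1 : (rl m).rootMultiplicity lam ≤ k := by omega
    have h2 := hDPR lam k _ (rl m) hlam hD hmR.1 hmR.2.1 (fun ρ hρ => (hmR.2.2 ρ hρ).2) h1
    obtain ⟨N, hN⟩ := hDPO lam _ _ hlam h2
    have h3 := hN N le_rfl
    rw [hm0] at h3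
    exact lt_irrefl _ h3
  obtain ⟨T, N, β, hN0, hNT, hβ, hrecN, hstr⟩ := hCHN m lam k hm hmR ha
  have hT : 1 ≤ T := by
    by_contra hcon
    have h0 : T = 0 := by omega
    rw [h0, hN0] at hNT
    rw [← hNT] at ha
    have h1 : rl (1 : ℚ[X]) = 1 := by simp [rl]
    rw [h1] at ha
    have h2 : (1 : ℝ[X]).rootMultiplicity lam = 0 := by
      apply rootMultiplicity_eq_zero
      intro h
      simp [IsRoot] at h
    omega
  suffices h : ∃ (D : ℕ) (B : ℕ → ℕ → ℕ) (n₁ : ℕ) (y : ℕ → ℕ → ℤ), Crt s D T B n₁ y by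
    obtain ⟨D, B, n₁, y, h⟩ := h
    exact ⟨D, T, B, n₁, y, h⟩
  refine hCR1 s T N β hT hN0 hβ hrecN ?_ (by rw [hNT]; exact hm0)
  intro i hi
  obtain ⟨h1, h2, h3, h4⟩ := hstr i hi
  exact hDPO lam _ _ hlam (hDPR lam k _ (rl (N i)) hlam hD h1 h2 h3 h4)

end Pool.RS
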