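import Pool.Agent.Work.MP_4cd38d_rs.Interface

set_option autoImplicit false

/-! # MP_4cd38d, THEOREM RS, block DPO -/

namespace Pool.RS

open Pool.Agent.Work.MP_4cd38d_lc
open Polynomial

theorem DPO_low (P : ℝ[X]) (h : 0 < P.leadingCoeff) :
    ∃ a : ℝ, 0 < a ∧ ∀ᶠ n : ℕ in Filter.atTop, a ≤ P.eval (n : ℝ) := by
  rcases Nat.eq_zero_or_pos P.natDegree with h0 | h0
  · refine ⟨P.leadingCoeff, h, Filter.Eventually.of_forall fun n => ?_⟩
    have h1 : P = C (P.coeff 0) := eq_C_of_natDegree_eq_zero h0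
    have h2 : P.leadingCoeff = P.coeff 0 := by rw [leadingCoeff, h0]
    rw [h2]
    conv_rhs => rw [h1, eval_C]
  · refine ⟨1, one_pos, ?_⟩
    have h1 : Filter.Tendsto (fun x : ℝ => P.eval x) Filter.atTop Filter.atTop :=
      P.tendsto_atTop_of_leadingCoeff_nonneg (natDegree_pos_iff_degree_pos.1 h0) h.le
    exact (h1.comp tendsto_natCast_atTop_atTop).eventually_ge_atTop 1

theorem p_DPO : Stmt_DPO := by
  intro lam k y hlam hy
  obtain ⟨P, -, hP, θ, D, h1, h2, h3⟩ := hy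
  obtain ⟨a, ha, h4⟩ := DPO_low P hP
  have h5 : Filter.Tendsto (fun n : ℕ => D * (θ / lam) ^ n) Filter.atTop (nhds (D * 0)) :=
    (tendsto_pow_atTop_nhds_zero_of_lt_one (div_nonneg h1.le hlam.le)
      ((div_lt_one hlam).2 h2)).const_mul D
  rw [mul_zero] at h5
  have h6 : ∀ᶠ n : ℕ in Filter.atTop, D * (θ / lam) ^ n < a := h5.eventually_lt_const ha
  obtain ⟨N, hN⟩ := Filter.eventually_atTop.1 (h4.and h6)
  refine ⟨N, fun n hn => ?_⟩
  obtain ⟨h7, h8⟩ := hN n hn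
  have hp : 0 < lam ^ n := pow_pos hlam n
  have h9 : D * θ ^ n = D * (θ / lam) ^ n * lam ^ n := by
    rw [div_pow, mul_assoc, div_mul_cancel₀ _ hp.ne']
  have h10 := (abs_le.1 (h3 n)).1
  rw [h9] at h10
  have h11 : D * (θ / lam) ^ n * lam ^ n < P.eval (n : ℝ) * lam ^ n :=
    mul_lt_mul_of_pos_right (lt_of_lt_of_le h8 h7) hp
  linarith

end Pool.RS
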