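import Pool.Agent.Work.MP_4cd38d_rs.Interface

set_option autoImplicit false

/-! # THEOREM RS, block DST (helper54): the dominant term under the operator `E - ρ` -/

namespace Pool.RS

open Pool.Agent.Work.MP_4cd38d_lc
open Polynomial

theorem DST_pE (ρ : ℝ) (y : ℕ → ℝ) (n : ℕ) : pE (X - C ρ) y n = y (n + 1) - ρ * y n := by
  unfold pE
  rw [map_sub, aeval_X, aeval_C]
  rfl

theorem DST_Q (P : ℝ[X]) (lam ρ : ℝ) (n : ℕ) :
    (C lam * taylor 1 P - C ρ * P).eval (n : ℝ) =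
      lam * P.eval ((n + 1 : ℕ) : ℝ) - ρ * P.eval (n : ℝ) := by
  rw [eval_sub, eval_mul, eval_mul, eval_C, eval_C, taylor_eval]
  push_cast
  ring_nf

theorem DST_rest {y : ℕ → ℝ} {P : ℝ[X]} {lam θ K : ℝ}
    (h : ∀ n : ℕ, |y n - P.eval (n : ℝ) * lam ^ n| ≤ K * θ ^ n) (ρ : ℝ) (n : ℕ) :
    |pE (X - C ρ) y n - (C lam * taylor 1 P - C ρ * P).eval (n : ℝ) * lam ^ n| ≤
      (K * (θ + |ρ|)) * θ ^ n := by
  rw [DST_pE, DST_Q]
  have e : y (n + 1) - ρ * y n -
      (lam * P.eval ((n + 1 : ℕ) : ℝ) - ρ * P.eval (n : ℝ)) * lam ^ n =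
    (y (n + 1) - P.eval ((n + 1 : ℕ) : ℝ) * lam ^ (n + 1)) -
      ρ * (y n - P.eval (n : ℝ) * lam ^ n) := by ring
  rw [e]
  have h0 : |(y (n + 1) - P.eval ((n + 1 : ℕ) : ℝ) * lam ^ (n + 1)) -
      ρ * (y n - P.eval (n : ℝ) * lam ^ n)| ≤
      |y (n + 1) - P.eval ((n + 1 : ℕ) : ℝ) * lam ^ (n + 1)| +
      |ρ * (y n - P.eval (n : ℝ) * lam ^ n)| := by
    rw [sub_eq_add_neg]
    refine (abs_add_le _ _).trans ?_
    rw [abs_neg]
  refine h0.trans ?_
  rw [abs_mul]
  have h1 := h (n + 1)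
  have h2 := mul_le_mul_of_nonneg_left (h n) (abs_nonneg ρ)
  calc _ ≤ K * θ ^ (n + 1) + |ρ| * (K * θ ^ n) := add_le_add h1 h2
    _ = _ := by ring

/-- the dominant term from a polynomial `Q` of the given degree -/
theorem DST_mk {y : ℕ → ℝ} {P : ℝ[X]} {lam θ K ρ : ℝ} {k : ℕ} (h0 : 0 < θ) (h1 : θ < lam)
    (h : ∀ n : ℕ, |y n - P.eval (n : ℝ) * lam ^ n| ≤ K * θ ^ n)
    (hd : (C lam * taylor 1 P - C ρ * P).natDegree ≤ k)
    (hc : 0 < (C lam * taylor 1 P - C ρ * P).coeff k) : Dom lam k (pE (X - C ρ) y) := by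
  have hk : (C lam * taylor 1 P - C ρ * P).natDegree = k :=
    natDegree_eq_of_le_of_coeff_ne_zero hd hc.ne'
  refine ⟨_, hk, ?_, θ, K * (θ + |ρ|), h0, h1, fun n => DST_rest h ρ n⟩
  unfold leadingCoeff
  rw [hk]
  exact hc

theorem DST_low (P : ℝ[X]) (m : ℕ) (hm : P.natDegree = m + 1) :
    (taylor 1 P).coeff m = P.coeff m + (m + 1) * P.leadingCoeff := by
  rw [taylor_coeff]
  have hd : (hasseDeriv m P).natDegree < 2 := by
    have := natDegree_hasseDeriv_le P m
    omega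
  rw [eval_eq_sum_range' hd, Finset.sum_range_succ, Finset.sum_range_one, hasseDeriv_coeff,
    hasseDeriv_coeff]
  have h1 : (1 + m).choose m = m + 1 := by
    rw [Nat.add_comm]
    exact Nat.choose_succ_self_right m
  have h2 : P.coeff (1 + m) = P.leadingCoeff := by
    unfold leadingCoeff
    rw [hm, Nat.add_comm]
  rw [h1, h2, Nat.zero_add, Nat.choose_self]
  push_cast
  ring

theorem p_DST : Stmt_DST := by
  intro lam k y hlam hy
  obtain ⟨P, hk, hP, θ, K, h0, h1, h⟩ := hy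
  have htop : (taylor 1 P).coeff k = P.leadingCoeff := by
    rw [← hk]
    exact coeff_taylor_natDegree 1 P
  have hPk : P.coeff k = P.leadingCoeff := by
    unfold leadingCoeff
    rw [hk]
  constructor
  · intro ρ hρ
    refine DST_mk h0 h1 h ?_ ?_
    · refine (natDegree_sub_le _ _).trans (max_le ?_ ?_)
      · refine (natDegree_C_mul_le _ _).trans ?_
        rw [natDegree_taylor, hk]
      · exact (natDegree_C_mul_le _ _).trans hk.le
    · rw [coeff_sub, coeff_C_mul, coeff_C_mul, htop, hPk, ← sub_mul]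
      exact mul_pos (sub_pos.2 hρ) hP
  · intro hk1
    obtain ⟨m, rfl⟩ : ∃ m, k = m + 1 := ⟨k - 1, by omega⟩
    rw [Nat.add_sub_cancel]
    refine DST_mk h0 h1 h ?_ ?_
    · rw [natDegree_le_iff_coeff_eq_zero]
      intro N hN
      rw [coeff_sub, coeff_C_mul, coeff_C_mul]
      rcases Nat.eq_or_lt_of_le (Nat.succ_le_of_lt hN) with h2 | h2
      · have h3 : N = m + 1 := h2.symm
        rw [h3, htop, hPk, sub_self]
      · rw [coeff_eq_zero_of_natDegree_lt (p := P) (by omega),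
          coeff_eq_zero_of_natDegree_lt (p := taylor 1 P) (by rw [natDegree_taylor]; omega)]
        ring
    · rw [coeff_sub, coeff_C_mul, coeff_C_mul, DST_low P m hk]
      have : lam * (P.coeff m + (m + 1) * P.leadingCoeff) - lam * P.coeff m =
        lam * ((m + 1) * P.leadingCoeff) := by ring
      rw [this]
      exact mul_pos hlam (mul_pos (by positivity) hP)

end Pool.RS
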