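import Pool.Agent.Work.MP_4cd38d_rs.Interface

set_option autoImplicit false

/-! # Block E3A: exponential growth (helper91) -/

namespace Pool.RS

open Pool.Agent.Work.MP_4cd38d_lc
open Polynomial

theorem E3A_append (T : List (List ℕ)) (n : ℕ) : ∀ u v : List ℕ,
    (fun w : List ℕ => w.flatMap (fun b => T.getD b []))^[n] (u ++ v) =
      (fun w : List ℕ => w.flatMap (fun b => T.getD b []))^[n] u ++
        (fun w : List ℕ => w.flatMap (fun b => T.getD b []))^[n] v := by
  induction n with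
  | zero => intro u v; rfl
  | succ n ih =>
    intro u v
    rw [Function.iterate_succ_apply, Function.iterate_succ_apply, Function.iterate_succ_apply,
      ← ih]
    simp only [List.flatMap_append]

theorem E3A_nil (T : List (List ℕ)) (n : ℕ) :
    (fun w : List ℕ => w.flatMap (fun b => T.getD b []))^[n] [] = [] := by
  induction n with
  | zero => rfl
  | succ n ih =>
    rw [Function.iterate_succ_apply]
    exact ih

/-- letters of the image of a letter of `w` occur in the image of `w` -/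
theorem E3A_mem (T : List (List ℕ)) (n : ℕ) {a c : ℕ} : ∀ {w : List ℕ}, a ∈ w →
    c ∈ (fun w : List ℕ => w.flatMap (fun b => T.getD b []))^[n] [a] →
    c ∈ (fun w : List ℕ => w.flatMap (fun b => T.getD b []))^[n] w := by
  intro w
  induction w with
  | nil => intro h; simp at h
  | cons b w ih =>
    intro h h1
    have e : b :: w = [b] ++ w := rfl
    rw [e, E3A_append, List.mem_append]
    rcases List.mem_cons.1 h with h2 | h2
    · subst h2
      exact Or.inl h1
    · exact Or.inr (ih h2 h1)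

theorem E3A_count (T : List (List ℕ)) (n c : ℕ) (w : List ℕ) :
    w.count c * ((fun w : List ℕ => w.flatMap (fun b => T.getD b []))^[n] [c]).count c ≤
      ((fun w : List ℕ => w.flatMap (fun b => T.getD b []))^[n] w).count c := by
  induction w with
  | nil => simp
  | cons b w ih =>
    have e : b :: w = [b] ++ w := rfl
    rw [e, E3A_append, List.count_append, List.count_append, Nat.add_mul]
    refine Nat.add_le_add ?_ ih
    by_cases h : b = c
    · subst h
      simp
    · have h1 : ([b] : List ℕ).count c = 0 := by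
        rw [List.count_eq_zero]
        simp [Ne.symm h]
      rw [h1, Nat.zero_mul]
      exact Nat.zero_le _

theorem E3A_grow (K d m : ℕ) : ∃ n : ℕ, K * (m * n + 1) ^ d < 2 ^ n := by
  have h1 : Filter.Tendsto (fun n : ℕ => (n : ℝ) ^ d / (2 : ℝ) ^ n) Filter.atTop (nhds 0) :=
    tendsto_pow_const_div_const_pow_of_one_lt d (by norm_num)
  have hpos : (0 : ℝ) < 1 / ((K : ℝ) * ((m : ℝ) + 1) ^ d + 1) := by positivity
  obtain ⟨n, hn, hn1⟩ := ((h1.eventually_lt_const hpos).and (Filter.eventually_ge_atTop 1)).exists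
  refine ⟨n, ?_⟩
  have h2 : (0 : ℝ) < (2 : ℝ) ^ n := by positivity
  have h3 : (0 : ℝ) < (K : ℝ) * ((m : ℝ) + 1) ^ d + 1 := by positivity
  rw [div_lt_div_iff₀ h2 h3] at hn
  have h4 : (K : ℝ) * ((m : ℝ) * n + 1) ^ d ≤ (K : ℝ) * (((m : ℝ) + 1) ^ d * (n : ℝ) ^ d) := by
    rw [← mul_pow]
    have hn1' : (1 : ℝ) ≤ n := by exact_mod_cast hn1
    have h5 : (m : ℝ) * n + 1 ≤ ((m : ℝ) + 1) * n := by nlinarith
    have h6 : (0 : ℝ) ≤ (m : ℝ) * n + 1 := by positivity
    exact mul_le_mul_of_nonneg_left (pow_le_pow_left₀ h6 h5 d) (Nat.cast_nonneg K)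
  have h7 : (0 : ℝ) ≤ (n : ℝ) ^ d := by positivity
  have h8 : (K : ℝ) * ((m : ℝ) * n + 1) ^ d < (2 : ℝ) ^ n := by nlinarith
  exact_mod_cast h8

theorem p_E3A : Stmt_E3A := by
  intro T c b₁ b₂ l₁ l₂ x y z hT h₁ h₂ K d
  obtain ⟨F, hF⟩ : ∃ F : List ℕ → List ℕ, F = fun w : List ℕ => w.flatMap (fun b => T.getD b []) :=
    ⟨_, rfl⟩
  have happ := E3A_append T
  have hmem := @E3A_mem T
  have hcnt := E3A_count T
  rw [← hF] at happ hmem hcnt h₁ h₂ ⊢
  have hFc : F [c] = x ++ b₁ :: (y ++ b₂ :: z) := by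
    rw [hF]
    simp only [List.flatMap_cons, List.flatMap_nil, List.append_nil]
    exact hT
  have hb1 : b₁ ∈ F [c] := by rw [hFc]; simp
  have hb2 : b₂ ∈ F [c] := by rw [hFc]; simp
  -- `c` occurs periodically
  have hper : ∀ b l : ℕ, b ∈ F [c] → c ∈ F^[l] [b] → ∀ i, c ∈ F^[(l + 1) * i] [c] := by
    intro b l hb hc i
    induction i with
    | zero => simp
    | succ i ih =>
      have h3 : c ∈ F^[l + 1] [c] := by
        rw [Function.iterate_succ_apply]
        exact hmem l hb hc
      rw [Nat.mul_succ, Function.iterate_add_apply]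
      exact hmem _ h3 ih
  have hone : ∀ b l l' : ℕ, b ∈ F [c] → c ∈ F^[l] [b] → c ∈ F^[(l + 1) * l' + l] [b] := by
    intro b l l' hb hc
    rw [Function.iterate_add_apply]
    exact hmem _ hc (hper b l hb hc l')
  have e1 : (l₁ + 1) * l₂ + l₁ + 1 = (l₁ + 1) * (l₂ + 1) := by ring
  have e2 : (l₂ + 1) * l₁ + l₂ + 1 = (l₁ + 1) * (l₂ + 1) := by ring
  have hc1 := hone b₁ l₁ l₂ hb1 h₁
  have hc2 := hone b₂ l₂ l₁ hb2 h₂
  obtain ⟨m, hm⟩ : ∃ m, m = (l₁ + 1) * l₂ + l₁ := ⟨_, rfl⟩
  have hm2 : (l₂ + 1) * l₁ + l₂ = m := by omega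
  rw [← hm] at hc1
  rw [hm2] at hc2
  have htwo : 2 ≤ (F^[m + 1] [c]).count c := by
    have g1 : (x ++ b₁ :: (y ++ b₂ :: z)) = x ++ ([b₁] ++ (y ++ ([b₂] ++ z))) := rfl
    rw [Function.iterate_succ_apply, hFc, g1, happ, happ, happ, happ, List.count_append,
      List.count_append, List.count_append, List.count_append]
    have g2 := List.count_pos_iff.2 hc1
    have g3 := List.count_pos_iff.2 hc2
    omega
  have hpow : ∀ n : ℕ, 2 ^ n ≤ (F^[(m + 1) * n] [c]).count c := by
    intro n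
    induction n with
    | zero => simp
    | succ n ih =>
      rw [Nat.mul_succ, Function.iterate_add_apply]
      refine le_trans ?_ (hcnt ((m + 1) * n) c (F^[m + 1] [c]))
      rw [pow_succ, mul_comm]
      exact Nat.mul_le_mul htwo ih
  obtain ⟨n, hn⟩ := E3A_grow K d (m + 1)
  exact ⟨(m + 1) * n, lt_of_lt_of_le hn ((hpow n).trans List.count_le_length)⟩

end Pool.RS
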