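import Pool.Agent.Work.MP_4cd38d_rs.Interface

set_option autoImplicit false

namespace Pool.RS

open Pool.Agent.Work.MP_4cd38d_lc
open Polynomial

/-- the morphism of the table -/
def E3B_F (T : List (List ℕ)) (w : List ℕ) : List ℕ := w.flatMap (fun b => T.getD b [])

theorem E3B_app (T : List (List ℕ)) (n : ℕ) (u v : List ℕ) :
    (E3B_F T)^[n] (u ++ v) = (E3B_F T)^[n] u ++ (E3B_F T)^[n] v := by
  induction n with
  | zero => rfl
  | succ n ih =>
    simp only [Function.iterate_succ_apply', ih]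
    unfold E3B_F
    exact List.flatMap_append

/-- `b` is reachable from `a` -/
def E3B_R (T : List (List ℕ)) (a b : ℕ) : Prop := ∃ n, b ∈ (E3B_F T)^[n] [a]

theorem E3B_refl (T : List (List ℕ)) (a : ℕ) : E3B_R T a a := ⟨0, by simp⟩

theorem E3B_mem (T : List (List ℕ)) (n : ℕ) (b c : ℕ) (w : List ℕ) (hb : b ∈ w)
    (hc : c ∈ (E3B_F T)^[n] [b]) : c ∈ (E3B_F T)^[n] w := by
  obtain ⟨u, v, rfl⟩ := List.append_of_mem hb
  have h1 : u ++ b :: v = u ++ ([b] ++ v) := rfl
  rw [h1, E3B_app, E3B_app]
  simp [hc]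

theorem E3B_trans (T : List (List ℕ)) (a b c : ℕ) (h1 : E3B_R T a b) (h2 : E3B_R T b c) :
    E3B_R T a c := by
  obtain ⟨n, hn⟩ := h1
  obtain ⟨m, hm⟩ := h2
  refine ⟨m + n, ?_⟩
  rw [Function.iterate_add_apply]
  exact E3B_mem T m b c _ hn hm

theorem E3B_one (T : List (List ℕ)) (a b : ℕ) (h : b ∈ T.getD a []) : E3B_R T a b := by
  refine ⟨1, ?_⟩
  rw [Function.iterate_one]
  unfold E3B_F
  simpa using h

theorem p_E3B : Stmt_E3B := by
  classical
  intro T hT
  set k := T.length with hk
  let R : ℕ → Finset ℕ := fun a => (Finset.range k).filter (fun b => E3B_R T a b)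
  let cl : ℕ → Set ℕ := fun a => {b | E3B_R T a b ∧ E3B_R T b a}
  have hne : ∀ a, (cl a).Nonempty := fun a => ⟨a, E3B_refl T a, E3B_refl T a⟩
  have hsle : ∀ a, sInf (cl a) ≤ a := fun a => Nat.sInf_le ⟨E3B_refl T a, E3B_refl T a⟩
  have hRsub : ∀ a b, E3B_R T a b → R b ⊆ R a := by
    intro a b hab c hc
    simp only [R, Finset.mem_filter] at hc ⊢
    exact ⟨hc.1, E3B_trans T a b c hab hc.2⟩
  have hcls : ∀ a b, E3B_R T a b → E3B_R T b a → cl b = cl a := by
    intro a b hab hba
    ext c
    simp only [cl, Set.mem_ofPred_eq]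
    constructor
    · rintro ⟨h1, h2⟩
      exact ⟨E3B_trans T a b c hab h1, E3B_trans T c b a h2 hba⟩
    · rintro ⟨h1, h2⟩
      exact ⟨E3B_trans T b a c hba h1, E3B_trans T c a b h2 hab⟩
  refine ⟨fun a => (R a).card * (k + 1) + sInf (cl a), ?_, ?_⟩
  · intro a ha b hb
    have hab := E3B_one T a b hb
    have hbk : b < k := by
      refine hT (T.getD a []) ?_ b hb
      rw [List.getD_eq_getElem _ _ ha]
      exact List.getElem_mem _
    change (R b).card * (k + 1) + sInf (cl b) ≤ (R a).card * (k + 1) + sInf (cl a)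
    by_cases hba : E3B_R T b a
    · have h1 : R b = R a := Finset.Subset.antisymm (hRsub a b hab) (hRsub b a hba)
      rw [h1, hcls a b hab hba]
    · have h1 : (R b).card < (R a).card := by
        apply Finset.card_lt_card
        rw [Finset.ssubset_iff_of_subset (hRsub a b hab)]
        refine ⟨a, ?_, ?_⟩
        · simp only [R, Finset.mem_filter, Finset.mem_range]
          exact ⟨ha, E3B_refl T a⟩
        · simp only [R, Finset.mem_filter, not_and]
          exact fun _ => hba
      have h2 : sInf (cl b) ≤ b := hsle b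
      have h3 : ((R b).card + 1) * (k + 1) ≤ (R a).card * (k + 1) := Nat.mul_le_mul_right _ h1
      nlinarith
  · intro a ha b hb hab
    change (R a).card * (k + 1) + sInf (cl a) = (R b).card * (k + 1) + sInf (cl b) at hab
    have h1 : sInf (cl a) < k + 1 := by have := hsle a; omega
    have h2 : sInf (cl b) < k + 1 := by have := hsle b; omega
    have h3 : sInf (cl a) = sInf (cl b) := by
      have e1 : ((R a).card * (k + 1) + sInf (cl a)) % (k + 1) = sInf (cl a) := by
        rw [add_comm, Nat.add_mul_mod_self_right, Nat.mod_eq_of_lt h1]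
      have e2 : ((R b).card * (k + 1) + sInf (cl b)) % (k + 1) = sInf (cl b) := by
        rw [add_comm, Nat.add_mul_mod_self_right, Nat.mod_eq_of_lt h2]
      rw [← e1, ← e2, hab]
    have h4 := Nat.sInf_mem (hne a)
    have h5 := Nat.sInf_mem (hne b)
    rw [← h3] at h5
    exact E3B_trans T a _ b h4.1 h5.2

end Pool.RS
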