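import Pool.Agent.Work.MP_4cd38d_rs.Interface

set_option autoImplicit false

/-! # Block EIT: eigenvalues of the transposed matrix -/

namespace Pool.RS

open Pool.Agent.Work.MP_4cd38d_lc
open Polynomial

theorem EIT_iff (ι : Type) [Fintype ι] [DecidableEq ι] (A : ι → ι → ℂ) (μ : ℂ) :
    Eig A μ ↔ (Matrix.of A - μ • (1 : Matrix ι ι ℂ)).det = 0 := by
  have key : ∀ v : ι → ℂ, (∀ a, ∑ b, A a b * v b = μ * v a) ↔
      (Matrix.of A - μ • (1 : Matrix ι ι ℂ)).mulVec v = 0 := by
    intro v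
    rw [Matrix.sub_mulVec, Matrix.smul_mulVec, Matrix.one_mulVec, sub_eq_zero, funext_iff]
    constructor
    · intro h a
      exact h a
    · intro h a
      exact h a
  rw [← Matrix.exists_mulVec_eq_zero_iff]
  constructor
  · rintro ⟨v, ⟨a, ha⟩, hv⟩
    exact ⟨v, fun h => ha (by rw [h]; rfl), (key v).mp hv⟩
  · rintro ⟨v, hv0, hv⟩
    refine ⟨v, ?_, (key v).mpr hv⟩
    by_contra hcon
    push Not at hcon
    exact hv0 (funext hcon)

theorem p_EIT : Stmt_EIT := by
  classical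
  intro ι _ A μ h
  rw [EIT_iff] at h ⊢
  rw [← h, ← Matrix.det_transpose]
  congr 1
  rw [Matrix.transpose_sub, Matrix.transpose_smul, Matrix.transpose_one]
  rfl

end Pool.RS
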