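import Pool.Agent.Work.MP_4cd38d_rs.Interface

set_option autoImplicit false

/-! # MP_4cd38d, THEOREM RS: block EX1 -/

namespace Pool.RS

open Pool.Agent.Work.MP_4cd38d_lc
open Polynomial

theorem p_EX1 : Stmt_EX1 := by
  intro S h1 h2
  refine ⟨h1, ?_, fun a => a, ?_, ?_⟩
  · intro w hw a ha
    obtain ⟨i, hi, rfl⟩ := List.mem_iff_getElem.1 hw
    have e : S.2.1.getD i [] = S.2.1[i] := by
      rw [List.getD_eq_getElem?_getD, List.getElem?_eq_getElem hi]
      rfl
    have h3 := h2 i hi a (by rw [e]; exact ha)
    omega
  · intro a ha b hb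
    exact h2 a ha b hb
  · intro r
    by_cases hr : r < S.2.1.length ∧ r ∈ S.2.1.getD r []
    · right
      rintro μ ⟨v, ⟨a, ha, har, hva⟩, hv⟩
      have har' : a = r := har
      subst har'
      have h3 := hv a ha rfl
      have h4 : ∑ b ∈ Finset.range S.2.1.length,
          (if b = a then ((S.2.1.getD a []).count b : ℂ) * v b else 0) =
            ((S.2.1.getD a []).count a : ℂ) * v a := by
        rw [Finset.sum_ite_eq' (Finset.range S.2.1.length) a
          (fun b => ((S.2.1.getD a []).count b : ℂ) * v b), if_pos (Finset.mem_range.2 ha)]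
      have h5 : ((S.2.1.getD a []).count a : ℂ) * v a = μ * v a := by
        rw [← h4]
        exact h3
      have h6 : ((S.2.1.getD a []).count a : ℂ) = μ := mul_right_cancel₀ hva h5
      have h7 : 0 < (S.2.1.getD a []).count a := List.count_pos_iff.2 hr.2
      refine ⟨1, one_pos, ((S.2.1.getD a []).count a : ℝ), by exact_mod_cast h7, ?_⟩
      rw [pow_one, ← h6]
      push_cast
      rfl
    · left
      intro a ha har b hb
      have har' : a = r := har
      subst har'
      have h3 := h2 a ha b hb
      rcases lt_or_eq_of_le h3 with h4 | h4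
      · exact h4
      · subst h4
        exact absurd ⟨ha, hb⟩ hr

end Pool.RS
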