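import Pool.Agent.Work.MP_4cd38d_rs.Interface

set_option autoImplicit false

/-! # Block EX2: binary nonsingular systems are of real type -/

namespace Pool.RS

open Pool.Agent.Work.MP_4cd38d_lc
open Polynomial

/-- the eigenvalues of a binary nonnegative matrix -/
theorem EX2_eig (p q r t : ℕ) (hdet : (p : ℤ) * t - q * r ≠ 0) (μ v0 v1 : ℂ)
    (hv : v0 ≠ 0 ∨ v1 ≠ 0) (h0 : (p : ℂ) * v0 + q * v1 = μ * v0)
    (h1 : (r : ℂ) * v0 + t * v1 = μ * v1) : ∃ x : ℝ, 0 < x ∧ μ ^ 2 = x := by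
  have e0 : (μ - p) * v0 = q * v1 := by
    linear_combination -h0
  have e1 : (μ - t) * v1 = r * v0 := by
    linear_combination -h1
  have e2 : (μ - p) * (μ - t) - q * r = 0 := by
    rcases hv with hv | hv
    · have e3 : ((μ - p) * (μ - t) - q * r) * v0 = 0 := by
        linear_combination (μ - t) * e0 + (q : ℂ) * e1
      rcases mul_eq_zero.1 e3 with h | h
      · exact h
      · exact absurd h hv
    · have e3 : ((μ - p) * (μ - t) - q * r) * v1 = 0 := by
        linear_combination (μ - p) * e1 + (r : ℂ) * e0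
      rcases mul_eq_zero.1 e3 with h | h
      · exact h
      · exact absurd h hv
  have hΔ : (0 : ℝ) ≤ ((p : ℝ) - t) ^ 2 + 4 * q * r := by positivity
  obtain ⟨s, hs⟩ : ∃ s : ℝ, s * s = ((p : ℝ) - t) ^ 2 + 4 * q * r :=
    ⟨Real.sqrt (((p : ℝ) - t) ^ 2 + 4 * q * r), Real.mul_self_sqrt hΔ⟩
  have hsC : (s : ℂ) * s = ((p : ℂ) - t) ^ 2 + 4 * q * r := by exact_mod_cast hs
  have e4 : (2 * μ - (p + t) - s) * (2 * μ - (p + t) + s) = 0 := by
    linear_combination 4 * e2 - hsC
  have hμ0 : μ ≠ 0 := by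
    intro h
    rw [h] at e2
    have e5 : ((p : ℂ) * t - q * r) = 0 := by
      linear_combination e2
    apply hdet
    exact_mod_cast e5
  have key : ∃ y : ℝ, μ = y := by
    rcases mul_eq_zero.1 e4 with h | h
    · refine ⟨((p + t : ℝ) + s) / 2, ?_⟩
      push_cast
      linear_combination h / 2
    · refine ⟨((p + t : ℝ) - s) / 2, ?_⟩
      push_cast
      linear_combination h / 2
  obtain ⟨y, hy⟩ := key
  have hy0 : y ≠ 0 := by
    intro h
    apply hμ0
    rw [hy, h]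
    simp
  refine ⟨y ^ 2, by positivity, ?_⟩
  rw [hy]
  push_cast
  rfl

theorem p_EX2 : Stmt_EX2 := by
  intro S hS hlen
  obtain ⟨w, T, U⟩ := S
  obtain ⟨w0, w1, rfl⟩ := List.length_eq_two.1 hlen
  obtain ⟨hS1, hS2, hS3⟩ := hS
  have hdet : (Matrix.of fun i j : Fin 2 => ((([w0, w1].getD i []).count (j : ℕ) : ℕ) : ℤ)).det ≠ 0 :=
    hS3
  rw [Matrix.det_fin_two] at hdet
  refine ⟨hS1, hS2, fun _ => 0, fun _ _ _ _ => le_rfl, fun r => ?_⟩
  by_cases hr : r = 0
  · right
    intro μ hμ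
    obtain ⟨v, ⟨a, ha, -, hva⟩, hv⟩ := hμ
    have h0 := hv 0 (by simp) hr.symm
    have h1 := hv 1 (by simp) hr.symm
    subst hr
    have ha' : a < 2 := ha
    have hv01 : v 0 ≠ 0 ∨ v 1 ≠ 0 := by
      rcases (show a = 0 ∨ a = 1 by omega) with h | h
      · left
        rw [← h]
        exact hva
      · right
        rw [← h]
        exact hva
    have k0 : ((w0.count 0 : ℕ) : ℂ) * v 0 + (w0.count 1 : ℕ) * v 1 = μ * v 0 := by
      simpa [Finset.sum_range_succ] using h0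
    have k1 : ((w1.count 0 : ℕ) : ℂ) * v 0 + (w1.count 1 : ℕ) * v 1 = μ * v 1 := by
      simpa [Finset.sum_range_succ] using h1
    obtain ⟨x, hx, hx2⟩ := EX2_eig (w0.count 0) (w0.count 1) (w1.count 0) (w1.count 1)
      (by simpa using hdet) μ (v 0) (v 1) hv01 k0 k1
    exact ⟨2, by norm_num, x, hx, hx2⟩
  · left
    intro a _ h
    exact absurd h.symm hr

end Pool.RS
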