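import Pool.Agent.Work.MP_4cd38d_rs.Interface

set_option autoImplicit false

namespace Pool.RS

open Pool.Agent.Work.MP_4cd38d_lc
open Polynomial

/-- the morphism of the table -/
def EX3_F (T : List (List ℕ)) (w : List ℕ) : List ℕ := w.flatMap (fun b => T.getD b [])

theorem EX3_app (T : List (List ℕ)) (n : ℕ) (u v : List ℕ) :
    (EX3_F T)^[n] (u ++ v) = (EX3_F T)^[n] u ++ (EX3_F T)^[n] v := by
  induction n with
  | zero => rfl
  | succ n ih =>
    simp only [Function.iterate_succ_apply', ih]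
    unfold EX3_F
    exact List.flatMap_append

theorem EX3_nil (T : List (List ℕ)) (n : ℕ) : (EX3_F T)^[n] [] = [] := by
  induction n with
  | zero => rfl
  | succ n ih => rw [Function.iterate_succ_apply', ih]; rfl

theorem EX3_mem (T : List (List ℕ)) (n : ℕ) (b c : ℕ) (w : List ℕ) (hb : b ∈ w)
    (hc : c ∈ (EX3_F T)^[n] [b]) : c ∈ (EX3_F T)^[n] w := by
  obtain ⟨u, v, rfl⟩ := List.append_of_mem hb
  have h1 : u ++ b :: v = u ++ ([b] ++ v) := rfl
  rw [h1, EX3_app, EX3_app]
  simp [hc]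

theorem EX3_mem' (T : List (List ℕ)) (n : ℕ) (c : ℕ) (w : List ℕ)
    (hc : c ∈ (EX3_F T)^[n] w) : ∃ b ∈ w, c ∈ (EX3_F T)^[n] [b] := by
  induction w with
  | nil => rw [EX3_nil] at hc; exact absurd hc List.not_mem_nil
  | cons a w ih =>
    have h1 : a :: w = [a] ++ w := rfl
    rw [h1, EX3_app, List.mem_append] at hc
    rcases hc with hc | hc
    · exact ⟨a, List.mem_cons_self, hc⟩
    · obtain ⟨b, hb, hb'⟩ := ih hc
      exact ⟨b, List.mem_cons_of_mem _ hb, hb'⟩

theorem EX3_one (T : List (List ℕ)) (a : ℕ) : EX3_F T [a] = T.getD a [] := by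
  unfold EX3_F; simp

/-- exactly one element -/
theorem EX3_filter (p : ℕ → Bool) (w : List ℕ) (h0 : ∃ b ∈ w, p b = true)
    (h2 : ∀ (x y z : List ℕ) (b₁ b₂ : ℕ), w = x ++ b₁ :: (y ++ b₂ :: z) → p b₁ = true →
      p b₂ = true → False) : ∃ d, w.filter p = [d] := by
  obtain ⟨b, hb, hpb⟩ := h0
  obtain ⟨u, v, rfl⟩ := List.append_of_mem hb
  refine ⟨b, ?_⟩
  have hu : u.filter p = [] := by
    rw [List.filter_eq_nil_iff]
    intro a ha hpa
    obtain ⟨u₁, u₂, rfl⟩ := List.append_of_mem ha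
    exact h2 u₁ u₂ v a b (by simp) hpa hpb
  have hv : v.filter p = [] := by
    rw [List.filter_eq_nil_iff]
    intro a ha hpa
    obtain ⟨u₁, u₂, rfl⟩ := List.append_of_mem ha
    exact h2 u u₁ u₂ b a rfl hpb hpa
  rw [List.filter_append, List.filter_cons, if_pos hpb, hu, hv]
  rfl

theorem p_EX3 (hE3A : Stmt_E3A) (hE3B : Stmt_E3B) : Stmt_EX3 := by
  classical
  intro S hS1 hT hgr
  refine ⟨hS1, hT, ?_⟩
  generalize S.2.1 = T at hS1 hT hgr
  obtain ⟨rk, hrk, hreach⟩ := hE3B T hT
  refine ⟨rk, hrk, ?_⟩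
  intro r
  by_cases hgood : ∀ a < T.length, rk a = r → ∀ b ∈ T.getD a [], rk b < r
  · exact Or.inl hgood
  right
  push Not at hgood
  obtain ⟨a₀, ha₀, har, b₀, hb₀, hbr⟩ := hgood
  have hlt : ∀ a < T.length, ∀ b ∈ T.getD a [], b < T.length := by
    intro a ha b hb
    refine hT (T.getD a []) ?_ b hb
    rw [List.getD_eq_getElem _ _ ha]
    exact List.getElem_mem _
  have hb₀r : rk b₀ = r := le_antisymm (har ▸ hrk a₀ ha₀ b₀ hb₀) hbr
  have hb₀k : b₀ < T.length := hlt a₀ ha₀ b₀ hb₀
  have hlev : ∀ n : ℕ, ∀ a < T.length, ∀ c ∈ (EX3_F T)^[n] [a], c < T.length ∧ rk c ≤ rk a := by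
    intro n
    induction n with
    | zero =>
      intro a ha c hc
      rw [Function.iterate_zero_apply, List.mem_singleton] at hc
      subst hc
      exact ⟨ha, le_rfl⟩
    | succ n ih =>
      intro a ha c hc
      rw [Function.iterate_succ_apply'] at hc
      unfold EX3_F at hc
      obtain ⟨d, hd, hcd⟩ := List.mem_flatMap.mp hc
      obtain ⟨h1, h2⟩ := ih a ha d hd
      exact ⟨hlt d h1 c hcd, le_trans (hrk d h1 c hcd) h2⟩
  -- the closed paths
  have hcyc : ∀ c < T.length, rk c = r → ∃ N, c ∈ (EX3_F T)^[N + 1] [c] := by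
    intro c hc hcr
    obtain ⟨n, hn⟩ := hreach c hc a₀ ha₀ (by rw [hcr, har])
    obtain ⟨m, hm⟩ := hreach b₀ hb₀k c hc (by rw [hcr, hb₀r])
    change a₀ ∈ (EX3_F T)^[n] [c] at hn
    change c ∈ (EX3_F T)^[m] [b₀] at hm
    refine ⟨m + n, ?_⟩
    have h1 : m + n + 1 = m + (1 + n) := by ring
    rw [h1, Function.iterate_add_apply]
    apply EX3_mem T m b₀ c _ _ hm
    rw [Function.iterate_add_apply, Function.iterate_one]
    unfold EX3_F
    rw [List.mem_flatMap]
    exact ⟨a₀, hn, hb₀⟩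
  -- the unique successor of the same level
  have hf : ∀ c, ∃ d, c < T.length → rk c = r →
      (T.getD c []).filter (fun b => decide (rk b = r)) = [d] := by
    intro c
    by_cases hc : c < T.length ∧ rk c = r
    · obtain ⟨hc, hcr⟩ := hc
      obtain ⟨d, hd⟩ := EX3_filter (fun b => decide (rk b = r)) (T.getD c []) (by
        obtain ⟨N, hN⟩ := hcyc c hc hcr
        rw [Function.iterate_succ_apply, EX3_one] at hN
        obtain ⟨d, hd, hcd⟩ := EX3_mem' T N c _ hN
        refine ⟨d, hd, ?_⟩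
        have h1 := hrk c hc d hd
        have h2 := (hlev N d (hlt c hc d hd) c hcd).2
        simp only [decide_eq_true_eq]
        omega) (by
        intro x y z b₁ b₂ hw hb₁ hb₂
        simp only [decide_eq_true_eq] at hb₁ hb₂
        have hb₁' : b₁ < T.length := hlt c hc b₁ (by rw [hw]; simp)
        have hb₂' : b₂ < T.length := hlt c hc b₂ (by rw [hw]; simp)
        obtain ⟨l₁, hl₁⟩ := hreach b₁ hb₁' c hc (by rw [hb₁, hcr])
        obtain ⟨l₂, hl₂⟩ := hreach b₂ hb₂' c hc (by rw [hb₂, hcr])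
        obtain ⟨K, d, hKd⟩ := hgr
        obtain ⟨n, hn⟩ := hE3A T c b₁ b₂ l₁ l₂ x y z hw hl₁ hl₂ K d
        exact absurd (hKd c hc n) (not_le.mpr hn))
      exact ⟨d, fun _ _ => hd⟩
    · exact ⟨0, fun h1 h2 => absurd ⟨h1, h2⟩ hc⟩
  choose f hf using hf
  have hfm : ∀ c < T.length, rk c = r → f c ∈ T.getD c [] ∧ rk (f c) = r := by
    intro c hc hcr
    have h1 : f c ∈ (T.getD c []).filter (fun b => decide (rk b = r)) := by
      rw [hf c hc hcr]; simp
    rw [List.mem_filter] at h1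
    exact ⟨h1.1, by simpa using h1.2⟩
  have hfk : ∀ c < T.length, rk c = r → f c < T.length := fun c hc hcr =>
    hlt c hc _ (hfm c hc hcr).1
  have hfu : ∀ c < T.length, rk c = r → ∀ b ∈ T.getD c [], rk b = r → b = f c := by
    intro c hc hcr b hb hbr
    have h1 : b ∈ (T.getD c []).filter (fun b => decide (rk b = r)) := by
      rw [List.mem_filter]; exact ⟨hb, by simpa using hbr⟩
    rw [hf c hc hcr, List.mem_singleton] at h1
    exact h1
  rintro μ ⟨v, ⟨a, hak, har', hva⟩, hv⟩
  have hvf : ∀ c < T.length, rk c = r → v (f c) = μ * v c := by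
    intro c hc hcr
    rw [← hv c hc hcr, Finset.sum_eq_single (f c)]
    · rw [if_pos (hfm c hc hcr).2]
      have h1 : (T.getD c []).count (f c) = 1 := by
        have h2 := List.count_filter (p := fun b => decide (rk b = r)) (a := f c)
          (l := T.getD c []) (by simpa using (hfm c hc hcr).2)
        rw [hf c hc hcr] at h2
        rw [← h2]
        simp
      rw [h1]; simp
    · intro b _ hb
      by_cases hbr : rk b = r
      · rw [if_pos hbr, List.count_eq_zero_of_not_mem]
        · simp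
        · intro hmem
          exact hb (hfu c hc hcr b hmem hbr)
      · rw [if_neg hbr]
    · intro h
      exact absurd (Finset.mem_range.mpr (hfk c hc hcr)) h
  let L := {c : ℕ // c ∈ (Finset.range T.length).filter (fun c => rk c = r)}
  have hL : ∀ c : L, (c : ℕ) < T.length ∧ rk (c : ℕ) = r := by
    intro c
    have := c.2
    rw [Finset.mem_filter, Finset.mem_range] at this
    exact this
  let φ : L → L := fun c => ⟨f c, by
    rw [Finset.mem_filter, Finset.mem_range]
    exact ⟨hfk c (hL c).1 (hL c).2, (hfm c (hL c).1 (hL c).2).2⟩⟩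
  have hsur : Function.Surjective φ := by
    intro c
    obtain ⟨hc, hcr⟩ := hL c
    obtain ⟨N, hN⟩ := hcyc c hc hcr
    rw [Function.iterate_succ_apply'] at hN
    unfold EX3_F at hN
    obtain ⟨d, hd, hcd⟩ := List.mem_flatMap.mp hN
    change d ∈ (EX3_F T)^[N] [(c : ℕ)] at hd
    obtain ⟨h1, h2⟩ := hlev N c hc d hd
    have h3 := hrk d h1 c hcd
    have hdr : rk d = r := by omega
    refine ⟨⟨d, ?_⟩, ?_⟩
    · rw [Finset.mem_filter, Finset.mem_range]; exact ⟨h1, hdr⟩
    · apply Subtype.ext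
      exact (hfu d h1 hdr c hcd hcr).symm
  have hbij : Function.Bijective φ := Finite.injective_iff_bijective.mp
    (Finite.injective_iff_surjective.mpr hsur)
  let e : Equiv.Perm L := Equiv.ofBijective φ hbij
  have hpow : ∀ n : ℕ, ∀ c : L, v ((e ^ n) c : L) = μ ^ n * v c := by
    intro n
    induction n with
    | zero => intro c; simp
    | succ n ih =>
      intro c
      rw [pow_succ', Equiv.Perm.mul_apply]
      have h1 : ((e ((e ^ n) c) : L) : ℕ) = f ((e ^ n) c : L) := rfl
      rw [h1, hvf _ (hL _).1 (hL _).2, ih c]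
      ring
  refine ⟨orderOf e, orderOf_pos e, 1, one_pos, ?_⟩
  have h1 := hpow (orderOf e) ⟨a, by rw [Finset.mem_filter, Finset.mem_range]; exact ⟨hak, har'⟩⟩
  rw [pow_orderOf_eq_one, Equiv.Perm.one_apply] at h1
  change v a = μ ^ orderOf e * v a at h1
  have h2 : (μ ^ orderOf e - 1) * v a = 0 := by rw [sub_mul, one_mul, ← h1, sub_self]
  rcases mul_eq_zero.mp h2 with h3 | h3
  · rw [sub_eq_zero] at h3
    rw [h3]; simp
  · exact absurd h3 hva

end Pool.RS
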