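import Pool.Agent.Work.MP_4cd38d_rs.Interface

set_option autoImplicit false

namespace Pool.RS

open Pool.Agent.Work.MP_4cd38d_lc
open Polynomial

theorem p_FIN (hPRM : Stmt_PRM) (hNSN : Stmt_NSN) (hNCM : Stmt_NCM) : Stmt_FIN := by
  let t₁ : HSystem × HSystem → ℕ → Bool := fun s k => decide (term s.1 k = term s.2 k)
  let t₂ : HSystem × HSystem → ℕ → Bool := fun s k =>
    decide (nbad s (Denumerable.ofNat NCert k) = 0)
  have ht₁ : Computable₂ t₁ := by
    have h : PrimrecPred fun p : (HSystem × HSystem) × ℕ => term p.1.1 p.2 = term p.1.2 p.2 :=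
      Primrec.eq.comp (primrec_term.comp (Primrec.fst.comp Primrec.fst) Primrec.snd)
        (primrec_term.comp (Primrec.snd.comp Primrec.fst) Primrec.snd)
    exact h.decide.to_comp
  have ht₂ : Computable₂ t₂ := by
    have h : PrimrecPred fun p : (HSystem × HSystem) × ℕ =>
        nbad p.1 (Denumerable.ofNat NCert p.2) = 0 :=
      Primrec.eq.comp (hPRM.comp Primrec.fst ((Primrec.ofNat NCert).comp Primrec.snd))
        (Primrec.const 0)
    exact h.decide.to_comp
  have ht : Computable₂ fun s k => t₁ s k || t₂ s k :=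
    Primrec.or.to_comp.comp ht₁ ht₂
  refine ⟨fun s => (Nat.rfind fun k => Part.some (t₁ s k || t₂ s k)).map fun k => t₁ s k,
    (Partrec.rfind ht.partrec₂).map ht₁, fun S S' => ⟨fun h => ?_, fun h => ?_⟩,
    fun S S' hS hS' => ?_⟩
  · obtain ⟨k, _, hk⟩ := (Part.mem_map_iff _).1 h
    exact ⟨k, of_decide_eq_true hk⟩
  · obtain ⟨k, hk, hk1⟩ := (Part.mem_map_iff _).1 h
    have h3 : true ∈ Part.some (t₁ (S, S') k || t₂ (S, S') k) := Nat.rfind_spec hk
    rw [Part.mem_some_iff, hk1, Bool.false_or] at h3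
    have h4 : nbad (S, S') (Denumerable.ofNat NCert k) = 0 := of_decide_eq_true h3.symm
    rintro ⟨n, hn⟩
    exact hNSN (S, S') _ h4 n hn
  · have h2 : ∃ k, (t₁ (S, S') k || t₂ (S, S') k) = true := by
      by_cases hE : ∃ n, term S n = term S' n
      · obtain ⟨n, hn⟩ := hE
        exact ⟨n, by simp [t₁, hn]⟩
      · push Not at hE
        obtain ⟨N, hN⟩ := hNCM S S' hS hS' hE
        refine ⟨Encodable.encode N, ?_⟩
        have h5 : t₂ (S, S') (Encodable.encode N) = true := by
          change decide (nbad (S, S') (Denumerable.ofNat NCert (Encodable.encode N)) = 0) = true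
          rw [Denumerable.ofNat_encode, hN]
          rfl
        rw [h5, Bool.or_true]
    obtain ⟨k, hk⟩ := h2
    obtain ⟨m, hm, _⟩ := Nat.rfind_min' (p := fun k => t₁ (S, S') k || t₂ (S, S') k) hk
    exact Part.dom_iff_mem.2 ⟨_, (Part.mem_map_iff _).2 ⟨m, hm, rfl⟩⟩

end Pool.RS
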