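import Pool.Agent.Work.MP_4cd38d_rs.Interface

set_option autoImplicit false

/-! # MP_4cd38d, real type: block FPW (a common power of the eigenvalues) -/

namespace Pool.RS

open Pool.Agent.Work.MP_4cd38d_lc
open Polynomial

theorem FPW_finite {ι : Type} [Fintype ι] (A : ι → ι → ℂ) : {μ : ℂ | Eig A μ}.Finite := by
  classical
  refine (Module.End.finite_hasEigenvalue (Matrix.toLin' (Matrix.of A))).subset ?_
  rintro μ ⟨v, ⟨a, ha⟩, hv⟩
  refine Module.End.hasEigenvalue_of_hasEigenvector (x := v) ⟨?_, ?_⟩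
  · rw [Module.End.mem_eigenspace_iff, Matrix.toLin'_apply]
    funext b
    exact hv b
  · intro h
    apply ha
    rw [h]
    rfl

theorem FPW_pow {μ : ℂ} (h : Ps μ) (n : ℕ) : Ps (μ ^ n) := by
  obtain ⟨t, ht, rfl⟩ := h
  exact ⟨t ^ n, pow_pos ht n, by push_cast; rfl⟩

theorem p_FPW : Stmt_FPW := by
  intro ι _ A h
  classical
  have hf := FPW_finite A
  have hj : ∀ μ : ℂ, ∃ j : ℕ, 0 < j ∧ (Eig A μ → Ps (μ ^ j)) := by
    intro μ
    by_cases hμ : Eig A μ
    · obtain ⟨j, hj, hj2⟩ := h μ hμ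
      exact ⟨j, hj, fun _ => hj2⟩
    · exact ⟨1, one_pos, fun h => absurd h hμ⟩
  choose j hj0 hj using hj
  refine ⟨∏ μ ∈ hf.toFinset, j μ, Finset.prod_pos fun μ _ => hj0 μ, ?_⟩
  intro μ hμ
  have hmem : μ ∈ hf.toFinset := by
    rw [Set.Finite.mem_toFinset]
    exact hμ
  obtain ⟨q, hq⟩ := Finset.dvd_prod_of_mem j hmem
  rw [hq, pow_mul]
  exact FPW_pow (hj μ hμ) q

end Pool.RS
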