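import Pool.Agent.Work.MP_4cd38d_rs.Interface

set_option autoImplicit false

namespace Pool.RS

open Pool.Agent.Work.MP_4cd38d_lc
open Polynomial

section
variable {Γ : Type} [DecidableEq Γ]

theorem KA1_mo_nil (g : Γ → List Γ) : mo g [] = [] := rfl

theorem KA1_mo_cons (g : Γ → List Γ) (a : Γ) (w : List Γ) : mo g (a :: w) = g a ++ mo g w := rfl

theorem KA1_mo_single (g : Γ → List Γ) (a : Γ) : mo g [a] = g a := by
  rw [KA1_mo_cons, KA1_mo_nil, List.append_nil]

theorem KA1_mo_append (g : Γ → List Γ) (u v : List Γ) : mo g (u ++ v) = mo g u ++ mo g v := by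
  unfold mo; exact List.flatMap_append

theorem KA1_it_nil (g : Γ → List Γ) (i : ℕ) : (mo g)^[i] [] = [] := by
  induction i with
  | zero => rfl
  | succ i ih => rw [Function.iterate_succ_apply', ih, KA1_mo_nil]

theorem KA1_it_append (g : Γ → List Γ) (i : ℕ) (u v : List Γ) :
    (mo g)^[i] (u ++ v) = (mo g)^[i] u ++ (mo g)^[i] v := by
  induction i with
  | zero => rfl
  | succ i ih => simp only [Function.iterate_succ_apply', ih, KA1_mo_append]

/-- agreement of `mo` on words -/
theorem KA1_mo_congr (κ κ' : Γ → List Γ) (w : List Γ) (h : ∀ b ∈ w, κ b = κ' b) :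
    mo κ w = mo κ' w := by
  induction w with
  | nil => rfl
  | cons a w ih =>
    rw [KA1_mo_cons, KA1_mo_cons, h a List.mem_cons_self,
      ih (fun b hb => h b (List.mem_cons_of_mem _ hb))]

theorem KA1_word (g κ : Γ → List Γ) (q : Γ → Prop) (i : ℕ) (w : List Γ)
    (h : ∀ b ∈ w, ∃ v, (∀ x ∈ v, q x) ∧ (mo g)^[i] [b] = mo κ v) :
    ∃ v, (∀ x ∈ v, q x) ∧ (mo g)^[i] w = mo κ v := by
  induction w with
  | nil => exact ⟨[], by simp, by rw [KA1_it_nil, KA1_mo_nil]⟩
  | cons a w ih =>
    obtain ⟨v, hv, hv'⟩ := h a List.mem_cons_self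
    obtain ⟨u, hu, hu'⟩ := ih (fun b hb => h b (List.mem_cons_of_mem _ hb))
    refine ⟨v ++ u, ?_, ?_⟩
    · intro x hx
      rcases List.mem_append.mp hx with hx | hx
      · exact hv x hx
      · exact hu x hx
    · have h1 : a :: w = [a] ++ w := rfl
      rw [h1, KA1_it_append, hv', hu', KA1_mo_append]

theorem KA1_word' (g κ : Γ → List Γ) (q : Γ → Prop) (i : ℕ) (f : Γ → List Γ) (w : List Γ)
    (h : ∀ b ∈ w, (mo g)^[i] [b] = mo κ (f b)) :
    (mo g)^[i] w = mo κ (mo f w) := by
  induction w with
  | nil => rw [KA1_it_nil]; rfl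
  | cons a w ih =>
    have h1 : a :: w = [a] ++ w := rfl
    rw [h1, KA1_it_append, h a List.mem_cons_self,
      ih (fun b hb => h b (List.mem_cons_of_mem _ hb)), KA1_mo_append, KA1_mo_append,
      KA1_mo_single]

/-- the level `r` is good -/
def KA1_good (g : Γ → List Γ) (rk : Γ → ℕ) (r : ℕ) : Prop :=
  ∀ a, rk a = r → ∀ b ∈ g a, rk b < r

/-- the induction statement -/
def KA1_P (g : Γ → List Γ) (rk : Γ → ℕ) (R : ℕ) (g' κ : Γ → List Γ) (j : ℕ) : Prop :=
  (∀ c, rk c < R → mo g (κ c) = mo κ (g' c)) ∧
  (∀ c, rk c < R → KA1_good g rk (rk c) → κ c = [] ∧ g' c = [c]) ∧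
  (∀ c, rk c < R → ¬ KA1_good g rk (rk c) →
    (∀ b ∈ g' c, rk b ≤ rk c ∧ ¬ KA1_good g rk (rk b)) ∧
      ∀ b, rk b = rk c → (g' c).count b = (g c).count b) ∧
  (∀ a, rk a < R → ∀ i, j ≤ i →
    ∃ v, (∀ b ∈ v, rk b < R ∧ ¬ KA1_good g rk (rk b)) ∧ (mo g)^[i] [a] = mo κ v)

theorem KA1_count (f : Γ → List Γ) (b : Γ) (w : List Γ)
    (h : ∀ x ∈ w, (f x).count b = [x].count b) : (mo f w).count b = w.count b := by
  induction w with
  | nil => rfl
  | cons a w ih =>
    rw [KA1_mo_cons, List.count_append, h a List.mem_cons_self,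
      ih (fun x hx => h x (List.mem_cons_of_mem _ hx))]
    have h1 : a :: w = [a] ++ w := rfl
    rw [h1, List.count_append]

/-- all letters of the words `mo f w` -/
theorem KA1_mem (f : Γ → List Γ) (b : Γ) (w : List Γ) (h : b ∈ mo f w) : ∃ x ∈ w, b ∈ f x := by
  unfold mo at h
  exact List.mem_flatMap.mp h

theorem KA1_it (g g' κ : Γ → List Γ) (q : Γ → Prop)
    (h1 : ∀ c, q c → mo g (κ c) = mo κ (g' c)) (h2 : ∀ c, q c → ∀ b ∈ g' c, q b) (n : ℕ)
    (w : List Γ) (hw : ∀ b ∈ w, q b) :
    (∀ b ∈ (mo g')^[n] w, q b) ∧ (mo g)^[n] (mo κ w) = mo κ ((mo g')^[n] w) := by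
  induction n with
  | zero => exact ⟨hw, rfl⟩
  | succ n ih =>
    obtain ⟨i1, i2⟩ := ih
    rw [Function.iterate_succ_apply', Function.iterate_succ_apply', i2]
    refine ⟨?_, ?_⟩
    · intro b hb
      obtain ⟨x, hx, hbx⟩ := KA1_mem _ _ _ hb
      exact h2 x (i1 x hx) b hbx
    · generalize (mo g')^[n] w = u at i1 ⊢
      clear i2 hw
      induction u with
      | nil => rfl
      | cons a u ih =>
        rw [KA1_mo_cons, KA1_mo_append, KA1_mo_cons, KA1_mo_append,
          ih (fun b hb => i1 b (List.mem_cons_of_mem _ hb)), h1 a (i1 a List.mem_cons_self)]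

theorem KA1_step (g : Γ → List Γ) (rk : Γ → ℕ) (hrk : ∀ a, ∀ b ∈ g a, rk b ≤ rk a) (R : ℕ)
    (g₁ κ₁ : Γ → List Γ) (j : ℕ) (h : KA1_P g rk R g₁ κ₁ j) :
    ∃ g' κ j', KA1_P g rk (R + 1) g' κ j' := by
  classical
  obtain ⟨P1, P2, P3, P4⟩ := h
  -- letters of `g₁ c` have level at most the level of `c`
  have hle : ∀ c, rk c < R → ∀ b ∈ g₁ c, rk b ≤ rk c := by
    intro c hc b hb
    by_cases hg : KA1_good g rk (rk c)
    · rw [(P2 c hc hg).2, List.mem_singleton] at hb
      rw [hb]
    · exact ((P3 c hc hg).1 b hb).1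
  by_cases hR : KA1_good g rk R
  · -- good level
    refine ⟨fun c => if rk c < R then g₁ c else [c], fun c => if rk c < R then κ₁ c else [],
      j + 1, ?_, ?_, ?_, ?_⟩
    · intro c hc
      by_cases h' : rk c < R
      · simp only [if_pos h']
        rw [P1 c h']
        apply KA1_mo_congr
        intro b hb
        rw [if_pos (lt_of_le_of_lt (hle c h' b hb) h')]
      · simp only [if_neg h']
        rw [KA1_mo_nil, KA1_mo_single, if_neg h']
    · intro c hc hg
      by_cases h' : rk c < R
      · simp only [if_pos h']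
        exact P2 c h' hg
      · simp only [if_neg h', and_self]
    · intro c hc hg
      by_cases h' : rk c < R
      · simp only [if_pos h']
        exact P3 c h' hg
      · exfalso
        have : rk c = R := by omega
        rw [this] at hg
        exact hg hR
    · intro a ha i hi
      have key : ∀ b, rk b < R → ∀ i, j ≤ i →
          ∃ v, (∀ x ∈ v, rk x < R + 1 ∧ ¬ KA1_good g rk (rk x)) ∧
            (mo g)^[i] [b] = mo (fun c => if rk c < R then κ₁ c else []) v := by
        intro b hb i hi
        obtain ⟨v, hv, hv'⟩ := P4 b hb i hi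
        refine ⟨v, fun x hx => ⟨by have := (hv x hx).1; omega, (hv x hx).2⟩, ?_⟩
        rw [hv']
        apply KA1_mo_congr
        intro x hx
        rw [if_pos (hv x hx).1]
      by_cases h' : rk a < R
      · exact key a h' i (by omega)
      · have haR : rk a = R := by omega
        obtain ⟨i', rfl⟩ : ∃ i', i = i' + 1 := ⟨i - 1, by omega⟩
        rw [Function.iterate_succ_apply, KA1_mo_single]
        apply KA1_word
        intro b hb
        exact key b (hR a haR b hb) i' (by omega)
  · -- bad level
    have hv : ∀ b, ∃ v, rk b < R →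
        (∀ x ∈ v, rk x < R ∧ ¬ KA1_good g rk (rk x)) ∧ (mo g)^[j] [b] = mo κ₁ v := by
      intro b
      by_cases hb : rk b < R
      · obtain ⟨v, hv⟩ := P4 b hb j le_rfl
        exact ⟨v, fun _ => hv⟩
      · exact ⟨[], fun h => absurd h hb⟩
    choose V hV using hv
    let f : Γ → List Γ := fun b => if rk b < R then V b else [b]
    let κ : Γ → List Γ := fun c => if rk c < R then κ₁ c else (mo g)^[j] [c]
    let g' : Γ → List Γ := fun c => if rk c < R then g₁ c else mo f (g c)
    have hκ : ∀ w : List Γ, (∀ b ∈ w, rk b < R) → mo κ₁ w = mo κ w := by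
      intro w hw
      apply KA1_mo_congr
      intro b hb
      simp only [κ]
      rw [if_pos (hw b hb)]
    have hQ1 : ∀ c, rk c < R + 1 → mo g (κ c) = mo κ (g' c) := by
      intro c hc
      by_cases h' : rk c < R
      · simp only [κ, g', if_pos h']
        rw [P1 c h']
        exact hκ _ (fun b hb => lt_of_le_of_lt (hle c h' b hb) h')
      · have h1 : κ c = (mo g)^[j] [c] := by simp only [κ, if_neg h']
        have h2 : g' c = mo f (g c) := by simp only [g', if_neg h']
        rw [h1, h2, ← Function.iterate_succ_apply' (mo g), Function.iterate_succ_apply,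
          KA1_mo_single]
        apply KA1_word' g κ (fun _ => True) j f (g c)
        intro b hb
        by_cases hb' : rk b < R
        · simp only [f, if_pos hb']
          rw [(hV b hb').2]
          exact hκ _ (fun x hx => ((hV b hb').1 x hx).1)
        · simp only [f, if_neg hb']
          rw [KA1_mo_single]
          simp only [κ, if_neg hb']
    have hQ3 : ∀ c, rk c < R + 1 → ¬ KA1_good g rk (rk c) →
        (∀ b ∈ g' c, rk b ≤ rk c ∧ ¬ KA1_good g rk (rk b)) ∧
          ∀ b, rk b = rk c → (g' c).count b = (g c).count b := by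
      intro c hc hg
      by_cases h' : rk c < R
      · simp only [g', if_pos h']
        exact P3 c h' hg
      · have hcR : rk c = R := by omega
        simp only [g', if_neg h']
        refine ⟨?_, ?_⟩
        · intro b hb
          obtain ⟨x, hx, hbx⟩ := KA1_mem _ _ _ hb
          by_cases hx' : rk x < R
          · simp only [f, if_pos hx'] at hbx
            have := (hV x hx').1 b hbx
            exact ⟨by omega, this.2⟩
          · simp only [f, if_neg hx', List.mem_singleton] at hbx
            subst hbx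
            have := hrk c b hx
            have hbR : rk b = R := by omega
            exact ⟨this, by rw [hbR]; exact hR⟩
        · intro b hb
          apply KA1_count
          intro x hx
          by_cases hx' : rk x < R
          · simp only [f, if_pos hx']
            rw [List.count_eq_zero_of_not_mem, List.count_eq_zero_of_not_mem]
            · intro h; rw [List.mem_singleton] at h; subst h; omega
            · intro h
              have := ((hV x hx').1 b h).1
              omega
          · simp only [f, if_neg hx']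
    refine ⟨g', κ, j, hQ1, ?_, hQ3, ?_⟩
    · intro c hc hg
      by_cases h' : rk c < R
      · simp only [κ, g', if_pos h']
        exact P2 c h' hg
      · exfalso
        have : rk c = R := by omega
        rw [this] at hg
        exact hR hg
    · intro a ha i hi
      by_cases h' : rk a < R
      · obtain ⟨v, hv, hv'⟩ := P4 a h' i hi
        refine ⟨v, fun x hx => ⟨by have := (hv x hx).1; omega, (hv x hx).2⟩, ?_⟩
        rw [hv']
        exact hκ _ (fun x hx => (hv x hx).1)
      · have haR : rk a = R := by omega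
        have hq := KA1_it g g' κ (fun c => rk c < R + 1 ∧ ¬ KA1_good g rk (rk c))
          (fun c hc => hQ1 c hc.1) (fun c hc b hb => by
            have := (hQ3 c hc.1 hc.2).1 b hb
            exact ⟨by have := this.1; have := hc.1; omega, this.2⟩) (i - j) [a] (by
            intro b hb
            rw [List.mem_singleton] at hb
            subst hb
            exact ⟨ha, by rw [haR]; exact hR⟩)
        refine ⟨(mo g')^[i - j] [a], hq.1, ?_⟩
        rw [← hq.2, KA1_mo_single]
        have h1 : κ a = (mo g)^[j] [a] := by simp only [κ, if_neg h']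
        rw [h1, ← Function.iterate_add_apply]
        congr 1
        congr 1
        omega

theorem KA1_all (g : Γ → List Γ) (rk : Γ → ℕ) (hrk : ∀ a, ∀ b ∈ g a, rk b ≤ rk a) (R : ℕ) :
    ∃ g' κ j, KA1_P g rk R g' κ j := by
  induction R with
  | zero =>
    refine ⟨fun _ => [], fun _ => [], 0, ?_, ?_, ?_, ?_⟩ <;> intro c hc <;>
      exact absurd hc (Nat.not_lt_zero _)
  | succ R ih =>
    obtain ⟨g₁, κ₁, j, h⟩ := ih
    exact KA1_step g rk hrk R g₁ κ₁ j h

end

theorem p_KA1 : Stmt_KA1 := by
  classical
  intro Γ _ _ g rk hrk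
  obtain ⟨g', κ, j, P1, P2, P3, P4⟩ := KA1_all g rk hrk (Finset.univ.sup rk + 1)
  have hlt : ∀ c, rk c < Finset.univ.sup rk + 1 := fun c =>
    Nat.lt_succ_of_le (Finset.le_sup (f := rk) (Finset.mem_univ c))
  refine ⟨g', κ, j, fun c => P1 c (hlt c), fun a => ?_, fun c hc => (P2 c (hlt c) hc).2,
    fun c hc => ?_⟩
  · obtain ⟨v, _, hv⟩ := P4 a (hlt a) j le_rfl
    exact ⟨v, hv⟩
  · have := P3 c (hlt c) hc
    exact ⟨fun b hb => (this.1 b hb).1, this.2⟩

end Pool.RS
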