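import Pool.Agent.Work.MP_4cd38d_rs.Interface

set_option autoImplicit false

/-! # MP_4cd38d, THEOREM RS, block KAP: removal of the nilpotent levels, eigenvalues -/

namespace Pool.RS

open Pool.Agent.Work.MP_4cd38d_lc
open Polynomial

theorem p_KAP (hKA1 : Stmt_KA1) : Stmt_KAP := by
  classical
  intro Γ _ _ g rk hRT
  obtain ⟨g', κ, n₀, h1, h2, h3, h4⟩ := hKA1 Γ g rk hRT.1
  refine ⟨g', κ, n₀, h1, h2, ?_⟩
  rintro μ ⟨v, ⟨a0, ha0⟩, hv⟩
  have hex : ∃ r, ∃ a, rk a = r ∧ v a ≠ 0 := ⟨rk a0, a0, rfl, ha0⟩
  obtain ⟨a, ha, hva⟩ := Nat.find_spec hex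
  have hmin : ∀ b, rk b < Nat.find hex → v b = 0 := by
    intro b hb
    by_contra hne
    exact Nat.find_min hex hb ⟨b, rfl, hne⟩
  revert ha hmin
  generalize Nat.find hex = r
  intro ha hmin
  by_cases hgood : ∀ a, rk a = r → ∀ b ∈ g a, rk b < r
  · have e1 : g' a = [a] := h3 a (by rw [ha]; exact hgood)
    have e2 := hv a
    have e3 : ∑ b, inc g' a b * v b = v a := by
      rw [Finset.sum_eq_single a]
      · unfold inc
        rw [e1, List.count_singleton_self, Nat.cast_one, one_mul]
      · intro b _ hb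
        unfold inc
        rw [e1, List.count_singleton, if_neg (by
          intro h
          exact hb (beq_iff_eq.1 h).symm), Nat.cast_zero, zero_mul]
      · intro h
        exact absurd (Finset.mem_univ a) h
    rw [e3] at e2
    have e4 : μ = 1 := by
      have : (μ - 1) * v a = 0 := by
        rw [sub_mul, one_mul, ← e2, sub_self]
      rcases mul_eq_zero.1 this with h | h
      · exact sub_eq_zero.1 h
      · exact absurd h hva
    exact ⟨1, one_pos, 1, one_pos, by rw [e4]; simp⟩
  · rcases hRT.2 r with h | h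
    · exact absurd h hgood
    · apply h
      refine ⟨v, ⟨a, ha, hva⟩, ?_⟩
      intro c hc
      rw [← hv c]
      apply Finset.sum_congr rfl
      intro b _
      obtain ⟨k1, k2⟩ := h4 c (by rw [hc]; exact hgood)
      unfold inc
      rcases lt_trichotomy (rk b) r with hb | hb | hb
      · rw [if_neg hb.ne, hmin b hb, mul_zero]
      · rw [if_pos hb, k2 b (by rw [hb, hc])]
      · rw [if_neg hb.ne']
        have hnm : b ∉ g' c := by
          intro hm
          have := k1 b hm
          omega
        rw [List.count_eq_zero_of_not_mem hnm, Nat.cast_zero, zero_mul]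

end Pool.RS
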