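import Pool.Agent.Work.MP_4cd38d_rs.Interface

set_option autoImplicit false

namespace Pool.RS

open Pool.Agent.Work.MP_4cd38d_lc
open Polynomial

section

variable {Γ Δ : Type} [Fintype Γ] [Fintype Δ]

/-- the operator `N ⊗ 1` -/
def KEV_A (N : Γ → Γ → ℂ) : (Γ → Δ → ℂ) →ₗ[ℂ] (Γ → Δ → ℂ) where
  toFun v := fun c z => ∑ c', N c c' * v c' z
  map_add' v w := by
    funext c z
    simp [mul_add, Finset.sum_add_distrib]
  map_smul' r v := by
    funext c z
    simp only [Pi.smul_apply, smul_eq_mul, RingHom.id_apply, Finset.mul_sum]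
    exact Finset.sum_congr rfl (fun c' _ => by ring)

/-- the operator `1 ⊗ K` -/
def KEV_B (K : Δ → Δ → ℂ) : (Γ → Δ → ℂ) →ₗ[ℂ] (Γ → Δ → ℂ) where
  toFun v := fun c z => ∑ z', K z z' * v c z'
  map_add' v w := by
    funext c z
    simp [mul_add, Finset.sum_add_distrib]
  map_smul' r v := by
    funext c z
    simp only [Pi.smul_apply, smul_eq_mul, RingHom.id_apply, Finset.mul_sum]
    exact Finset.sum_congr rfl (fun c' _ => by ring)

theorem KEV_comm (N : Γ → Γ → ℂ) (K : Δ → Δ → ℂ) (v : Γ → Δ → ℂ) :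
    KEV_A N (KEV_B K v) = KEV_B K (KEV_A N v) := by
  funext c z
  change ∑ c', N c c' * ∑ z', K z z' * v c' z' = ∑ z', K z z' * ∑ c', N c c' * v c' z'
  simp only [Finset.mul_sum]
  rw [Finset.sum_comm]
  exact Finset.sum_congr rfl (fun _ _ => Finset.sum_congr rfl (fun _ _ => by ring))

theorem KEV_two (N : Γ → Γ → ℂ) (K : Δ → Δ → ℂ) (hN : ∀ μ, Eig N μ → Ps μ)
    (hK : ∀ μ, Eig K μ → Ps μ) (μ : ℂ) (v : Γ → Δ → ℂ) (hv : v ≠ 0)
    (h : KEV_A N (KEV_B K v) = μ • v) : Ps μ := by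
  classical
  -- the eigenspace of `N ⊗ K`
  let B : Module.End ℂ (Γ → Δ → ℂ) := (KEV_A N) ∘ₗ (KEV_B K)
  let W : Submodule ℂ (Γ → Δ → ℂ) := Module.End.eigenspace B μ
  have hW : ∀ w, w ∈ W ↔ KEV_A N (KEV_B K w) = μ • w := fun w =>
    Module.End.mem_eigenspace_iff
  have hmap : ∀ w ∈ W, KEV_A (Δ := Δ) N w ∈ W := by
    intro w hw
    rw [hW] at hw ⊢
    rw [← KEV_comm, hw, map_smul]
  let A' : Module.End ℂ W := (KEV_A (Δ := Δ) N).restrict hmap
  have hnt : Nontrivial W := by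
    refine ⟨⟨⟨v, (hW v).2 h⟩, 0, ?_⟩⟩
    intro h0
    exact hv (congrArg Subtype.val h0)
  obtain ⟨τ, hτ⟩ := Module.End.exists_eigenvalue A'
  obtain ⟨w, hw⟩ := hτ.exists_hasEigenvector
  have hw0 : (w : Γ → Δ → ℂ) ≠ 0 := by
    intro h0
    exact hw.2 (Subtype.ext h0)
  have hwA : KEV_A N (w : Γ → Δ → ℂ) = τ • (w : Γ → Δ → ℂ) :=
    congrArg Subtype.val hw.apply_eq_smul
  have hwB : KEV_A N (KEV_B K (w : Γ → Δ → ℂ)) = μ • (w : Γ → Δ → ℂ) := (hW _).1 w.2
  obtain ⟨c₀, z₀, hcz⟩ : ∃ c z, (w : Γ → Δ → ℂ) c z ≠ 0 := by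
    by_contra hcon
    push Not at hcon
    exact hw0 (funext fun c => funext fun z => hcon c z)
  have hτP : Ps τ := by
    apply hN
    refine ⟨fun c => (w : Γ → Δ → ℂ) c z₀, ⟨c₀, hcz⟩, fun c => ?_⟩
    exact congrFun (congrFun hwA c) z₀
  obtain ⟨t, ht, hte⟩ := hτP
  have hτ0 : τ ≠ 0 := by
    rw [hte]
    exact_mod_cast ht.ne'
  have hwB2 : τ • KEV_B K (w : Γ → Δ → ℂ) = μ • (w : Γ → Δ → ℂ) := by
    rw [← hwB, KEV_comm, hwA, map_smul]
  have hσ : Ps (μ / τ) := by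
    apply hK
    refine ⟨fun z => (w : Γ → Δ → ℂ) c₀ z, ⟨z₀, hcz⟩, fun z => ?_⟩
    have h1 : τ * ∑ z', K z z' * (w : Γ → Δ → ℂ) c₀ z' = μ * (w : Γ → Δ → ℂ) c₀ z :=
      congrFun (congrFun hwB2 c₀) z
    rw [div_mul_eq_mul_div, eq_div_iff hτ0, ← h1]
    ring
  obtain ⟨t', ht', hte'⟩ := hσ
  refine ⟨t' * t, mul_pos ht' ht, ?_⟩
  rw [div_eq_iff hτ0] at hte'
  rw [hte', hte]
  push_cast
  ring

end

theorem p_KEV : Stmt_KEV := by
  intro Γ _ N hN m
  induction m with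
  | zero =>
    rintro μ ⟨v, ⟨a, ha⟩, h⟩
    have h1 := h a
    have h2 : ∀ b : Fin 0 → Γ, b = a := fun b => Subsingleton.elim _ _
    have h3 : ∑ b : Fin 0 → Γ, (∏ i, N (a i) (b i)) * v b = v a := by
      rw [Finset.sum_eq_single a (fun b _ hb => absurd (h2 b) hb)
        (fun hb => absurd (Finset.mem_univ _) hb)]
      simp
    rw [h3] at h1
    refine ⟨1, one_pos, ?_⟩
    have h4 : (1 - μ) * v a = 0 := by rw [sub_mul, one_mul, ← h1, sub_self]
    rcases mul_eq_zero.1 h4 with h5 | h5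
    · push_cast
      exact (sub_eq_zero.1 h5).symm
    · exact absurd h5 ha
  | succ m ih =>
    rintro μ ⟨v, ⟨a, ha⟩, h⟩
    refine KEV_two N (fun z z' : Fin m → Γ => ∏ i, N (z i) (z' i)) hN ih μ
      (fun c z => v (Fin.cons c z)) ?_ ?_
    · intro h0
      apply ha
      have h1 := congrFun (congrFun h0 (a 0)) (Fin.tail a)
      have h2 : (Fin.cons (a 0) (Fin.tail a) : Fin (m + 1) → Γ) = a := Fin.cons_self_tail a
      simp only [h2] at h1
      exact h1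
    · funext c z
      have h1 := h (Fin.cons c z)
      have h2 : ∑ b : Fin (m + 1) → Γ, (∏ i, N ((Fin.cons c z : Fin (m + 1) → Γ) i) (b i)) * v b =
          ∑ c', N c c' * ∑ z' : Fin m → Γ, (∏ i, N (z i) (z' i)) * v (Fin.cons c' z') := by
        have h3 := (Fin.consEquiv (fun _ : Fin (m + 1) => Γ)).sum_comp
          (fun b : Fin (m + 1) → Γ =>
            (∏ i, N ((Fin.cons c z : Fin (m + 1) → Γ) i) (b i)) * v b)
        rw [← h3, Fintype.sum_prod_type]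
        apply Finset.sum_congr rfl
        intro c' _
        rw [Finset.mul_sum]
        apply Finset.sum_congr rfl
        intro z' _
        have h4 : (Fin.consEquiv (fun _ : Fin (m + 1) => Γ)) (c', z') =
            (Fin.cons c' z' : Fin (m + 1) → Γ) := rfl
        rw [h4, Fin.prod_univ_succ]
        simp only [Fin.cons_zero, Fin.cons_succ]
        ring
      rw [h2] at h1
      exact h1

end Pool.RS
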