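import Pool.Agent.Work.MP_4cd38d_rs.Interface

set_option autoImplicit false

namespace Pool.RS

open Pool.Agent.Work.MP_4cd38d_lc
open Polynomial

theorem MIN_shf_pow (k : ℕ) (y : ℕ → ℝ) (n : ℕ) : ((shf ^ k) y) n = y (n + k) := by
  induction k generalizing y n with
  | zero => simp
  | succ k ih =>
    rw [pow_succ, Module.End.mul_apply, ih]
    rfl

theorem MIN_pE (p : ℝ[X]) (y : ℕ → ℝ) (n N : ℕ) (hN : p.natDegree < N) :
    pE p y n = ∑ i ∈ Finset.range N, p.coeff i * y (n + i) := by
  unfold pE
  rw [Polynomial.aeval_eq_sum_range' hN]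
  simp only [LinearMap.sum_apply, Finset.sum_apply, LinearMap.smul_apply, Pi.smul_apply,
    smul_eq_mul, MIN_shf_pow]

theorem MIN_mul (p q : ℝ[X]) (y : ℕ → ℝ) : pE (p * q) y = pE p (pE q y) := by
  unfold pE
  rw [map_mul, Module.End.mul_apply]

theorem MIN_add (p q : ℝ[X]) (y : ℕ → ℝ) : pE (p + q) y = pE p y + pE q y := by
  unfold pE
  rw [map_add, LinearMap.add_apply]

theorem MIN_zero (p : ℝ[X]) : pE p 0 = 0 := by
  unfold pE
  rw [map_zero]

theorem MIN_rlmul (p q : ℚ[X]) : rl (p * q) = rl p * rl q := by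
  unfold rl; rw [Polynomial.map_mul]

theorem MIN_coeff (p : ℚ[X]) (i : ℕ) : (rl p).coeff i = ((p.coeff i : ℚ) : ℝ) := by
  unfold rl; rw [Polynomial.coeff_map]; rfl

theorem MIN_deg (p : ℚ[X]) : (rl p).natDegree = p.natDegree := by
  unfold rl; exact Polynomial.natDegree_map _

theorem MIN_monic (p : ℚ[X]) (h : p.Monic) : (rl p).Monic := by
  unfold rl; exact h.map _

theorem p_MIN : Stmt_MIN := by
  classical
  intro s d q hrec
  set S : ℕ → ℝ := fun n => (s n : ℝ) with hS
  have hex : ∃ k : ℕ, ∃ m : ℚ[X], m.Monic ∧ m.natDegree = k ∧ pE (rl m) S = 0 := by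
    let g : ℚ[X] := ∑ i ∈ Finset.range d, C (-(q i : ℚ)) * X ^ i
    have hg : g.degree < (d : WithBot ℕ) := by
      refine lt_of_le_of_lt (Polynomial.degree_sum_le _ _) ?_
      refine (Finset.sup_lt_iff (WithBot.bot_lt_coe d)).mpr ?_
      intro i hi
      refine lt_of_le_of_lt (Polynomial.degree_C_mul_X_pow_le _ _) ?_
      exact WithBot.coe_lt_coe.mpr (Finset.mem_range.mp hi)
    have hmon : (X ^ d + g : ℚ[X]).Monic := Polynomial.monic_X_pow_add hg
    refine ⟨_, X ^ d + g, hmon, rfl, ?_⟩
    have hdeg : (X ^ d + g : ℚ[X]).natDegree = d := by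
      apply Polynomial.natDegree_eq_of_degree_eq_some
      rw [Polynomial.degree_add_eq_left_of_degree_lt]
      · exact Polynomial.degree_X_pow d
      · rw [Polynomial.degree_X_pow]; exact hg
    funext n
    rw [MIN_pE (rl (X ^ d + g)) S n (d + 1) (by rw [MIN_deg, hdeg]; omega)]
    have hgc : ∀ i < d, g.coeff i = -(q i : ℚ) := by
      intro i hi
      simp only [g, Polynomial.finsetSum_coeff, Polynomial.coeff_C_mul, Polynomial.coeff_X_pow]
      rw [Finset.sum_eq_single i]
      · simp
      · intro j _ hj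
        rw [if_neg (Ne.symm hj), mul_zero]
      · intro h; exact absurd (Finset.mem_range.mpr hi) h
    rw [Finset.sum_range_succ]
    have h1 : (rl (X ^ d + g)).coeff d = 1 := by
      have := (MIN_monic _ hmon).coeff_natDegree
      rwa [MIN_deg, hdeg] at this
    rw [h1]
    have h2 : ∑ x ∈ Finset.range d, (rl (X ^ d + g)).coeff x * S (n + x) =
        - ∑ x ∈ Finset.range d, (q x : ℝ) * (s (n + x) : ℝ) := by
      rw [← Finset.sum_neg_distrib]
      apply Finset.sum_congr rfl
      intro i hi
      have hi' := Finset.mem_range.mp hi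
      rw [MIN_coeff, Polynomial.coeff_add, hgc i hi', Polynomial.coeff_X_pow, if_neg (by omega)]
      simp [hS]
    rw [h2]
    have h3 := hrec n
    have h4 : (s (n + d) : ℝ) = ∑ i ∈ Finset.range d, (q i : ℝ) * (s (n + i) : ℝ) := by
      rw [h3]; push_cast; rfl
    simp only [hS, Pi.zero_apply]
    rw [h4]; ring
  obtain ⟨m, hm, hmd, hmz⟩ := Nat.find_spec hex
  have hmin : ∀ c : ℚ[X], c ≠ 0 → pE (rl c) S = 0 → m.natDegree ≤ c.natDegree := by
    intro c hc hcz
    rw [hmd]
    have hu : c.leadingCoeff ≠ 0 := Polynomial.leadingCoeff_ne_zero.mpr hc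
    refine Nat.find_min' hex ⟨C (c.leadingCoeff⁻¹) * c, ?_, ?_, ?_⟩
    · rw [Polynomial.Monic, Polynomial.leadingCoeff_mul, Polynomial.leadingCoeff_C,
        inv_mul_cancel₀ hu]
    · rw [Polynomial.natDegree_C_mul (inv_ne_zero hu)]
    · rw [MIN_rlmul, MIN_mul, hcz, MIN_zero]
  refine ⟨m, hm, fun p => ⟨fun hp => ?_, fun hp => ?_⟩⟩
  · -- the division
    have hM : (rl m).Monic := MIN_monic m hm
    have hdiv := Polynomial.modByMonic_add_div p (rl m)
    set r := p %ₘ rl m with hr
    have hrz : pE r S = 0 := by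
      have h1 : pE p S = pE r S + pE (p /ₘ rl m) (pE (rl m) S) := by
        rw [← MIN_mul, ← MIN_add]
        congr 2
        rw [mul_comm (p /ₘ rl m)]
        exact hdiv.symm
      rw [hmz, MIN_zero, add_zero] at h1
      rw [← h1]; exact hp
    rw [← Polynomial.modByMonic_eq_zero_iff_dvd hM]
    by_contra hr0
    change r ≠ 0 at hr0
    have hrd : r.natDegree < m.natDegree := by
      have h1 := Polynomial.degree_modByMonic_lt p hM
      rw [← hr] at h1
      rw [← MIN_deg m]
      exact Polynomial.natDegree_lt_natDegree hr0 h1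
    set d₀ := m.natDegree with hd₀
    let H : Matrix (Fin d₀) (Fin d₀) ℚ := fun j i => (s (j + i) : ℚ)
    let v : Fin d₀ → ℝ := fun i => r.coeff i
    have hv0 : v ≠ 0 := by
      intro h
      have h1 := congrFun h ⟨r.natDegree, hrd⟩
      simp only [v, Pi.zero_apply] at h1
      exact hr0 (Polynomial.leadingCoeff_eq_zero.mp h1)
    have hHv : (H.map (algebraMap ℚ ℝ)).mulVec v = 0 := by
      funext j
      have h1 := congrFun hrz (j : ℕ)
      rw [MIN_pE r S j d₀ hrd, ← Fin.sum_univ_eq_sum_range (fun i => r.coeff i * S (j + i)) d₀] at h1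
      simp only [Matrix.mulVec, dotProduct, Matrix.map_apply, Pi.zero_apply, H, v] at h1 ⊢
      rw [← h1]
      apply Finset.sum_congr rfl
      intro i _
      simp [hS, mul_comm]
    have hdet : H.det = 0 := by
      have h1 : (H.map (algebraMap ℚ ℝ)).det = 0 :=
        Matrix.exists_mulVec_eq_zero_iff.mp ⟨v, hv0, hHv⟩
      have h2 : (algebraMap ℚ ℝ) H.det = (H.map (algebraMap ℚ ℝ)).det := by
        rw [RingHom.map_det]; rfl
      rw [h1] at h2
      exact (map_eq_zero_iff _ (algebraMap ℚ ℝ).injective).mp h2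
    obtain ⟨w, hw0, hHw⟩ := Matrix.exists_mulVec_eq_zero_iff.mpr hdet
    let c : ℚ[X] := ∑ i : Fin d₀, C (w i) * X ^ (i : ℕ)
    have hcc : ∀ i : Fin d₀, c.coeff i = w i := by
      intro i
      simp only [c, Polynomial.finsetSum_coeff, Polynomial.coeff_C_mul, Polynomial.coeff_X_pow]
      rw [Finset.sum_eq_single i]
      · simp
      · intro j _ hj
        rw [if_neg (fun h => hj (Fin.ext h.symm)), mul_zero]
      · intro h; exact absurd (Finset.mem_univ _) h
    have hc0 : c ≠ 0 := by
      intro h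
      apply hw0
      funext i
      rw [← hcc i, h]; simp
    have hcd : c.natDegree < d₀ := by
      have h1 : c.degree < (d₀ : WithBot ℕ) := by
        refine lt_of_le_of_lt (Polynomial.degree_sum_le _ _) ?_
        refine (Finset.sup_lt_iff (WithBot.bot_lt_coe d₀)).mpr ?_
        intro i _
        refine lt_of_le_of_lt (Polynomial.degree_C_mul_X_pow_le _ _) ?_
        exact WithBot.coe_lt_coe.mpr i.isLt
      exact (Polynomial.natDegree_lt_iff_degree_lt hc0).mpr h1
    set z := pE (rl c) S with hz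
    have hz1 : ∀ j < d₀, z j = 0 := by
      intro j hj
      have h1 := congrFun hHw ⟨j, hj⟩
      simp only [Matrix.mulVec, dotProduct, Pi.zero_apply, H] at h1
      rw [hz, MIN_pE (rl c) S j d₀ (by rw [MIN_deg]; exact hcd),
        ← Fin.sum_univ_eq_sum_range (fun i => (rl c).coeff i * S (j + i)) d₀]
      have h2 : ((∑ x : Fin d₀, (s (j + x) : ℚ) * w x : ℚ) : ℝ) = 0 := by rw [h1]; simp
      rw [← h2]
      push_cast
      apply Finset.sum_congr rfl
      intro i _
      rw [MIN_coeff, hcc i, mul_comm]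
    have hz2 : pE (rl m) z = 0 := by
      rw [hz, ← MIN_mul, mul_comm, MIN_mul, hmz, MIN_zero]
    have hz0 : ∀ n, z n = 0 := by
      intro n
      induction n using Nat.strong_induction_on with
      | _ n ih =>
        by_cases hn : n < d₀
        · exact hz1 n hn
        · obtain ⟨k, rfl⟩ : ∃ k, n = k + d₀ := ⟨n - d₀, by omega⟩
          have h1 := congrFun hz2 k
          rw [MIN_pE (rl m) z k (d₀ + 1) (by rw [MIN_deg]; omega), Finset.sum_range_succ] at h1
          have h2 : (rl m).coeff d₀ = 1 := by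
            have := hM.coeff_natDegree
            rwa [MIN_deg] at this
          rw [h2, one_mul, Finset.sum_eq_zero] at h1
          · simpa using h1
          · intro i hi
            have hi' := Finset.mem_range.mp hi
            rw [ih (k + i) (by omega), mul_zero]
    have := hmin c hc0 (funext hz0)
    omega
  · obtain ⟨t, ht⟩ := hp
    rw [ht, mul_comm, MIN_mul]
    change pE t (pE (rl m) S) = 0
    rw [hmz, MIN_zero]

end Pool.RS
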