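import Pool.Agent.Work.MP_4cd38d_rs.Interface

set_option autoImplicit false

/-! # THEOREM RS, block NCM (helper54): negative certificates exist -/

namespace Pool.RS

open Pool.Agent.Work.MP_4cd38d_lc
open Polynomial

/-- shifting a certificate -/
theorem NCM_shift {s s' : ℕ → ℤ} {D T : ℕ} {B : ℕ → ℕ → ℕ} {n₁ : ℕ} {y : ℕ → ℕ → ℤ} (m₀ : ℕ)
    (h : Crt s D T B n₁ y) (hs : ∀ n, s n = s' (m₀ + n)) :
    Crt s' D T B (n₁ + m₀) (fun i n => y i (n - m₀)) := by
  refine ⟨h.D1, h.T1, ?_, ?_, ?_, ?_⟩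
  · intro n hn
    show y 0 (n - m₀) = s' n
    rw [h.y0 (n - m₀) (by omega), hs]
    congr 1
    omega
  · intro i hi n hn
    show (D : ℤ) * y i (n + 1 - m₀) = y (i + 1) (n - m₀) +
      ∑ j ∈ Finset.range (i + 1), (B i j : ℤ) * y j (n - m₀)
    have h1 : n + 1 - m₀ = (n - m₀) + 1 := by omega
    rw [h1]
    exact h.rc i hi (n - m₀) (by omega)
  · intro i hi n hn
    exact h.pos i hi (n - m₀) (by omega)
  · intro n hn
    exact h.yT (n - m₀) (by omega)

theorem p_NCM (hCRT : Stmt_CRT) (hNOI : Stmt_NOI) (hSUB : Stmt_SUB) (hCMP : Stmt_CMP)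
    (hTRS : Stmt_TRS) : Stmt_NCM := by
  intro S S' hS hS' hne
  obtain ⟨rk, hrk⟩ := hTRS S hS
  obtain ⟨rk', hrk'⟩ := hTRS S' hS'
  have h1 : ∀ a ∈ S.1, a < S.2.1.length + 1 := fun a ha => (hS.1 a ha).trans (Nat.lt_succ_self _)
  have h2 : ∀ w ∈ S.2.1, ∀ a ∈ w, a < S.2.1.length + 1 :=
    fun w hw a ha => (hS.2.1 w hw a ha).trans (Nat.lt_succ_self _)
  have h1' : ∀ a ∈ S'.1, a < S'.2.1.length + 1 :=
    fun a ha => (hS'.1 a ha).trans (Nat.lt_succ_self _)
  have h2' : ∀ w ∈ S'.2.1, ∀ a ∈ w, a < S'.2.1.length + 1 :=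
    fun w hw a ha => (hS'.2.1 w hw a ha).trans (Nat.lt_succ_self _)
  obtain ⟨X, k, m₀, hk, hX⟩ := hNOI (Fin (S.2.1.length + 1)) (Fin (S'.2.1.length + 1)) ℕ
    (fun a : Fin (S.2.1.length + 1) => (S.2.1.getD a []).map (Fin.ofNat (S.2.1.length + 1))) rk
    (fun a : Fin (S.2.1.length + 1) => S.2.2.getD a []) (S.1.map (Fin.ofNat (S.2.1.length + 1)))
    (fun a : Fin (S'.2.1.length + 1) => (S'.2.1.getD a []).map (Fin.ofNat (S'.2.1.length + 1)))
    rk' (fun a : Fin (S'.2.1.length + 1) => S'.2.2.getD a [])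
    (S'.1.map (Fin.ofNat (S'.2.1.length + 1))) hrk hrk' (by
      intro n
      rw [to_fin S _ h1 h2, to_fin S' _ h1' h2']
      exact hne n)
  simp only [to_fin S _ h1 h2, to_fin S' _ h1' h2'] at hX
  obtain ⟨a, ha⟩ : ∃ a : Par, a = ((S, S'), X) := ⟨_, rfl⟩
  obtain ⟨s₀, hs₀⟩ : ∃ s₀ : ℕ → ℤ, ∀ n, s₀ n = (sN a n : ℤ) := ⟨_, fun _ => rfl⟩
  have hs₁ : ∀ n, sq X (term S n) (term S' n) = s₀ n := by
    intro n
    rw [hs₀, sN_eq, ha]
  simp only [hs₁] at hX
  obtain ⟨q, hq⟩ := coded_recurrence a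
  have hq' : ∀ n, s₀ (n + ord a) = ∑ i ∈ Finset.range (ord a), q i * s₀ (n + i) := by
    intro n
    have h := hq n
    simp only [hs₀, sN_eq]
    exact h
  -- the certificates
  have hc : ∀ e : ℕ, ∃ n₁ : ℕ, ∀ n₂, n₁ ≤ n₂ → ∃ c : Cert, e < k → bad a k e n₂ c = 0 := by
    intro e
    by_cases he : e < k
    · obtain ⟨hP, n, hn⟩ := hX e he
      obtain ⟨q', hq'2⟩ := hSUB (ord a) q s₀ (ord_pos a) hq' k (k * m₀ + e)
      obtain ⟨D, T, B, n₁, y, hy⟩ := hCRT (fun n => s₀ (k * (m₀ + n) + e)) (ord a) q' (by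
        intro n
        have h := hq'2 n
        have e1 : ∀ m, k * (m₀ + m) + e = k * m + (k * m₀ + e) := fun m => by ring
        show s₀ (k * (m₀ + (n + ord a)) + e) =
          ∑ i ∈ Finset.range (ord a), q' i * s₀ (k * (m₀ + (n + i)) + e)
        rw [e1, h]
        refine Finset.sum_congr rfl fun i _ => ?_
        rw [e1]) (by
        intro n
        show 0 ≤ s₀ (k * (m₀ + n) + e)
        rw [hs₀]
        exact Int.natCast_nonneg _) hP ⟨n, hn⟩
      have hy2 := NCM_shift (s' := fun n => (sN a (k * n + e) : ℤ)) m₀ hy (by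
        intro n
        show s₀ (k * (m₀ + n) + e) = (sN a (k * (m₀ + n) + e) : ℤ)
        rw [hs₀])
      refine ⟨n₁ + m₀, fun n₂ hn₂ => ?_⟩
      obtain ⟨c, hc⟩ := hCMP a k e D T B (n₁ + m₀) _ hy2 n₂ hn₂
      exact ⟨c, fun _ => hc⟩
    · exact ⟨0, fun n₂ _ => ⟨(0, [], []), fun h => absurd h he⟩⟩
  choose n₁ hn₁ using hc
  obtain ⟨n₂, hn₂⟩ : ∃ n₂, n₂ = (Finset.range k).sup n₁ := ⟨_, rfl⟩
  have hc2 : ∀ e : ℕ, ∃ c : Cert, e < k → bad a k e n₂ c = 0 := by
    intro e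
    by_cases he : e < k
    · refine hn₁ e n₂ ?_
      rw [hn₂]
      exact Finset.le_sup (Finset.mem_range.2 he)
    · exact ⟨(0, [], []), fun h => absurd h he⟩
  choose c hc3 using hc2
  refine ⟨(X, k - 1, n₂, (List.range k).map c), ?_⟩
  have hk1 : k - 1 + 1 = k := by omega
  unfold nbad
  show ((List.range (k - 1 + 1)).map fun e => bad ((S, S'), X) (k - 1 + 1) e n₂
      (((List.range k).map c).getD e (0, [], []))).sum +
    ((List.range ((k - 1 + 1) * n₂)).map fun n =>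
      if term S n = term S' n then 1 else 0).sum = 0
  rw [hk1, ← ha]
  have hA : ((List.range k).map fun e => bad a k e n₂
      (((List.range k).map c).getD e (0, [], []))).sum = 0 := by
    refine List.sum_eq_zero fun x hx => ?_
    obtain ⟨e, he, rfl⟩ := List.mem_map.1 hx
    rw [List.mem_range] at he
    have h3 : ((List.range k).map c).getD e (0, [], []) = c e := by
      rw [List.getD_eq_getElem _ _ (by simpa using he)]
      simp
    rw [h3]
    exact hc3 e he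
  have hB : ((List.range (k * n₂)).map fun n =>
      if term S n = term S' n then 1 else 0).sum = 0 := by
    refine List.sum_eq_zero fun x hx => ?_
    obtain ⟨n, _, rfl⟩ := List.mem_map.1 hx
    rw [if_neg (hne n)]
  rw [hA, hB]

end Pool.RS
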