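import Pool.Agent.Work.MP_4cd38d_rs.Interface

set_option autoImplicit false

namespace Pool.RS

open Pool.Agent.Work.MP_4cd38d_lc
open Polynomial

theorem NE1_eval (q : ℚ[X]) (r : ℚ) : (rl q).eval (r : ℝ) = ((q.eval r : ℚ) : ℝ) := by
  unfold rl
  have h := Polynomial.eval_map_apply (f := algebraMap ℚ ℝ) (p := q) r
  simpa using h

theorem NE1_point (f : ℝ → ℝ) (hf : Continuous f) (a b δ : ℝ) (hab : a < b) (hδ : 0 < δ)
    (h : (f a ≤ -δ ∧ δ ≤ f b) ∨ (δ ≤ f a ∧ f b ≤ -δ)) :
    ∃ r : ℚ, a < (r : ℝ) ∧ (r : ℝ) < b ∧ -δ < f r ∧ f r < 0 := by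
  have hne : ∃ x, x ∈ Set.Ioo a b ∧ f x = -δ / 2 := by
    rcases h with ⟨h1, h2⟩ | ⟨h1, h2⟩
    · have h3 := intermediate_value_Ioo hab.le hf.continuousOn (f := f)
      have h4 : -δ / 2 ∈ Set.Ioo (f a) (f b) := ⟨by linarith, by linarith⟩
      obtain ⟨x, hx, hx'⟩ := h3 h4
      exact ⟨x, hx, hx'⟩
    · have h3 := intermediate_value_Ioo' hab.le hf.continuousOn (f := f)
      have h4 : -δ / 2 ∈ Set.Ioo (f b) (f a) := ⟨by linarith, by linarith⟩
      obtain ⟨x, hx, hx'⟩ := h3 h4
      exact ⟨x, hx, hx'⟩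
  obtain ⟨x, hx, hfx⟩ := hne
  have hopen : IsOpen (Set.Ioo a b ∩ f ⁻¹' (Set.Ioo (-δ) 0)) :=
    isOpen_Ioo.inter (isOpen_Ioo.preimage hf)
  obtain ⟨r, hr⟩ := (Rat.denseRange_cast (𝕜 := ℝ)).exists_mem_open hopen
    ⟨x, hx, by simp only [Set.mem_preimage, Set.mem_Ioo, hfx]; constructor <;> linarith⟩
  exact ⟨r, hr.1.1, hr.1.2, hr.2.1, hr.2.2⟩

theorem p_NE1 : Stmt_NE1 := by
  intro e
  induction e with
  | zero => intro q z he; omega
  | succ e ih =>
    intro q z _ hq hdeg hz hsign
    -- the minimum of the absolute values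
    have hne : (Finset.range (e + 2)).Nonempty := ⟨0, by simp⟩
    obtain ⟨i₀, hi₀, hmin⟩ := Finset.exists_min_image (Finset.range (e + 2))
      (fun i => |(rl q).eval (z i)|) hne
    set δ := |(rl q).eval (z i₀)| with hδdef
    have hδ : 0 < δ := by
      rw [hδdef, abs_pos]
      intro h0
      have := hsign i₀ (by have := Finset.mem_range.1 hi₀; omega)
      rw [h0, mul_zero] at this
      exact lt_irrefl _ this
    have hge : ∀ i ≤ e + 1, δ ≤ (-1) ^ (e + 1 - i) * (rl q).eval (z i) := by
      intro i hi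
      have h1 := hmin i (Finset.mem_range.2 (by omega))
      have h2 := hsign i hi
      have h3 : (-1 : ℝ) ^ (e + 1 - i) * (rl q).eval (z i) = |(rl q).eval (z i)| := by
        rw [← abs_of_pos h2, abs_mul, abs_pow, abs_neg, abs_one, one_pow, one_mul]
      rw [h3]
      exact h1
    have h0 := hge 0 (by omega)
    have h1 := hge 1 (by omega)
    have hcase : ((rl q).eval (z 0) ≤ -δ ∧ δ ≤ (rl q).eval (z 1)) ∨
        (δ ≤ (rl q).eval (z 0) ∧ (rl q).eval (z 1) ≤ -δ) := by
      simp only [Nat.sub_zero, Nat.add_sub_cancel] at h0 h1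
      rcases neg_one_pow_eq_or ℝ e with he | he
      · rw [pow_succ, he] at h0
        rw [he] at h1
        left
        constructor <;> linarith
      · rw [pow_succ, he] at h0
        rw [he] at h1
        right
        constructor <;> linarith
    obtain ⟨r₀, hr1, hr2, hr3, hr4⟩ := NE1_point (fun x => (rl q).eval x) (rl q).continuous
      (z 0) (z 1) δ (hz 0 (by omega)) hδ hcase
    simp only [NE1_eval] at hr3 hr4
    set c₀ : ℚ := -(q.eval r₀) with hc₀
    have hc₀pos : 0 < c₀ := by
      have : (q.eval r₀ : ℚ) < 0 := by exact_mod_cast hr4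
      rw [hc₀]; linarith
    have hc₀δ : (c₀ : ℝ) < δ := by
      rw [hc₀]; push_cast; linarith
    have hroot : (q + C c₀).IsRoot r₀ := by
      rw [IsRoot.def, eval_add, eval_C, hc₀]; ring
    obtain ⟨q₁, hq₁⟩ : ∃ q₁, q + C c₀ = (X - C r₀) * q₁ := dvd_iff_isRoot.2 hroot
    have hmon : (q + C c₀).Monic := by
      refine hq.add_of_left ?_
      refine degree_C_le.trans_lt ?_
      rw [degree_eq_natDegree hq.ne_zero, hdeg]
      exact_mod_cast Nat.succ_pos e
    have hq₁mon : q₁.Monic := (monic_X_sub_C r₀).of_mul_monic_left (by rw [← hq₁]; exact hmon)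
    have hq₁deg : q₁.natDegree = e := by
      have h2 : (q + C c₀).natDegree = e + 1 := by rw [natDegree_add_C, hdeg]
      rw [hq₁, (monic_X_sub_C r₀).natDegree_mul hq₁mon, natDegree_X_sub_C] at h2
      omega
    rcases Nat.eq_zero_or_pos e with he | he
    · subst he
      have h2 : q₁ = 1 := eq_one_of_monic_natDegree_zero hq₁mon hq₁deg
      refine ⟨fun _ => r₀, fun _ => c₀, ?_, ?_⟩
      · intro i hi
        have : i = 0 := by omega
        subst this
        exact ⟨hr1, hr2, hc₀pos.le⟩
      · rw [h2, mul_one] at hq₁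
        simp [← hq₁]
    · obtain ⟨r', c', hrc, hprod⟩ := ih q₁ (fun i => z (i + 1)) he hq₁mon hq₁deg
        (fun i hi => hz (i + 1) (by omega)) (by
          intro i hi
          have h2 := hge (i + 1) (by omega)
          rw [show e + 1 - (i + 1) = e - i by omega] at h2
          have h3 : (rl q).eval (z (i + 1)) + c₀ = (z (i + 1) - r₀) * (rl q₁).eval (z (i + 1)) := by
            have h4 := congrArg (fun p => (rl p).eval (z (i + 1))) hq₁
            simpa [rl, Polynomial.map_add, Polynomial.map_mul] using h4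
          have hzz : ∀ k, k ≤ e → z 1 ≤ z (k + 1) := by
            intro k
            induction k with
            | zero => intro _; exact le_rfl
            | succ k ihk => intro hk; exact (ihk (by omega)).trans (hz (k + 1) (by omega)).le
          have h5 : 0 < z (i + 1) - r₀ := by
            have := hzz i hi
            linarith
          have h6 : 0 < (-1) ^ (e - i) * ((rl q).eval (z (i + 1)) + c₀) := by
            have hc0' : (0 : ℝ) < c₀ := by exact_mod_cast hc₀pos
            rcases neg_one_pow_eq_or ℝ (e - i) with hs | hs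
            · rw [hs] at h2 ⊢; linarith
            · rw [hs] at h2 ⊢; linarith
          rw [h3] at h6
          have h7 : (-1 : ℝ) ^ (e - i) * ((z (i + 1) - r₀) * (rl q₁).eval (z (i + 1))) =
              (z (i + 1) - r₀) * ((-1) ^ (e - i) * (rl q₁).eval (z (i + 1))) := by ring
          rw [h7] at h6
          exact (pos_iff_pos_of_mul_pos h6).1 h5)
      obtain ⟨rr, hrr0, hrrs⟩ : ∃ rr : ℕ → ℚ, rr 0 = r₀ ∧ ∀ i, rr (i + 1) = r' i :=
        ⟨fun i => Nat.casesOn i r₀ r', rfl, fun _ => rfl⟩
      obtain ⟨cc, hcc0, hccs⟩ : ∃ cc : ℕ → ℚ, cc 0 = c₀ ∧ ∀ i, cc (i + 1) = c' i :=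
        ⟨fun i => Nat.casesOn i c₀ c', rfl, fun _ => rfl⟩
      refine ⟨rr, cc, ?_, ?_⟩
      · intro i hi
        cases i with
        | zero => rw [hrr0, hcc0]; exact ⟨hr1, hr2, hc₀pos.le⟩
        | succ i => rw [hrrs, hccs]; exact hrc i (by omega)
      · rw [Finset.prod_range_succ', Finset.sum_range_succ']
        simp only [Finset.range_zero, Finset.prod_empty, mul_one, hrr0, hcc0, hrrs, hccs]
        rw [hprod, add_mul]
        have h8 : q₁ * (X - C r₀) = q + C c₀ := by rw [hq₁]; ring
        rw [h8, Finset.sum_mul]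
        have h9 : ∑ i ∈ Finset.range e, C (c' i) * (∏ j ∈ Finset.range i, (X - C (r' j))) *
            (X - C r₀) = ∑ i ∈ Finset.range e, C (c' i) * ∏ j ∈ Finset.range (i + 1),
              (X - C (rr j)) := by
          refine Finset.sum_congr rfl fun i _ => ?_
          rw [Finset.prod_range_succ', mul_assoc, hrr0]
          simp only [hrrs]
        rw [h9]
        ring

end Pool.RS
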