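import Pool.Agent.Work.MP_4cd38d_rs.Interface

set_option autoImplicit false

namespace Pool.RS

open Pool.Agent.Work.MP_4cd38d_lc
open Polynomial

/-- The roots in increasing order. -/
theorem NEW_roots (p : ℝ[X]) (e : ℕ) (lam : ℝ) (hdeg : p.natDegree = e) (hR : Rts p lam)
    (hsep : p.Separable) : ∃ ρ : ℕ → ℝ, (∀ i < e, 0 < ρ i ∧ ρ i ≤ lam) ∧
      (∀ i j, i < j → j < e → ρ i < ρ j) ∧ ∀ x, p.eval x = ∏ j ∈ Finset.range e, (x - ρ j) := by
  obtain ⟨hm, hs, hroots⟩ := hR
  have hnd : p.roots.Nodup := nodup_roots hsep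
  have hcard : p.roots.toFinset.card = e := by
    rw [Multiset.toFinset_card_of_nodup hnd, ← hs.natDegree_eq_card_roots, hdeg]
  set emb := p.roots.toFinset.orderEmbOfFin hcard with hemb
  refine ⟨fun i => if h : i < e then emb ⟨i, h⟩ else 0, ?_, ?_, ?_⟩
  · intro i hi
    simp only [dif_pos hi]
    have h1 := p.roots.toFinset.orderEmbOfFin_mem hcard ⟨i, hi⟩
    rw [Multiset.mem_toFinset, mem_roots hm.ne_zero] at h1
    exact hroots _ h1
  · intro i j hij hj
    simp only [dif_pos hj, dif_pos (hij.trans hj)]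
    exact emb.strictMono (by exact_mod_cast hij)
  · intro x
    rw [hs.eval_eq_prod_roots_of_monic hm]
    have h1 : (p.roots.map (fun a => x - a)).prod = ∏ a ∈ p.roots.toFinset, (x - a) := by
      rw [Finset.prod_multiset_map_count]
      refine Finset.prod_congr rfl fun a ha => ?_
      rw [Multiset.count_eq_one_of_mem hnd (Multiset.mem_toFinset.1 ha), pow_one]
    rw [h1, ← Finset.image_orderEmbOfFin_univ p.roots.toFinset hcard,
      Finset.prod_image (fun a _ b _ h => emb.injective h), Finset.prod_range]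
    refine Finset.prod_congr rfl fun i _ => ?_
    simp only [i.2, dif_pos]

theorem NEW_sign (e i : ℕ) (ρ : ℕ → ℝ) (x : ℝ) (hi : i ≤ e) (h1 : ∀ j < i, ρ j < x)
    (h2 : ∀ j, i ≤ j → j < e → x < ρ j) :
    0 < (-1) ^ (e - i) * ∏ j ∈ Finset.range e, (x - ρ j) := by
  obtain ⟨d, rfl⟩ := Nat.exists_eq_add_of_le hi
  rw [Nat.add_sub_cancel_left]
  induction d with
  | zero =>
    rw [pow_zero, one_mul, Nat.add_zero]
    exact Finset.prod_pos fun j hj => by
      have := h1 j (Finset.mem_range.1 hj)
      linarith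
  | succ d ih =>
    have h3 := ih (by omega) (fun j hj hj' => h2 j hj (by omega))
    rw [show i + (d + 1) = i + d + 1 by ring, Finset.prod_range_succ, pow_succ]
    have h4 := h2 (i + d) (by omega) (by omega)
    have h5 : (-1 : ℝ) ^ d * -1 * ((∏ j ∈ Finset.range (i + d), (x - ρ j)) * (x - ρ (i + d))) =
        ((-1) ^ d * ∏ j ∈ Finset.range (i + d), (x - ρ j)) * (ρ (i + d) - x) := by ring
    rw [h5]
    exact mul_pos h3 (by linarith)

theorem p_NEW (hNE1 : Stmt_NE1) : Stmt_NEW := by
  intro q e lam hdeg he hq hR hsep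
  have hdeg' : (rl q).natDegree = e := by
    unfold rl
    rw [natDegree_map, hdeg]
  obtain ⟨ρ, hρ1, hρ2, hρ3⟩ := NEW_roots (rl q) e lam hdeg' hR hsep
  obtain ⟨z, hz1, hz2⟩ : ∃ z : ℕ → ℝ, (∀ i < e, z i < ρ i ∧ ρ i < z (i + 1)) ∧ 0 < z 0 := by
    refine ⟨fun i => if i = 0 then ρ 0 / 2 else if i < e then (ρ (i - 1) + ρ i) / 2
      else ρ (i - 1) + 1, ?_, ?_⟩
    · intro i hi
      have h0 := (hρ1 i hi).1
      constructor
      · by_cases h : i = 0
        · subst h
          simp only [if_true]
          linarith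
        · simp only [if_neg h, if_pos hi]
          have := hρ2 (i - 1) i (by omega) hi
          linarith
      · simp only [if_neg (Nat.succ_ne_zero i), Nat.add_sub_cancel]
        by_cases h : i + 1 < e
        · rw [if_pos h]
          have := hρ2 i (i + 1) (by omega) h
          linarith
        · rw [if_neg h]
          linarith
    · simp only [if_true]
      have := (hρ1 0 (by omega)).1
      linarith
  have hzρ : ∀ i, i ≤ e → ∀ j, i ≤ j → j < e → z i < ρ j := by
    intro i hi j hij hj
    rcases Nat.lt_or_ge i j with h | h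
    · exact ((hz1 i (by omega)).1).trans (hρ2 i j h hj)
    · have : i = j := by omega
      subst this
      exact (hz1 i hj).1
  have hρz : ∀ i, i ≤ e → ∀ j < i, ρ j < z i := by
    intro i hi j hj
    have h1 := (hz1 (i - 1) (by omega)).2
    rw [show i - 1 + 1 = i by omega] at h1
    rcases Nat.lt_or_ge j (i - 1) with h | h
    · exact (hρ2 j (i - 1) h (by omega)).trans h1
    · have : j = i - 1 := by omega
      rw [this]
      exact h1
  have hmono : ∀ i, i ≤ e → z 0 ≤ z i := by
    intro i
    induction i with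
    | zero => intro _; exact le_rfl
    | succ i ih =>
      intro hi
      have := hz1 i (by omega)
      have := ih (by omega)
      linarith
  obtain ⟨r, c, hrc, hprod⟩ := hNE1 e q z he hq hdeg
    (fun i hi => (hz1 i hi).1.trans (hz1 i hi).2) (fun i hi => by
      rw [hρ3]
      exact NEW_sign e i ρ (z i) hi (hρz i hi) (hzρ i hi))
  refine ⟨r, c, fun i hi => ⟨?_, (hrc i hi).2.2⟩, fun i hi => ?_, hprod⟩
  · have h1 := (hrc i hi).1
    have h2 := hmono i hi.le
    have h3 : (0 : ℝ) < r i := by linarith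
    exact_mod_cast h3.le
  · have h1 := (hrc i (by omega)).2.1
    have h2 := (hz1 (i + 1) hi).1
    have h3 := (hρ1 (i + 1) hi).2
    linarith

end Pool.RS
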