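import Pool.Agent.Work.MP_4cd38d_rs.Interface

set_option autoImplicit false

namespace Pool.RS

open Pool.Agent.Work.MP_4cd38d_lc
open Polynomial

lemma NOI_sq {D : Type} [DecidableEq D] (hPEC : Stmt_PEC) (W W' : ℕ → List D)
    (h : ∀ x, PExp (fun n => (scatteredCount x (W n) : ℝ)))
    (h' : ∀ x, PExp (fun n => (scatteredCount x (W' n) : ℝ))) (X : List (List D)) :
    PExp (fun n => (sq X (W n) (W' n) : ℝ)) := by
  obtain ⟨hadd, hmul, hconst, _⟩ := hPEC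
  induction X with
  | nil =>
    have : (fun n => (sq ([] : List (List D)) (W n) (W' n) : ℝ)) = fun _ => (0 : ℝ) := by
      funext n
      simp [Pool.Agent.Work.MP_4cd38d_lc.sq]
    rw [this]
    exact hconst 0
  | cons x X ih =>
    have hd : PExp (fun n => (scatteredCount x (W n) : ℝ) +
        (-1 : ℝ) * (scatteredCount x (W' n) : ℝ)) :=
      hadd _ _ (h x) (hmul _ _ (hconst (-1)) (h' x))
    have hd2 := hadd _ _ (hmul _ _ hd hd) ih
    convert hd2 using 2 with n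
    simp only [Pool.Agent.Work.MP_4cd38d_lc.sq, List.map_cons, List.sum_cons]
    push_cast
    ring

theorem p_NOI (hPEC : Stmt_PEC) (hON1 : Stmt_ON1) : Stmt_NOI := by
  classical
  intro Γ Γ' D _ _ _ _ _ g rk G u g' rk' G' u' hg hg' hne
  obtain ⟨k₁, n₁, hk₁, h1⟩ := hON1 Γ g rk hg
  obtain ⟨k₂, n₂, hk₂, h2⟩ := hON1 Γ' g' rk' hg'
  have hx : ∀ e, ∃ x : List D,
      scatteredCount x (hd0l g G u (k₁ * k₂ * (n₁ + n₂ + 0) + e)) ≠
      scatteredCount x (hd0l g' G' u' (k₁ * k₂ * (n₁ + n₂ + 0) + e)) := by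
    intro e
    by_contra hc
    push Not at hc
    exact hne _ (eq_of_scatteredCount hc)
  choose x hx using hx
  have hkk : 0 < k₁ * k₂ := Nat.mul_pos hk₁ hk₂
  have hbig : ∀ e, n₁ + n₂ ≤ k₁ * k₂ * (n₁ + n₂) + e := by
    intro e
    have : n₁ + n₂ ≤ k₁ * k₂ * (n₁ + n₂) := Nat.le_mul_of_pos_left _ hkk
    omega
  refine ⟨(List.range (k₁ * k₂)).map x, k₁ * k₂, n₁ + n₂, hkk, fun e he => ⟨?_, 0, ?_⟩⟩
  · apply NOI_sq hPEC
    · intro y
      have h3 := h1 k₂ (k₁ * k₂ * (n₁ + n₂) + e) hk₂ (by have := hbig e; omega) D G u y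
      have h4 : ∀ n, k₁ * k₂ * (n₁ + n₂ + n) + e = k₁ * k₂ * n + (k₁ * k₂ * (n₁ + n₂) + e) :=
        fun n => by ring
      simp_rw [h4]
      exact h3
    · intro y
      have h3 := h2 k₁ (k₁ * k₂ * (n₁ + n₂) + e) hk₁ (by have := hbig e; omega) D G' u' y
      have h4 : ∀ n, k₁ * k₂ * (n₁ + n₂ + n) + e = k₂ * k₁ * n + (k₁ * k₂ * (n₁ + n₂) + e) :=
        fun n => by ring
      simp_rw [h4]
      exact h3
  · have h5 : ∀ y ∈ ((List.range (k₁ * k₂)).map x).map (fun z =>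
        ((scatteredCount z (hd0l g G u (k₁ * k₂ * (n₁ + n₂ + 0) + e)) : ℤ) -
          (scatteredCount z (hd0l g' G' u' (k₁ * k₂ * (n₁ + n₂ + 0) + e)) : ℤ)) ^ 2),
        0 ≤ y := by
      intro y hy
      obtain ⟨z, _, rfl⟩ := List.mem_map.1 hy
      positivity
    have h6 := List.single_le_sum h5 _ (List.mem_map.2
      ⟨x e, List.mem_map.2 ⟨e, List.mem_range.2 he, rfl⟩, rfl⟩)
    have h7 : (0 : ℤ) < ((scatteredCount (x e)
        (hd0l g G u (k₁ * k₂ * (n₁ + n₂ + 0) + e)) : ℤ) -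
        (scatteredCount (x e) (hd0l g' G' u' (k₁ * k₂ * (n₁ + n₂ + 0) + e)) : ℤ)) ^ 2 := by
      apply pow_two_pos_of_ne_zero
      intro h8
      apply hx e
      have := sub_eq_zero.1 h8
      exact_mod_cast this
    exact (lt_of_lt_of_le h7 h6).ne'

end Pool.RS
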