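import Pool.Agent.Work.MP_4cd38d_rs.Interface

set_option autoImplicit false

/-! # MP_4cd38d, Theorem RS: block NSN (helper94) -/

namespace Pool.RS

open Pool.Agent.Work.MP_4cd38d_lc
open Polynomial

theorem NSN_zero {l : List ℕ} (h : l.sum = 0) : ∀ x ∈ l, x = 0 := by
  intro x hx
  have := List.le_sum_of_mem hx
  omega

theorem p_NSN (hSND : Stmt_SND) : Stmt_NSN := by
  intro p N hN n he
  unfold nbad at hN
  have h1 := Nat.eq_zero_of_add_eq_zero_right hN
  have h2 := Nat.eq_zero_of_add_eq_zero_left hN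
  by_cases hn : n < (N.2.1 + 1) * N.2.2.1
  · have h3 := NSN_zero h2 _ (List.mem_map.2 ⟨n, List.mem_range.2 hn, rfl⟩)
    rw [if_pos he] at h3
    exact one_ne_zero h3
  · rw [not_lt] at hn
    have hk : 0 < N.2.1 + 1 := Nat.succ_pos _
    have h3 := NSN_zero h1 _ (List.mem_map.2 ⟨n % (N.2.1 + 1), List.mem_range.2 (Nat.mod_lt _ hk), rfl⟩)
    have h4 := hSND (p, N.1) (N.2.1 + 1) (n % (N.2.1 + 1)) N.2.2.1 _ h3 (n / (N.2.1 + 1))
      ((Nat.le_div_iff_mul_le hk).2 (by rw [mul_comm]; exact hn))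
    rw [Nat.div_add_mod] at h4
    rw [sN_eq_zero (a := (p, N.1)) he] at h4
    exact lt_irrefl 0 h4

end Pool.RS
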