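import Pool.Agent.Work.MP_4cd38d_rs.Interface

set_option autoImplicit false

namespace Pool.RS

open Pool.Agent.Work.MP_4cd38d_lc
open Polynomial

lemma ON1_append {C D : Type} (g : C → List D) (v w : List C) :
    mo g (v ++ w) = mo g v ++ mo g w := List.flatMap_append

lemma ON1_iter_append {C : Type} (g : C → List C) (n : ℕ) (v w : List C) :
    (mo g)^[n] (v ++ w) = (mo g)^[n] v ++ (mo g)^[n] w := by
  induction n generalizing v w with
  | zero => rfl
  | succ n ih => rw [Function.iterate_succ_apply, Function.iterate_succ_apply,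
      Function.iterate_succ_apply, ON1_append, ih]

lemma ON1_iter_nil {C : Type} (g : C → List C) (n : ℕ) : (mo g)^[n] [] = [] := by
  induction n with
  | zero => rfl
  | succ n ih => rw [Function.iterate_succ_apply]; exact ih

lemma ON1_words {C : Type} (g κ : C → List C) (n₀ : ℕ)
    (h : ∀ a, ∃ v, (mo g)^[n₀] [a] = mo κ v) (u : List C) :
    ∃ v, (mo g)^[n₀] u = mo κ v := by
  induction u with
  | nil => exact ⟨[], by rw [ON1_iter_nil]; rfl⟩
  | cons a u ih =>
    obtain ⟨v, hv⟩ := ih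
    obtain ⟨w, hw⟩ := h a
    refine ⟨w ++ v, ?_⟩
    rw [ON1_append, ← hv, ← hw, ← ON1_iter_append]
    rfl

lemma ON1_mo {C : Type} (g κ g' : C → List C) (h : ∀ c, mo g (κ c) = mo κ (g' c))
    (w : List C) : mo g (mo κ w) = mo κ (mo g' w) := by
  induction w with
  | nil => rfl
  | cons c w ih =>
    have h1 : mo κ (c :: w) = κ c ++ mo κ w := rfl
    have h2 : mo g' (c :: w) = g' c ++ mo g' w := rfl
    rw [h1, h2, ON1_append, ON1_append, ih, h]

lemma ON1_iter {C : Type} (g κ g' : C → List C) (h : ∀ c, mo g (κ c) = mo κ (g' c))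
    (n : ℕ) (w : List C) : (mo g)^[n] (mo κ w) = mo κ ((mo g')^[n] w) := by
  induction n generalizing w with
  | zero => rfl
  | succ n ih =>
    rw [Function.iterate_succ_apply, Function.iterate_succ_apply, ON1_mo g κ g' h, ih]

theorem p_ON1 (hCNT : Stmt_CNT) (hFPW : Stmt_FPW) (hPWE : Stmt_PWE) (hPWH : Stmt_PWH)
    (hKAP : Stmt_KAP) : Stmt_ON1 := by
  intro Γ _ _ g rk hg
  obtain ⟨g', κ, n₀, h1, h2, h3⟩ := hKAP Γ g rk hg
  obtain ⟨k, hk, hk'⟩ := hFPW Γ (inc g') h3
  refine ⟨k, n₀, hk, fun m j hm hj D _ G u x => ?_⟩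
  obtain ⟨v, hv⟩ := ON1_words g κ n₀ h2 u
  have hseq : ∀ n, hd0l g G u (k * m * n + j) =
      hd0l (pw g' (k * m)) (fun c => mo G (κ c)) ((mo g')^[j - n₀] v) n := by
    intro n
    rw [← hPWH]
    change mo G ((mo g)^[k * m * n + j] u) =
      mo (fun c => mo G (κ c)) ((mo g')^[k * m * n + (j - n₀)] v)
    have h4 : k * m * n + j = k * m * n + (j - n₀) + n₀ := by omega
    rw [h4, Function.iterate_add_apply, hv, ON1_iter g κ g' h1]
    generalize (mo g')^[k * m * n + (j - n₀)] v = w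
    induction w with
    | nil => rfl
    | cons c w ih =>
      have h5 : mo κ (c :: w) = κ c ++ mo κ w := rfl
      rw [h5, ON1_append, ih]
      rfl
  simp_rw [hseq]
  apply hCNT
  intro μ hμ
  obtain ⟨τ, hτ, hτ'⟩ := hPWE Γ g' (k * m) μ hμ
  obtain ⟨t, ht, ht'⟩ := hk' τ hτ
  refine ⟨t ^ m, pow_pos ht m, ?_⟩
  rw [← hτ', pow_mul, ht']
  push_cast
  rfl

end Pool.RS
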