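import Pool.Agent.Work.MP_4cd38d_rs.Interface

set_option autoImplicit false

namespace Pool.RS

open Pool.Agent.Work.MP_4cd38d_lc
open Polynomial

lemma PD1_mul (p q : ℝ[X]) (y : ℕ → ℝ) : pE (p * q) y = pE p (pE q y) := by
  unfold pE
  rw [map_mul]
  rfl

lemma PD1_lin (ρ : ℝ) (y : ℕ → ℝ) : pE (X - C ρ) y = fun n => y (n + 1) - ρ * y n := by
  unfold pE
  rw [map_sub, aeval_X, aeval_C]
  funext n
  simp [shf, Module.algebraMap_end_apply]

lemma PD1_kill (ρ : ℝ) (d : ℕ) : ∀ Q : ℝ[X], Q.degree < (d : WithBot ℕ) →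
    pE ((X - C ρ) ^ d) (fun n : ℕ => Q.eval (n : ℝ) * ρ ^ n) = 0 := by
  induction d with
  | zero =>
    intro Q hQ
    have h0 : Q = 0 := by
      by_contra h
      have := (zero_le_degree_iff.2 h)
      exact absurd hQ (not_lt.2 (by simpa using this))
    subst h0
    have : (fun n : ℕ => (0 : ℝ[X]).eval (n : ℝ) * ρ ^ n) = 0 := by
      funext n
      simp
    rw [this, map_zero]
  | succ d ih =>
    intro Q hQ
    by_cases h0 : Q = 0
    · subst h0
      have : (fun n : ℕ => (0 : ℝ[X]).eval (n : ℝ) * ρ ^ n) = 0 := by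
        funext n
        simp
      rw [this, map_zero]
    · rw [pow_succ, PD1_mul, PD1_lin]
      have e : (fun n : ℕ => Q.eval ((n + 1 : ℕ) : ℝ) * ρ ^ (n + 1) - ρ * (Q.eval (n : ℝ) * ρ ^ n)) =
          fun n : ℕ => (C ρ * (taylor 1 Q - Q)).eval (n : ℝ) * ρ ^ n := by
        funext n
        rw [eval_mul, eval_C, eval_sub, taylor_eval]
        push_cast
        rw [pow_succ]
        ring
      rw [e]
      apply ih
      have h1 : (taylor 1 Q - Q).degree < Q.degree := by
        have hd : (taylor 1 Q).degree = Q.degree := degree_taylor Q 1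
        rw [← hd]
        refine degree_sub_lt_left hd ?_ ?_
        · intro h
          apply h0
          rw [← degree_eq_bot, ← hd, h, degree_zero]
        · rw [leadingCoeff_taylor]
      have h2 : (C ρ * (taylor 1 Q - Q)).degree ≤ (taylor 1 Q - Q).degree := by
        rw [degree_mul]
        exact (add_le_add_left degree_C_le _).trans (by rw [zero_add])
      have h3 : Q.degree ≤ (d : WithBot ℕ) := by
        have : Q.degree < ((d + 1 : ℕ) : WithBot ℕ) := hQ
        exact degree_le_of_natDegree_le (Nat.lt_succ_iff.1 ((natDegree_lt_iff_degree_lt h0).2 this))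
      exact (h2.trans_lt h1).trans_le h3

theorem p_PD1 : Stmt_PD1 := by
  intro F P
  have e : (fun n : ℕ => ∑ ρ ∈ F, (P ρ).eval (n : ℝ) * ρ ^ n) =
      ∑ ρ ∈ F, fun n : ℕ => (P ρ).eval (n : ℝ) * ρ ^ n := by
    funext n
    rw [Finset.sum_apply]
  rw [e, map_sum]
  refine Finset.sum_eq_zero fun ρ hρ => ?_
  rw [← Finset.prod_erase_mul F _ hρ, PD1_mul, PD1_kill ρ ((P ρ).natDegree + 1) (P ρ), map_zero]
  exact degree_le_natDegree.trans_lt (by exact_mod_cast Nat.lt_succ_self _)

end Pool.RS
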