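import Pool.Agent.Work.MP_4cd38d_rs.Interface

set_option autoImplicit false

/-! # MP_4cd38d, THEOREM RS, block PD2 -/

namespace Pool.RS

open Pool.Agent.Work.MP_4cd38d_lc
open Polynomial

theorem PD2_bdd (P : ℝ[X]) (r : ℝ) (hr0 : 0 ≤ r) (hr1 : r < 1) :
    ∃ C : ℝ, ∀ n : ℕ, |P.eval (n : ℝ) * r ^ n| ≤ C := by
  induction P using Polynomial.induction_on' with
  | add p q hp hq =>
    obtain ⟨C, hC⟩ := hp
    obtain ⟨D, hD⟩ := hq
    refine ⟨C + D, fun n => ?_⟩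
    rw [eval_add, add_mul]
    exact (abs_add_le _ _).trans (add_le_add (hC n) (hD n))
  | monomial k a =>
    have h1 : Filter.Tendsto (fun n : ℕ => (n : ℝ) ^ k * r ^ n) Filter.atTop (nhds 0) :=
      tendsto_pow_const_mul_const_pow_of_abs_lt_one k (by rwa [abs_of_nonneg hr0])
    obtain ⟨C, hC⟩ := (Metric.isBounded_range_of_tendsto _ h1).exists_norm_le
    refine ⟨|a| * C, fun n => ?_⟩
    have h2 := hC _ ⟨n, rfl⟩
    rw [Real.norm_eq_abs] at h2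
    rw [eval_monomial, mul_assoc, abs_mul]
    exact mul_le_mul_of_nonneg_left h2 (abs_nonneg a)

theorem PD2_one (P : ℝ[X]) (ρ θ : ℝ) (h0 : 0 < ρ) (h1 : ρ < θ) :
    ∃ C : ℝ, ∀ n : ℕ, |P.eval (n : ℝ) * ρ ^ n| ≤ C * θ ^ n := by
  have hθ : 0 < θ := h0.trans h1
  obtain ⟨C, hC⟩ := PD2_bdd P (ρ / θ) (div_nonneg h0.le hθ.le) ((div_lt_one hθ).2 h1)
  refine ⟨C, fun n => ?_⟩
  have h2 : P.eval (n : ℝ) * ρ ^ n = (P.eval (n : ℝ) * (ρ / θ) ^ n) * θ ^ n := by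
    rw [div_pow, mul_assoc, div_mul_cancel₀ _ (pow_ne_zero n hθ.ne')]
  rw [h2, abs_mul, abs_of_pos (pow_pos hθ n)]
  exact mul_le_mul_of_nonneg_right (hC n) (pow_pos hθ n).le

theorem PD2_theta (G : Finset ℝ) (lam : ℝ) (hl : 0 < lam) (h : ∀ ρ ∈ G, ρ < lam) :
    ∃ θ : ℝ, 0 < θ ∧ θ < lam ∧ ∀ ρ ∈ G, ρ < θ := by
  induction G using Finset.induction_on with
  | empty => exact ⟨lam / 2, by linarith, by linarith, by simp⟩
  | insert a G ha ih =>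
    obtain ⟨θ, h1, h2, h3⟩ := ih fun ρ hρ => h ρ (Finset.mem_insert_of_mem hρ)
    have h4 := h a (Finset.mem_insert_self a G)
    refine ⟨max θ ((a + lam) / 2), lt_max_of_lt_left h1, max_lt h2 (by linarith), ?_⟩
    intro ρ hρ
    rcases Finset.mem_insert.1 hρ with rfl | hρ
    · exact lt_max_of_lt_right (by linarith)
    · exact lt_max_of_lt_left (h3 ρ hρ)

theorem PD2_sum (G : Finset ℝ) (P : ℝ → ℝ[X]) (θ : ℝ) (h0 : ∀ ρ ∈ G, 0 < ρ)
    (h1 : ∀ ρ ∈ G, ρ < θ) :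
    ∃ C : ℝ, ∀ n : ℕ, |∑ ρ ∈ G, (P ρ).eval (n : ℝ) * ρ ^ n| ≤ C * θ ^ n := by
  induction G using Finset.induction_on with
  | empty => exact ⟨0, fun n => by simp⟩
  | insert a G ha ih =>
    obtain ⟨C, hC⟩ := ih (fun ρ hρ => h0 ρ (Finset.mem_insert_of_mem hρ))
      fun ρ hρ => h1 ρ (Finset.mem_insert_of_mem hρ)
    obtain ⟨D, hD⟩ := PD2_one (P a) a θ (h0 a (Finset.mem_insert_self a G))
      (h1 a (Finset.mem_insert_self a G))
    refine ⟨D + C, fun n => ?_⟩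
    rw [Finset.sum_insert ha, add_mul]
    exact (abs_add_le _ _).trans (add_le_add (hD n) (hC n))

theorem p_PD2 : Stmt_PD2 := by
  intro F P lam hF hl hP
  have hlam : 0 < lam := (hF lam hl).1
  have hlt : ∀ ρ ∈ F.erase lam, ρ < lam := fun ρ hρ =>
    lt_of_le_of_ne (hF ρ (Finset.mem_of_mem_erase hρ)).2 (Finset.ne_of_mem_erase hρ)
  obtain ⟨θ, h1, h2, h3⟩ := PD2_theta (F.erase lam) lam hlam hlt
  obtain ⟨C, hC⟩ := PD2_sum (F.erase lam) P θ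
    (fun ρ hρ => (hF ρ (Finset.mem_of_mem_erase hρ)).1) h3
  have hs : ∀ n : ℕ, ∑ ρ ∈ F, (P ρ).eval (n : ℝ) * ρ ^ n =
      (P lam).eval (n : ℝ) * lam ^ n + ∑ ρ ∈ F.erase lam, (P ρ).eval (n : ℝ) * ρ ^ n :=
    fun n => (Finset.add_sum_erase F (fun ρ => (P ρ).eval (n : ℝ) * ρ ^ n) hl).symm
  rcases lt_or_gt_of_ne (leadingCoeff_ne_zero.2 hP) with hn | hp
  · right
    refine ⟨-P lam, natDegree_neg _, ?_, θ, C, h1, h2, fun n => ?_⟩
    · rw [leadingCoeff_neg]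
      linarith
    · beta_reduce
      rw [hs n, eval_neg]
      have e : -((P lam).eval (n : ℝ) * lam ^ n +
          ∑ ρ ∈ F.erase lam, (P ρ).eval (n : ℝ) * ρ ^ n) - -(P lam).eval (n : ℝ) * lam ^ n =
          -(∑ ρ ∈ F.erase lam, (P ρ).eval (n : ℝ) * ρ ^ n) := by ring
      rw [e, abs_neg]
      exact hC n
  · left
    refine ⟨P lam, rfl, hp, θ, C, h1, h2, fun n => ?_⟩
    beta_reduce
    rw [hs n, add_sub_cancel_left]
    exact hC n

end Pool.RS
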