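import Pool.Agent.Work.MP_4cd38d_rs.Interface

set_option autoImplicit false

namespace Pool.RS

open Pool.Agent.Work.MP_4cd38d_lc
open Polynomial

theorem p_PDA (hPD1 : Stmt_PD1) (hPD2 : Stmt_PD2) : Stmt_PDA := by
  classical
  intro y ⟨F, P, hF, hy⟩ ⟨n₀, hn₀⟩
  set F' := F.filter (fun ρ => P ρ ≠ 0) with hF'
  have hy' : y = fun n : ℕ => ∑ ρ ∈ F', (P ρ).eval (n : ℝ) * ρ ^ n := by
    funext n
    rw [hy n, hF', Finset.sum_filter_of_ne]
    intro ρ _ h h0
    rw [h0] at h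
    simp at h
  have hne : F'.Nonempty := by
    rw [Finset.nonempty_iff_ne_empty]
    intro h
    apply hn₀
    rw [hy', h]
    simp
  set lam := F'.max' hne with hlam
  have hmem : lam ∈ F' := Finset.max'_mem _ _
  have hP : P lam ≠ 0 := (Finset.mem_filter.1 hmem).2
  have hF'' : ∀ ρ ∈ F', 0 < ρ ∧ ρ ≤ lam := fun ρ hρ =>
    ⟨hF ρ (Finset.mem_filter.1 hρ).1, Finset.le_max' _ _ hρ⟩
  set p : ℝ[X] := ∏ ρ ∈ F', (X - C ρ) ^ ((P ρ).natDegree + 1) with hp
  have hpm : p.Monic := monic_prod_of_monic _ _ fun ρ _ => (monic_X_sub_C ρ).pow _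
  refine ⟨lam, (P lam).natDegree, (hF'' lam hmem).1, ?_, p, ⟨hpm, ?_, ?_⟩, ?_, ?_⟩
  · rw [hy']
    exact hPD2 F' P lam hF'' hmem hP
  · exact Splits.prod fun ρ _ => (Splits.X_sub_C ρ).pow _
  · intro x hx
    rw [IsRoot.def, hp, eval_prod, Finset.prod_eq_zero_iff] at hx
    obtain ⟨ρ, hρ, h⟩ := hx
    rw [eval_pow, eval_sub, eval_X, eval_C] at h
    have : x = ρ := by
      have := pow_eq_zero_iff (Nat.succ_ne_zero _) |>.1 h
      linarith
    rw [this]
    exact hF'' ρ hρ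
  · have h1 : p = (X - C lam) ^ ((P lam).natDegree + 1) *
        ∏ ρ ∈ F'.erase lam, (X - C ρ) ^ ((P ρ).natDegree + 1) := by
      rw [hp, Finset.mul_prod_erase F' (fun ρ => (X - C ρ) ^ ((P ρ).natDegree + 1)) hmem]
    have h2 : (∏ ρ ∈ F'.erase lam, (X - C ρ) ^ ((P ρ).natDegree + 1)).rootMultiplicity lam = 0 := by
      apply rootMultiplicity_eq_zero
      rw [IsRoot.def, eval_prod, Finset.prod_eq_zero_iff]
      rintro ⟨ρ, hρ, h⟩
      rw [eval_pow, eval_sub, eval_X, eval_C] at h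
      have h3 := pow_eq_zero_iff (Nat.succ_ne_zero _) |>.1 h
      exact (Finset.mem_erase.1 hρ).1 (by linarith)
    rw [h1, rootMultiplicity_mul (by rw [← h1]; exact hpm.ne_zero), h2,
      rootMultiplicity_X_sub_C_pow]
  · rw [hp, hy']
    exact hPD1 F' P

end Pool.RS
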