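import Pool.Agent.Work.MP_4cd38d_rs.Interface

set_option autoImplicit false

namespace Pool.RS

open Pool.Agent.Work.MP_4cd38d_lc
open Polynomial

lemma PE1_sub (ρ : ℝ) (y : ℕ → ℝ) (n : ℕ) :
    pE (X - C ρ) y n = y (n + 1) - ρ * y n := by
  unfold pE
  rw [map_sub, aeval_X, aeval_C]
  rfl

lemma PE1_mul (p q : ℝ[X]) (y : ℕ → ℝ) : pE (p * q) y = pE p (pE q y) := by
  unfold pE
  rw [map_mul]
  rfl

theorem p_PE1 (hPES : Stmt_PES) : Stmt_PE1 := by
  intro p
  induction h : p.natDegree generalizing p with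
  | zero =>
    intro y hm hs hr h0
    rw [hm.natDegree_eq_zero] at h
    rw [h] at h0
    have h1 : pE 1 y = y := by unfold pE; rw [map_one]; rfl
    rw [h1] at h0
    rw [h0]
    exact ⟨∅, fun _ => 0, by simp, by simp⟩
  | succ d ih =>
    intro y hm hs hr h0
    obtain ⟨ρ, hρ⟩ := hs.exists_eval_eq_zero (by
      intro h1
      rw [degree_eq_natDegree hm.ne_zero, h] at h1
      exact absurd h1 (by exact_mod_cast Nat.succ_ne_zero d))
    have hroot : p.IsRoot ρ := hρ
    obtain ⟨q, hq⟩ := dvd_iff_isRoot.2 hroot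
    have hqm : q.Monic := (monic_X_sub_C ρ).of_mul_monic_left (hq ▸ hm)
    have hqs : q.Splits := by rw [hq, splits_X_sub_C_mul_iff] at hs; exact hs
    have hqd : q.natDegree = d := by
      rw [hq, (monic_X_sub_C ρ).natDegree_mul hqm, natDegree_X_sub_C] at h
      omega
    have hz : PExp (pE (X - C ρ) y) := by
      refine ih q hqd _ hqm hqs ?_ ?_
      · intro τ hτ
        apply hr
        rw [hq, IsRoot.def, eval_mul, hτ.eq_zero, mul_zero]
      · rw [← PE1_mul, mul_comm, ← hq]
        exact h0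
    refine hPES ρ y _ (hr ρ hroot) hz fun n => ?_
    rw [PE1_sub]
    ring

end Pool.RS
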