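import Pool.Agent.Work.MP_4cd38d_rs.Interface

set_option autoImplicit false

/-! # Block PEC: closure properties of exponential polynomials -/

namespace Pool.RS

open Pool.Agent.Work.MP_4cd38d_lc
open Polynomial

theorem PEC_add (y z : ℕ → ℝ) (hy : PExp y) (hz : PExp z) : PExp (fun n => y n + z n) := by
  classical
  obtain ⟨F, P, hF, hP⟩ := hy
  obtain ⟨G, Q, hG, hQ⟩ := hz
  refine ⟨F ∪ G, fun ρ => (if ρ ∈ F then P ρ else 0) + (if ρ ∈ G then Q ρ else 0), ?_, ?_⟩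
  · intro ρ hρ
    rcases Finset.mem_union.1 hρ with h | h
    · exact hF ρ h
    · exact hG ρ h
  · intro n
    have h1 : ∑ ρ ∈ F, (P ρ).eval (n : ℝ) * ρ ^ n =
        ∑ ρ ∈ F ∪ G, (if ρ ∈ F then P ρ else 0).eval (n : ℝ) * ρ ^ n := by
      rw [← Finset.sum_subset (Finset.subset_union_left (s₁ := F) (s₂ := G))]
      · refine Finset.sum_congr rfl fun ρ hρ => ?_
        rw [if_pos hρ]
      · intro ρ _ hρ
        rw [if_neg hρ, eval_zero, zero_mul]
    have h2 : ∑ ρ ∈ G, (Q ρ).eval (n : ℝ) * ρ ^ n =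
        ∑ ρ ∈ F ∪ G, (if ρ ∈ G then Q ρ else 0).eval (n : ℝ) * ρ ^ n := by
      rw [← Finset.sum_subset (Finset.subset_union_right (s₁ := F) (s₂ := G))]
      · refine Finset.sum_congr rfl fun ρ hρ => ?_
        rw [if_pos hρ]
      · intro ρ _ hρ
        rw [if_neg hρ, eval_zero, zero_mul]
    show y n + z n = _
    rw [hP n, hQ n, h1, h2, ← Finset.sum_add_distrib]
    refine Finset.sum_congr rfl fun ρ _ => ?_
    rw [eval_add, add_mul]

theorem PEC_single (P : ℝ[X]) (ρ : ℝ) (hρ : 0 < ρ) : PExp (fun n => P.eval (n : ℝ) * ρ ^ n) := by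
  refine ⟨{ρ}, fun _ => P, ?_, ?_⟩
  · intro σ hσ
    rw [Finset.mem_singleton.1 hσ]
    exact hρ
  · intro n
    rw [Finset.sum_singleton]

theorem PEC_zero : PExp (fun _ => 0) := by
  refine ⟨∅, fun _ => 0, ?_, ?_⟩
  · intro σ hσ
    simp at hσ
  · intro n
    simp

theorem PEC_sum (ι : Type) (s : Finset ι) (f : ι → ℕ → ℝ) (h : ∀ i ∈ s, PExp (f i)) :
    PExp (fun n => ∑ i ∈ s, f i n) := by
  classical
  induction s using Finset.induction_on with
  | empty =>
    simp only [Finset.sum_empty]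
    exact PEC_zero
  | insert a s ha ih =>
    simp only [Finset.sum_insert ha]
    exact PEC_add _ _ (h a (Finset.mem_insert_self a s))
      (ih fun i hi => h i (Finset.mem_insert_of_mem hi))

theorem PEC_mul (y z : ℕ → ℝ) (hy : PExp y) (hz : PExp z) : PExp (fun n => y n * z n) := by
  obtain ⟨F, P, hF, hP⟩ := hy
  obtain ⟨G, Q, hG, hQ⟩ := hz
  have h1 : (fun n => y n * z n) =
      fun n : ℕ => ∑ ρ ∈ F, ∑ σ ∈ G, (P ρ * Q σ).eval (n : ℝ) * (ρ * σ) ^ n := by
    funext n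
    rw [hP n, hQ n, Finset.sum_mul_sum]
    refine Finset.sum_congr rfl fun ρ _ => Finset.sum_congr rfl fun σ _ => ?_
    rw [eval_mul, mul_pow]
    ring
  rw [h1]
  exact PEC_sum ℝ F _ fun ρ hρ => PEC_sum ℝ G _ fun σ hσ =>
    PEC_single (P ρ * Q σ) (ρ * σ) (mul_pos (hF ρ hρ) (hG σ hσ))

theorem p_PEC : Stmt_PEC := by
  refine ⟨PEC_add, PEC_mul, ?_, ?_⟩
  · intro c
    have h := PEC_single (C c) 1 one_pos
    simpa using h
  · intro y m hy
    obtain ⟨F, P, hF, hP⟩ := hy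
    refine ⟨F, fun ρ => (P ρ).comp (X + C (m : ℝ)) * C (ρ ^ m), hF, fun n => ?_⟩
    show y (m + n) = _
    rw [hP (m + n)]
    refine Finset.sum_congr rfl fun ρ _ => ?_
    rw [eval_mul, eval_comp, eval_C, eval_add, eval_X, eval_C, pow_add, Nat.cast_add,
      add_comm (m : ℝ) (n : ℝ)]
    ring

end Pool.RS
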