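import Pool.Agent.Work.MP_4cd38d_rs.Interface

set_option autoImplicit false

namespace Pool.RS

open Pool.Agent.Work.MP_4cd38d_lc
open Polynomial

lemma PEM_eig {ι : Type} [Fintype ι] [DecidableEq ι] (B : Matrix ι ι ℂ) (μ : ℂ)
    (h : B.charpoly.IsRoot μ) : Eig (fun a b => B a b) μ := by
  rw [IsRoot.def, Matrix.eval_charpoly] at h
  obtain ⟨v, hv, hv0⟩ := Matrix.exists_mulVec_eq_zero_iff.2 h
  refine ⟨v, ?_, fun a => ?_⟩
  · by_contra hc
    push Not at hc
    exact hv (funext hc)
  · have h1 := congrFun hv0 a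
    rw [Matrix.sub_mulVec, Pi.sub_apply, Pi.zero_apply, sub_eq_zero] at h1
    have h2 : ((Matrix.scalar ι) μ).mulVec v a = μ * v a := by
      rw [Matrix.scalar_apply, Matrix.mulVec_diagonal]
    rw [h2] at h1
    rw [h1]
    rfl

lemma PEM_shf (k : ℕ) (y : ℕ → ℝ) (n : ℕ) : (shf ^ k) y n = y (n + k) := by
  induction k generalizing n with
  | zero => rfl
  | succ k ih =>
    rw [pow_succ', Module.End.mul_apply]
    change (shf ^ k) y (n + 1) = _
    rw [ih]
    congr 1
    ring

lemma PEM_act {ι : Type} [Fintype ι] [DecidableEq ι] (M : Matrix ι ι ℝ) (y : ℕ → ι → ℝ)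
    (hy : ∀ n a, y (n + 1) a = ∑ b, M a b * y n b) (q : ℝ[X]) (n : ℕ) (a : ι) :
    pE q (fun n => y n a) n = ((aeval M q).mulVec (y n)) a := by
  have hk : ∀ k n, y (n + k) = (M ^ k).mulVec (y n) := by
    intro k
    induction k with
    | zero => intro n; simp
    | succ k ih =>
      intro n
      rw [← add_assoc]
      have h1 : y (n + k + 1) = M.mulVec (y (n + k)) := by
        funext a
        exact hy (n + k) a
      rw [h1, ih, Matrix.mulVec_mulVec, ← pow_succ']
  unfold pE
  induction q using Polynomial.induction_on' with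
  | add p q hp hq =>
    rw [map_add, map_add, Matrix.add_mulVec, Pi.add_apply, ← hp, ← hq]
    rfl
  | monomial k c =>
    rw [aeval_monomial, aeval_monomial]
    have h1 : ((algebraMap ℝ (Module.End ℝ (ℕ → ℝ)) c * shf ^ k) (fun n => y n a)) n
        = c * y (n + k) a := by
      rw [Module.End.mul_apply, Module.algebraMap_end_apply, Pi.smul_apply, smul_eq_mul, PEM_shf]
    rw [h1, hk k n, ← Algebra.smul_def, Matrix.smul_mulVec, Pi.smul_apply, smul_eq_mul]

theorem p_PEM (hPE1 : Stmt_PE1) : Stmt_PEM := by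
  classical
  intro ι _ A hA y hy a
  set M : Matrix ι ι ℝ := Matrix.of A with hM
  have hroots : ∀ μ : ℂ, (M.charpoly.map (algebraMap ℝ ℂ)).IsRoot μ → Ps μ := by
    intro μ hμ
    rw [← Matrix.charpoly_map] at hμ
    exact hA μ (PEM_eig _ μ hμ)
  refine hPE1 M.charpoly _ (Matrix.charpoly_monic M) ?_ ?_ ?_
  · refine Splits.of_splits_map_of_injective (algebraMap ℝ ℂ).injective
      (IsAlgClosed.splits _) ?_
    intro μ hμ
    obtain ⟨t, _, ht⟩ := hroots μ (isRoot_of_mem_roots hμ)
    exact ⟨t, ht.symm⟩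
  · intro ρ hρ
    obtain ⟨t, ht, htt⟩ := hroots (ρ : ℂ) (hρ.map (f := algebraMap ℝ ℂ))
    have : ρ = t := by exact_mod_cast htt
    rw [this]
    exact ht
  · funext n
    rw [PEM_act M y hy, Matrix.aeval_self_charpoly]
    simp

end Pool.RS
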