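import Pool.Agent.Work.MP_4cd38d_rs.Interface

set_option autoImplicit false

/-! # Block PES: one step of a linear recurrence -/

namespace Pool.RS

open Pool.Agent.Work.MP_4cd38d_lc
open Polynomial

theorem PES_poly (ρ σ : ℝ) (hσ : 0 < σ) (d : ℕ) : ∀ P : ℝ[X], P.degree < d →
    ∃ Q : ℝ[X], ∀ x : ℝ, σ * Q.eval (x + 1) - ρ * Q.eval x = P.eval x := by
  induction d with
  | zero =>
    intro P hP
    refine ⟨0, fun x => ?_⟩
    have h0 : P = 0 := by
      by_contra hne
      rw [Polynomial.degree_eq_natDegree hne] at hP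
      exact absurd (by exact_mod_cast hP : P.natDegree < 0) (by omega)
    rw [h0]
    simp
  | succ d ih =>
    intro P hP
    have hPc := (Polynomial.degree_lt_iff_coeff_zero P (d + 1)).mp hP
    -- the approximate solution
    obtain ⟨Q₀, hQ₀⟩ : ∃ Q₀ : ℝ[X],
        (P - (C σ * Q₀.comp (X + 1) - C ρ * Q₀)).degree < d := by
      by_cases hne : σ = ρ
      · refine ⟨C (P.coeff d / (σ * (d + 1))) * X ^ (d + 1), ?_⟩
        rw [Polynomial.degree_lt_iff_coeff_zero]
        intro m hm
        have h1 : (C (P.coeff d / (σ * (d + 1))) * X ^ (d + 1) : ℝ[X]).comp (X + 1) =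
            C (P.coeff d / (σ * (d + 1))) * (X + 1) ^ (d + 1) := by
          simp
        rw [h1, coeff_sub, coeff_sub, coeff_C_mul, coeff_C_mul, coeff_C_mul, coeff_C_mul,
          Polynomial.coeff_X_add_one_pow, coeff_X_pow]
        have hd : (0 : ℝ) < (d : ℝ) + 1 := by positivity
        rcases Nat.lt_trichotomy m (d + 1) with h | h | h
        · have hmd : m = d := by omega
          rw [hmd, if_neg (by omega)]
          have h2 : (((d + 1).choose d : ℕ) : ℝ) = (d : ℝ) + 1 := by
            rw [Nat.choose_succ_self_right]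
            push_cast
            ring
          rw [h2]
          field_simp
          ring
        · rw [h, if_pos rfl, hPc (d + 1) (by omega), Nat.choose_self, hne]
          push_cast
          ring
        · rw [if_neg (by omega), hPc m (by omega), Nat.choose_eq_zero_of_lt h]
          push_cast
          ring
      · refine ⟨C (P.coeff d / (σ - ρ)) * X ^ d, ?_⟩
        rw [Polynomial.degree_lt_iff_coeff_zero]
        intro m hm
        have h1 : (C (P.coeff d / (σ - ρ)) * X ^ d : ℝ[X]).comp (X + 1) =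
            C (P.coeff d / (σ - ρ)) * (X + 1) ^ d := by
          simp
        rw [h1, coeff_sub, coeff_sub, coeff_C_mul, coeff_C_mul, coeff_C_mul, coeff_C_mul,
          Polynomial.coeff_X_add_one_pow, coeff_X_pow]
        have hsub : σ - ρ ≠ 0 := sub_ne_zero.mpr hne
        rcases Nat.eq_or_lt_of_le hm with h | h
        · rw [← h, if_pos rfl, Nat.choose_self]
          push_cast
          field_simp
          ring
        · rw [if_neg (by omega), hPc m (by omega), Nat.choose_eq_zero_of_lt h]
          push_cast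
          ring
    obtain ⟨Q₁, hQ₁⟩ := ih _ hQ₀
    refine ⟨Q₀ + Q₁, fun x => ?_⟩
    have h1 := hQ₁ x
    simp only [eval_sub, eval_mul, eval_C, eval_comp, eval_add, eval_X, eval_one] at h1 ⊢
    linarith

theorem p_PES : Stmt_PES := by
  classical
  intro ρ y h hρ hh hy
  obtain ⟨F, P, hF, hP⟩ := hh
  have hQ : ∀ σ : ℝ, ∃ Q : ℝ[X], σ ∈ F → ∀ x : ℝ,
      σ * Q.eval (x + 1) - ρ * Q.eval x = (P σ).eval x := by
    intro σ
    by_cases hσ : σ ∈ F
    · obtain ⟨Q, hQ⟩ := PES_poly ρ σ (hF σ hσ) ((P σ).natDegree + 1) (P σ) (by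
        have := Polynomial.degree_le_natDegree (p := P σ)
        refine lt_of_le_of_lt this ?_
        exact_mod_cast Nat.lt_succ_self _)
      exact ⟨Q, fun _ => hQ⟩
    · exact ⟨0, fun h1 => absurd h1 hσ⟩
  choose Q hQ using hQ
  set z : ℕ → ℝ := fun n => ∑ σ ∈ F, (Q σ).eval (n : ℝ) * σ ^ n with hz
  have hzr : ∀ n, z (n + 1) = ρ * z n + h n := by
    intro n
    rw [hP n]
    simp only [hz]
    rw [Finset.mul_sum, ← Finset.sum_add_distrib]
    refine Finset.sum_congr rfl fun σ hσ => ?_
    rw [← hQ σ hσ n, pow_succ]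
    push_cast
    ring
  have hw : ∀ n, y n - z n = (y 0 - z 0) * ρ ^ n := by
    intro n
    induction n with
    | zero => simp
    | succ n ih =>
      rw [hy n, hzr n, pow_succ, ← mul_assoc, ← ih]
      ring
  refine ⟨insert ρ F, fun σ => (if σ ∈ F then Q σ else 0) + (if σ = ρ then C (y 0 - z 0) else 0),
    fun σ hσ => ?_, fun n => ?_⟩
  · rw [Finset.mem_insert] at hσ
    rcases hσ with rfl | hσ
    · exact hρ
    · exact hF σ hσ
  · have h1 : ∑ σ ∈ insert ρ F, (if σ ∈ F then Q σ else 0).eval (n : ℝ) * σ ^ n = z n := by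
      simp only [hz]
      rw [← Finset.sum_subset (Finset.subset_insert ρ F)]
      · refine Finset.sum_congr rfl fun σ hσ => ?_
        rw [if_pos hσ]
      · intro σ _ hσ
        rw [if_neg hσ]
        simp
    have h2 : ∑ σ ∈ insert ρ F, (if σ = ρ then C (y 0 - z 0) else 0 : ℝ[X]).eval (n : ℝ) * σ ^ n =
        (y 0 - z 0) * ρ ^ n := by
      rw [Finset.sum_eq_single_of_mem ρ (Finset.mem_insert_self ρ F)]
      · rw [if_pos rfl, eval_C]
      · intro σ _ hσ
        rw [if_neg hσ]
        simp
    have h3 : y n = z n + (y 0 - z 0) * ρ ^ n := by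
      have := hw n
      linarith
    rw [h3, ← h1, ← h2, ← Finset.sum_add_distrib]
    refine Finset.sum_congr rfl fun σ _ => ?_
    rw [eval_add, add_mul]

end Pool.RS
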