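import Pool.Agent.Work.MP_4cd38d_rs.Interface

set_option autoImplicit false

namespace Pool.RS

open Pool.Agent.Work.MP_4cd38d_lc
open Primrec

lemma PRM_gb {α : Type} [Primcodable α] {c : α → Cert} {i j : α → ℕ} (hc : Primrec c)
    (hi : Primrec i) (hj : Primrec j) : Primrec fun x => gb (c x) (i x) (j x) :=
  (list_getD 0).comp ((list_getD []).comp (fst.comp (snd.comp hc)) hi) hj

lemma PRM_gy {α : Type} [Primcodable α] {c : α → Cert} {i j : α → ℕ} (hc : Primrec c)
    (hi : Primrec i) (hj : Primrec j) : Primrec fun x => gy (c x) (i x) (j x) :=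
  (list_getD 0).comp ((list_getD []).comp (snd.comp (snd.comp hc)) hi) hj

lemma PRM_len {α : Type} [Primcodable α] {c : α → Cert} (hc : Primrec c) :
    Primrec fun x => (c x).2.1.length :=
  list_length.comp (fst.comp (snd.comp hc))

lemma PRM_wid {α : Type} [Primcodable α] {a : α → Par} {c : α → Cert} (ha : Primrec a)
    (hc : Primrec c) : Primrec fun x => wid (a x) (c x) :=
  nat_add.comp (nat_add.comp (PRM_len hc) (primrec_ord.comp ha)) (Primrec.const 1)

lemma PRM_bad {α : Type} [Primcodable α] {a : α → Par} {k e n : α → ℕ} {c : α → Cert}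
    (ha : Primrec a) (hk : Primrec k) (he : Primrec e) (hn : Primrec n) (hc : Primrec c) :
    Primrec fun x => bad (a x) (k x) (e x) (n x) (c x) := by
  have t1 : Primrec fun x => 1 - (c x).1 := nat_sub.comp (Primrec.const 1) (fst.comp hc)
  have t2 : Primrec fun x => 1 - (c x).2.1.length :=
    nat_sub.comp (Primrec.const 1) (PRM_len hc)
  have t3 : Primrec fun x => ((List.range (wid (a x) (c x))).map fun r =>
      dst (gy (c x) 0 r) (sN (a x) (k x * (n x + r) + e x))).sum := by
    refine primrec_rsum (PRM_wid ha hc) ?_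
    have h1 : Primrec fun p : α × ℕ => gy (c p.1) 0 p.2 :=
      PRM_gy (hc.comp fst) (Primrec.const 0) snd
    have h2 : Primrec fun p : α × ℕ => k p.1 * (n p.1 + p.2) + e p.1 :=
      nat_add.comp (nat_mul.comp (hk.comp fst) (nat_add.comp (hn.comp fst) snd)) (he.comp fst)
    exact primrec_dst.comp h1 (primrec_sN.comp (ha.comp fst) h2)
  have t4 : Primrec fun x => ((List.range (c x).2.1.length).map fun i =>
      ((List.range (wid (a x) (c x) - 1)).map fun r =>
        dst ((c x).1 * gy (c x) i (r + 1)) (gy (c x) (i + 1) r +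
          ((List.range (i + 1)).map fun j => gb (c x) i j * gy (c x) j r).sum)).sum).sum := by
    refine primrec_rsum (PRM_len hc) ?_
    have h1 : Primrec fun p : α × ℕ => ((List.range (wid (a p.1) (c p.1) - 1)).map fun r =>
        dst ((c p.1).1 * gy (c p.1) p.2 (r + 1)) (gy (c p.1) (p.2 + 1) r +
          ((List.range (p.2 + 1)).map fun j => gb (c p.1) p.2 j * gy (c p.1) j r).sum)).sum := by
      refine primrec_rsum (nat_sub.comp (PRM_wid (ha.comp fst) (hc.comp fst))
        (Primrec.const 1)) ?_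
      have hc' : Primrec fun q : (α × ℕ) × ℕ => c q.1.1 := hc.comp (fst.comp fst)
      have hi' : Primrec fun q : (α × ℕ) × ℕ => q.1.2 := snd.comp fst
      have h2 : Primrec fun q : (α × ℕ) × ℕ => (c q.1.1).1 * gy (c q.1.1) q.1.2 (q.2 + 1) :=
        nat_mul.comp (fst.comp hc') (PRM_gy hc' hi' (succ.comp snd))
      have h3 : Primrec fun q : (α × ℕ) × ℕ => gy (c q.1.1) (q.1.2 + 1) q.2 :=
        PRM_gy hc' (succ.comp hi') snd
      have h4 : Primrec fun q : (α × ℕ) × ℕ =>
          ((List.range (q.1.2 + 1)).map fun j => gb (c q.1.1) q.1.2 j * gy (c q.1.1) j q.2).sum := by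
        refine primrec_rsum (succ.comp hi') ?_
        have h5 : Primrec fun s : ((α × ℕ) × ℕ) × ℕ =>
            gb (c s.1.1.1) s.1.1.2 s.2 * gy (c s.1.1.1) s.2 s.1.2 :=
          nat_mul.comp (PRM_gb (hc'.comp fst) (hi'.comp fst) snd)
            (PRM_gy (hc'.comp fst) snd (snd.comp fst))
        exact h5
      exact primrec_dst.comp h2 (nat_add.comp h3 h4)
    exact h1
  have t5 : Primrec fun x => ((List.range (ord (a x))).map fun r =>
      gy (c x) (c x).2.1.length r).sum := by
    refine primrec_rsum (primrec_ord.comp ha) ?_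
    have h1 : Primrec fun p : α × ℕ => gy (c p.1) (c p.1).2.1.length p.2 :=
      PRM_gy (hc.comp fst) (PRM_len (hc.comp fst)) snd
    exact h1
  have t6 : Primrec fun x => ((List.range (c x).2.1.length).map fun i =>
      (1 - gy (c x) i 0) + (1 - gy (c x) i 1)).sum := by
    refine primrec_rsum (PRM_len hc) ?_
    have h1 : Primrec fun p : α × ℕ => (1 - gy (c p.1) p.2 0) + (1 - gy (c p.1) p.2 1) :=
      nat_add.comp
        (nat_sub.comp (Primrec.const 1) (PRM_gy (hc.comp fst) snd (Primrec.const 0)))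
        (nat_sub.comp (Primrec.const 1) (PRM_gy (hc.comp fst) snd (Primrec.const 1)))
    exact h1
  exact nat_add.comp (nat_add.comp (nat_add.comp (nat_add.comp (nat_add.comp t1 t2) t3) t4) t5) t6

theorem p_PRM : Stmt_PRM := by
  have hp : Primrec fun x : ((HSystem × HSystem) × NCert) × ℕ => x.1.1 := fst.comp fst
  have hN : Primrec fun x : ((HSystem × HSystem) × NCert) × ℕ => x.1.2 := snd.comp fst
  have h1 : Primrec fun x : ((HSystem × HSystem) × NCert) × ℕ =>
      bad (x.1.1, x.1.2.1) (x.1.2.2.1 + 1) x.2 x.1.2.2.2.1 (x.1.2.2.2.2.getD x.2 (0, [], [])) :=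
    PRM_bad (hp.pair (fst.comp hN)) (succ.comp (fst.comp (snd.comp hN))) snd
      (fst.comp (snd.comp (snd.comp hN)))
      ((list_getD (0, [], [])).comp (snd.comp (snd.comp (snd.comp hN))) snd)
  have h2 : Primrec fun x : (HSystem × HSystem) × NCert =>
      ((List.range (x.2.2.1 + 1)).map fun e =>
        bad (x.1, x.2.1) (x.2.2.1 + 1) e x.2.2.2.1 (x.2.2.2.2.getD e (0, [], []))).sum :=
    primrec_rsum (succ.comp (fst.comp (snd.comp snd))) h1
  have h3 : Primrec fun x : ((HSystem × HSystem) × NCert) × ℕ =>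
      if term x.1.1.1 x.2 = term x.1.1.2 x.2 then 1 else 0 :=
    Primrec.ite (Primrec.eq.comp (primrec_term.comp (fst.comp hp) snd)
      (primrec_term.comp (snd.comp hp) snd)) (Primrec.const 1) (Primrec.const 0)
  have h4 : Primrec fun x : (HSystem × HSystem) × NCert =>
      ((List.range ((x.2.2.1 + 1) * x.2.2.2.1)).map fun n =>
        if term x.1.1 n = term x.1.2 n then 1 else 0).sum :=
    primrec_rsum (nat_mul.comp (succ.comp (fst.comp (snd.comp snd)))
      (fst.comp (snd.comp (snd.comp snd)))) h3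
  exact nat_add.comp h2 h4

end Pool.RS
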