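import Pool.Agent.Work.MP_4cd38d_rs.Interface

set_option autoImplicit false

/-! # MP_4cd38d, block PWE: eigenvalues of powers -/

namespace Pool.RS

open Pool.Agent.Work.MP_4cd38d_lc
open Polynomial

theorem PWE_count {Γ : Type} [Fintype Γ] [DecidableEq Γ] (g : Γ → List Γ) (w : List Γ) (b : Γ) :
    (w.flatMap g).count b = ∑ c, w.count c * (g c).count b := by
  induction w with
  | nil => simp
  | cons x w ih =>
    rw [List.flatMap_cons, List.count_append, ih]
    have h : ∀ c, (x :: w).count c * (g c).count b =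
        w.count c * (g c).count b + (if x = c then (g c).count b else 0) := by
      intro c
      rw [List.count_cons]
      by_cases h : x = c
      · simp [h, add_mul]
      · simp [h]
    rw [Finset.sum_congr rfl fun c _ => h c, Finset.sum_add_distrib, Finset.sum_ite_eq]
    simp only [Finset.mem_univ, if_true]
    exact Nat.add_comm _ _

theorem PWE_pow {Γ : Type} [Fintype Γ] [DecidableEq Γ] (g : Γ → List Γ) (k : ℕ) :
    Matrix.of (inc (pw g k)) = (Matrix.of (inc g)) ^ k := by
  induction k with
  | zero =>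
    ext a b
    rw [pow_zero, Matrix.of_apply, Matrix.one_apply]
    change (([a] : List Γ).count b : ℂ) = _
    rw [List.count_singleton]
    by_cases h : a = b
    · simp [h]
    · simp [h]
  | succ k ih =>
    rw [pow_succ, ← ih]
    ext a b
    rw [Matrix.mul_apply]
    change (((mo g)^[k + 1] [a]).count b : ℂ) = _
    rw [Function.iterate_succ_apply']
    change ((((mo g)^[k] [a]).flatMap g).count b : ℂ) = _
    rw [PWE_count]
    push_cast
    rfl

theorem PWE_iff {Γ : Type} [Fintype Γ] [DecidableEq Γ] (A : Γ → Γ → ℂ) (μ : ℂ) :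
    Eig A μ ↔ Module.End.HasEigenvalue (Matrix.toLin' (Matrix.of A)) μ := by
  have key : ∀ v : Γ → ℂ, (∀ a, ∑ b, A a b * v b = μ * v a) ↔
      Matrix.toLin' (Matrix.of A) v = μ • v := by
    intro v
    rw [Matrix.toLin'_apply]
    constructor
    · intro h
      funext a
      exact h a
    · intro h a
      exact congrFun h a
  constructor
  · rintro ⟨v, ⟨a, ha⟩, hv⟩
    refine Module.End.hasEigenvalue_of_hasEigenvector (x := v) ?_
    refine ⟨Module.End.mem_eigenspace_iff.2 ((key v).1 hv), ?_⟩
    intro h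
    exact ha (congrFun h a)
  · intro h
    obtain ⟨v, hv⟩ := h.exists_hasEigenvector
    refine ⟨v, ?_, (key v).2 (Module.End.mem_eigenspace_iff.1 hv.1)⟩
    by_contra hne
    push Not at hne
    exact hv.2 (funext hne)

theorem p_PWE : Stmt_PWE := by
  intro Γ _ _ g k μ hμ
  obtain ⟨v, ⟨a, ha⟩, -⟩ := id hμ
  have : Nonempty Γ := ⟨a⟩
  rw [PWE_iff, PWE_pow, Matrix.toLin'_pow, Module.End.hasEigenvalue_iff_mem_spectrum] at hμ
  have hne : (spectrum ℂ (Matrix.toLin' (Matrix.of (inc g)))).Nonempty :=
    spectrum.nonempty_of_isAlgClosed_of_finiteDimensional ℂ _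
  rw [spectrum.map_pow_of_nonempty hne] at hμ
  obtain ⟨τ, hτ, hτk⟩ := hμ
  refine ⟨τ, ?_, hτk⟩
  rw [PWE_iff, Module.End.hasEigenvalue_iff_mem_spectrum]
  exact hτ

end Pool.RS
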