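import Pool.Agent.Work.MP_4cd38d_rs.Interface

set_option autoImplicit false

/-! # MP_4cd38d, block PWH: powers of morphisms -/

namespace Pool.RS

open Pool.Agent.Work.MP_4cd38d_lc
open Polynomial

theorem PWH_append {Γ : Type} (g : Γ → List Γ) (k : ℕ) (u v : List Γ) :
    (mo g)^[k] (u ++ v) = (mo g)^[k] u ++ (mo g)^[k] v := by
  induction k generalizing u v with
  | zero => rfl
  | succ k ih =>
    rw [Function.iterate_succ_apply, Function.iterate_succ_apply, Function.iterate_succ_apply]
    have h : mo g (u ++ v) = mo g u ++ mo g v := List.flatMap_append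
    rw [h, ih]

theorem PWH_nil {Γ : Type} (g : Γ → List Γ) (k : ℕ) : (mo g)^[k] ([] : List Γ) = [] := by
  induction k with
  | zero => rfl
  | succ k ih =>
    rw [Function.iterate_succ_apply]
    exact ih

theorem PWH_pow {Γ : Type} (g : Γ → List Γ) (k : ℕ) : mo (pw g k) = (mo g)^[k] := by
  funext w
  induction w with
  | nil => exact (PWH_nil g k).symm
  | cons x w ih =>
    have h1 : mo (pw g k) (x :: w) = pw g k x ++ mo (pw g k) w := rfl
    rw [h1, ih]
    have h2 : x :: w = [x] ++ w := rfl
    rw [h2, PWH_append]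
    rfl

theorem p_PWH : Stmt_PWH := by
  intro Γ D g G u k n e
  have h1 : hd0l g G u (k * n + e) = ((mo g)^[k * n + e] u).flatMap G := rfl
  have h2 : hd0l (pw g k) G ((mo g)^[e] u) n = ((mo (pw g k))^[n] ((mo g)^[e] u)).flatMap G := rfl
  rw [h1, h2, PWH_pow, Function.iterate_add_apply, Function.iterate_mul]

end Pool.RS
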