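import Pool.Agent.Work.MP_4cd38d_rs.Interface

set_option autoImplicit false

namespace Pool.RS

open Pool.Agent.Work.MP_4cd38d_lc
open Polynomial

/-- the sequences `y i` of the docstring -/
def SND_y (s : ℕ → ℤ) (D : ℤ) (b : ℕ → ℕ → ℤ) : ℕ → ℕ → ℤ
  | 0, r => s r
  | i + 1, r => D * SND_y s D b i (r + 1) - ∑ j : Fin (i + 1), b i j.1 * SND_y s D b j.1 r
termination_by i => i

theorem SND_y0 (s : ℕ → ℤ) (D : ℤ) (b : ℕ → ℕ → ℤ) (r : ℕ) : SND_y s D b 0 r = s r := by
  rw [SND_y]

theorem SND_ys (s : ℕ → ℤ) (D : ℤ) (b : ℕ → ℕ → ℤ) (i r : ℕ) :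
    D * SND_y s D b i (r + 1) = SND_y s D b (i + 1) r +
      ∑ j ∈ Finset.range (i + 1), b i j * SND_y s D b j r := by
  have h : SND_y s D b (i + 1) r =
      D * SND_y s D b i (r + 1) - ∑ j : Fin (i + 1), b i j.1 * SND_y s D b j.1 r := by
    rw [SND_y]
  rw [h, Finset.sum_range]
  ring

theorem SND_rec (s : ℕ → ℤ) (D : ℤ) (b : ℕ → ℕ → ℤ) (d : ℕ) (q : ℕ → ℤ)
    (hs : ∀ n, s (n + d) = ∑ i ∈ Finset.range d, q i * s (n + i)) (i : ℕ) :
    ∀ n, SND_y s D b i (n + d) = ∑ l ∈ Finset.range d, q l * SND_y s D b i (n + l) := by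
  induction i using Nat.strong_induction_on with
  | _ i ih =>
    rcases i with _ | i
    · intro n
      simp only [SND_y0]
      exact hs n
    · intro n
      have hrow : ∀ m, SND_y s D b (i + 1) m = D * SND_y s D b i (m + 1) -
          ∑ j ∈ Finset.range (i + 1), b i j * SND_y s D b j m := by
        intro m
        have := SND_ys s D b i m
        linarith
      rw [hrow (n + d)]
      have h1 : SND_y s D b i (n + d + 1) =
          ∑ l ∈ Finset.range d, q l * SND_y s D b i (n + l + 1) := by
        have h2 := ih i (by omega) (n + 1)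
        have h3 : n + 1 + d = n + d + 1 := by ring
        rw [h3] at h2
        rw [h2]
        apply Finset.sum_congr rfl
        intro l _
        have h4 : n + 1 + l = n + l + 1 := by ring
        rw [h4]
      have h2 : ∑ j ∈ Finset.range (i + 1), b i j * SND_y s D b j (n + d) =
          ∑ l ∈ Finset.range d, q l * ∑ j ∈ Finset.range (i + 1), b i j * SND_y s D b j (n + l) := by
        calc ∑ j ∈ Finset.range (i + 1), b i j * SND_y s D b j (n + d)
            = ∑ j ∈ Finset.range (i + 1), b i j *
                ∑ l ∈ Finset.range d, q l * SND_y s D b j (n + l) := by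
              apply Finset.sum_congr rfl
              intro j hj
              rw [ih j (by rw [Finset.mem_range] at hj; omega) n]
          _ = ∑ j ∈ Finset.range (i + 1), ∑ l ∈ Finset.range d,
                q l * (b i j * SND_y s D b j (n + l)) := by
              apply Finset.sum_congr rfl
              intro j _
              rw [Finset.mul_sum]
              apply Finset.sum_congr rfl
              intro l _
              ring
          _ = _ := by
              rw [Finset.sum_comm]
              apply Finset.sum_congr rfl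
              intro l _
              rw [Finset.mul_sum]
      rw [h1, h2, Finset.mul_sum, ← Finset.sum_sub_distrib]
      apply Finset.sum_congr rfl
      intro l _
      rw [hrow (n + l)]
      ring

theorem SND_unpack {a : Par} {k e n₁ : ℕ} {c : Cert} (h : bad a k e n₁ c = 0) :
    1 ≤ c.1 ∧ 1 ≤ c.2.1.length ∧
    (∀ r < wid a c, gy c 0 r = sN a (k * (n₁ + r) + e)) ∧
    (∀ i < c.2.1.length, ∀ r < wid a c - 1, c.1 * gy c i (r + 1) = gy c (i + 1) r +
      ∑ j ∈ Finset.range (i + 1), gb c i j * gy c j r) ∧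
    (∀ r < ord a, gy c c.2.1.length r = 0) ∧
    (∀ i < c.2.1.length, 1 ≤ gy c i 0 ∧ 1 ≤ gy c i 1) := by
  unfold bad at h
  simp only [Nat.add_eq_zero_iff] at h
  obtain ⟨⟨⟨⟨⟨h1, h2⟩, h3⟩, h4⟩, h5⟩, h6⟩ := h
  rw [List.sum_eq_zero_iff] at h3 h4 h5 h6
  refine ⟨by omega, by omega, ?_, ?_, ?_, ?_⟩
  · intro r hr
    exact dst_eq_zero.1 (h3 _ (List.mem_map.2 ⟨r, List.mem_range.2 hr, rfl⟩))
  · intro i hi r hr
    have h7 := h4 _ (List.mem_map.2 ⟨i, List.mem_range.2 hi, rfl⟩)
    rw [List.sum_eq_zero_iff] at h7
    have h8 := dst_eq_zero.1 (h7 _ (List.mem_map.2 ⟨r, List.mem_range.2 hr, rfl⟩))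
    rw [h8]
    congr 1
  · intro r hr
    exact h5 _ (List.mem_map.2 ⟨r, List.mem_range.2 hr, rfl⟩)
  · intro i hi
    have h7 := h6 _ (List.mem_map.2 ⟨i, List.mem_range.2 hi, rfl⟩)
    omega

theorem p_SND (hSUB : Stmt_SUB) : Stmt_SND := by
  intro a k e n₁ c hbad
  obtain ⟨hD, hT, H2, H3, H4, H5⟩ := SND_unpack hbad
  set T := c.2.1.length with hTdef
  have hw : wid a c = T + ord a + 1 := rfl
  have ho := ord_pos a
  obtain ⟨q, hq⟩ := coded_recurrence a
  obtain ⟨q', hq'⟩ := hSUB (ord a) q (fun n => (sN a n : ℤ)) ho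
    (fun n => by simp only [sN_eq]; exact hq n) k (k * n₁ + e)
  set s : ℕ → ℤ := fun r => (sN a (k * (n₁ + r) + e) : ℤ) with hs
  have hsrec : ∀ n, s (n + ord a) = ∑ i ∈ Finset.range (ord a), q' i * s (n + i) := by
    intro n
    have h1 := hq' n
    have h2 : ∀ m, k * m + (k * n₁ + e) = k * (n₁ + m) + e := fun m => by ring
    simp only [h2] at h1
    exact h1
  set b : ℕ → ℕ → ℤ := fun i j => (gb c i j : ℤ) with hb
  set y := SND_y s (c.1 : ℤ) b with hy
  have hyrec := SND_rec s (c.1 : ℤ) b (ord a) q' hsrec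
  have hys := SND_ys s (c.1 : ℤ) b
  -- the table
  have htab : ∀ i, i ≤ T → ∀ r, r + i < wid a c → (gy c i r : ℤ) = y i r := by
    intro i
    induction i using Nat.strong_induction_on with
    | _ i ih =>
      rcases i with _ | i
      · intro _ r hr
        rw [H2 r (by omega), hy, SND_y0]
      · intro hi r hr
        have h1 := H3 i (by omega) r (by omega)
        have h2 := hys i r
        have h3 : ((c.1 * gy c i (r + 1) : ℕ) : ℤ) = ((gy c (i + 1) r +
            ∑ j ∈ Finset.range (i + 1), gb c i j * gy c j r : ℕ) : ℤ) := by rw [h1]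
        push_cast at h3
        rw [ih i (by omega) (by omega) (r + 1) (by omega)] at h3
        have h4 : ∑ j ∈ Finset.range (i + 1), (gb c i j : ℤ) * (gy c j r : ℤ) =
            ∑ j ∈ Finset.range (i + 1), b i j * y j r := by
          apply Finset.sum_congr rfl
          intro j hj
          rw [Finset.mem_range] at hj
          rw [ih j (by omega) (by omega) r (by omega)]
        rw [h4] at h3
        have h5 : (c.1 : ℤ) * y i (r + 1) = y (i + 1) r +
            ∑ j ∈ Finset.range (i + 1), b i j * y j r := h2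
        linarith
  -- the last row vanishes
  have hyT : ∀ n, y T n = 0 := by
    intro n
    induction n using Nat.strong_induction_on with
    | _ n ih =>
      by_cases hn : n < ord a
      · rw [← htab T le_rfl n (by omega), H4 n hn]
        rfl
      · obtain ⟨n', rfl⟩ : ∃ n', n = n' + ord a := ⟨n - ord a, by omega⟩
        rw [hy, hyrec T n']
        apply Finset.sum_eq_zero
        intro l hl
        rw [Finset.mem_range] at hl
        have := ih (n' + l) (by omega)
        rw [hy] at this
        rw [this, mul_zero]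
  obtain ⟨T', hT'⟩ : ∃ T', T = T' + 1 := ⟨T - 1, by omega⟩
  have hpos0 : ∀ i < T, 0 < y i 0 := by
    intro i hi
    rw [← htab i hi.le 0 (by omega)]
    exact_mod_cast (H5 i hi).1
  have hbnn : ∀ i j, 0 ≤ b i j := fun i j => by simp [hb]
  -- a positive entry in the last row of `b`
  have hex : ∃ j ∈ Finset.range (T' + 1), 0 < b T' j := by
    by_contra hcon
    push Not at hcon
    have h1 : (c.1 : ℤ) * y T' 1 = y (T' + 1) 0 +
        ∑ j ∈ Finset.range (T' + 1), b T' j * y j 0 := hys T' 0
    have h2 : 0 < y T' 1 := by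
      rw [← htab T' (by omega) 1 (by omega)]
      exact_mod_cast (H5 T' (by omega)).2
    have h3 : ∑ j ∈ Finset.range (T' + 1), b T' j * y j 0 = 0 := by
      apply Finset.sum_eq_zero
      intro j hj
      rw [le_antisymm (hcon j hj) (hbnn _ _), zero_mul]
    have h4 := hyT 0
    rw [hT'] at h4
    rw [h3, h4, add_zero] at h1
    have h5 : (0 : ℤ) < c.1 := by exact_mod_cast hD
    have h6 := mul_pos h5 h2
    omega
  obtain ⟨j₀, hj₀, hbj⟩ := hex
  have hpos : ∀ r, ∀ i < T, 0 < y i r := by
    intro r
    induction r with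
    | zero => exact hpos0
    | succ r ih =>
      intro i hi
      have h1 : (c.1 : ℤ) * y i (r + 1) = y (i + 1) r +
          ∑ j ∈ Finset.range (i + 1), b i j * y j r := hys i r
      have h2 : ∀ j ∈ Finset.range (i + 1), 0 ≤ b i j * y j r := by
        intro j hj
        rw [Finset.mem_range] at hj
        exact mul_nonneg (hbnn _ _) (ih j (by omega)).le
      have h3 : 0 < y (i + 1) r + ∑ j ∈ Finset.range (i + 1), b i j * y j r := by
        by_cases hi2 : i + 1 < T
        · have h4 := ih (i + 1) hi2
          have h5 := Finset.sum_nonneg h2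
          linarith
        · have hiT : i = T' := by omega
          subst hiT
          have h4 := hyT r
          rw [hT'] at h4
          rw [h4, zero_add]
          exact Finset.sum_pos' h2 ⟨j₀, hj₀, mul_pos hbj
            (ih j₀ (by rw [Finset.mem_range] at hj₀; omega))⟩
      rw [← h1] at h3
      exact pos_of_mul_pos_right h3 (by positivity)
  intro n hn
  have h1 := hpos (n - n₁) 0 (by omega)
  have h2 : y 0 (n - n₁) = (sN a (k * n + e) : ℤ) := by
    rw [hy, SND_y0, hs]
    have h3 : n₁ + (n - n₁) = n := by omega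
    simp only [h3]
  rw [h2] at h1
  exact_mod_cast h1

end Pool.RS
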