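import Pool.Agent.Work.MP_4cd38d_rs.Interface

set_option autoImplicit false

/-! # MP_4cd38d, block SUB: the recurrence of a subsequence -/

namespace Pool.RS

open Pool.Agent.Work.MP_4cd38d_lc
open Polynomial

/-- the companion matrix -/
def SUB_A (d : ℕ) (q : ℕ → ℤ) : Matrix (Fin d) (Fin d) ℤ := fun i j =>
  if (i : ℕ) + 1 = d then q j else if (j : ℕ) = i + 1 then 1 else 0

theorem SUB_step {d : ℕ} {q s : ℕ → ℤ}
    (h : ∀ n, s (n + d) = ∑ i ∈ Finset.range d, q i * s (n + i)) (n : ℕ) :
    (SUB_A d q).mulVec (fun i : Fin d => s (n + i)) = fun i : Fin d => s (n + 1 + i) := by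
  funext i
  change ∑ j : Fin d, SUB_A d q i j * s (n + j) = s (n + 1 + i)
  by_cases hi : (i : ℕ) + 1 = d
  · have e : n + 1 + (i : ℕ) = n + d := by omega
    rw [e, h n, ← Fin.sum_univ_eq_sum_range (fun j => q j * s (n + j)) d]
    apply Finset.sum_congr rfl
    intro j _
    unfold SUB_A
    rw [if_pos hi]
  · have hi' : (i : ℕ) + 1 < d := by
      have := i.2
      omega
    rw [Finset.sum_eq_single (⟨(i : ℕ) + 1, hi'⟩ : Fin d)]
    · unfold SUB_A
      rw [if_neg hi, if_pos rfl, one_mul]
      congr 1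
      change n + ((i : ℕ) + 1) = n + 1 + (i : ℕ)
      omega
    · intro j _ hj
      unfold SUB_A
      rw [if_neg hi, if_neg, zero_mul]
      intro h1
      exact hj (Fin.ext h1)
    · intro h1
      exact (h1 (Finset.mem_univ _)).elim

theorem SUB_pow {d : ℕ} {q s : ℕ → ℤ}
    (h : ∀ n, s (n + d) = ∑ i ∈ Finset.range d, q i * s (n + i)) (n k : ℕ) :
    (SUB_A d q ^ k).mulVec (fun i : Fin d => s (n + i)) = fun i : Fin d => s (n + k + i) := by
  induction k with
  | zero => rw [pow_zero, Matrix.one_mulVec, Nat.add_zero]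
  | succ k ih =>
    rw [pow_succ', ← Matrix.mulVec_mulVec, ih, SUB_step h (n + k)]
    funext i
    congr 1

theorem p_SUB : Stmt_SUB := by
  intro d q s hd h k e
  obtain ⟨a, q', ha0, ha1, ha⟩ := exists_matrix_recurrence (SUB_A d q ^ k)
  rw [Fintype.card_fin] at ha
  refine ⟨q', ?_⟩
  have key : ∀ n : ℕ, ∀ i : Fin d, s (k * n + e + i) = ∑ j : Fin d, a n i j * s (e + j) := by
    intro n
    induction n with
    | zero =>
      intro i
      rw [Finset.sum_eq_single i]
      · rw [ha0, if_pos rfl, one_mul, Nat.mul_zero, Nat.zero_add]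
      · intro j _ hj
        rw [ha0, if_neg (Ne.symm hj), zero_mul]
      · intro h1
        exact (h1 (Finset.mem_univ _)).elim
    | succ n ih =>
      intro i
      have h1 := congrFun (SUB_pow h (k * n + e) k) i
      change ∑ l : Fin d, (SUB_A d q ^ k) i l * s (k * n + e + l) = s (k * n + e + k + i) at h1
      have e1 : k * (n + 1) + e + (i : ℕ) = k * n + e + k + i := by ring
      rw [e1, ← h1]
      simp_rw [ih, ha1, Finset.mul_sum, Finset.sum_mul]
      rw [Finset.sum_comm]
      apply Finset.sum_congr rfl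
      intro j _
      apply Finset.sum_congr rfl
      intro l _
      rw [mul_assoc]
  intro n
  have h0 : ∀ m, s (k * m + e) = ∑ j : Fin d, a m ⟨0, hd⟩ j * s (e + j) := by
    intro m
    have := key m ⟨0, hd⟩
    exact this
  rw [h0 (n + d)]
  simp_rw [h0, ha n, Finset.sum_mul, Finset.mul_sum]
  rw [Finset.sum_comm]
  apply Finset.sum_congr rfl
  intro i _
  apply Finset.sum_congr rfl
  intro j _
  rw [mul_assoc]

end Pool.RS
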