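import Pool.Agent.Work.MP_4cd38d_rs.Interface

set_option autoImplicit false

namespace Pool.RS

open Pool.Agent.Work.MP_4cd38d_lc
open Polynomial

lemma TRS_count (T : List (List ℕ)) (K : ℕ) (h : ∀ w ∈ T, ∀ a ∈ w, a < K + 1)
    (i j : Fin (K + 1)) :
    ((T.getD i []).map (Fin.ofNat (K + 1))).count j = (T.getD i []).count (j : ℕ) := by
  have h1 := congrFun (congrFun (incidence_eq T K h) i) j
  have h2 : (((T.getD i []).map (Fin.ofNat (K + 1))).count j : ℤ) =
      ((T.getD i []).count (j : ℕ) : ℤ) := h1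
  exact_mod_cast h2

theorem p_TRS : Stmt_TRS := by
  classical
  intro S ⟨_, h2, rk, hmon, hd⟩
  set K := S.2.1.length with hK
  have hrow : ∀ a b : ℕ, b ∈ S.2.1.getD a [] → a < K ∧ b < K := by
    intro a b hb
    by_cases ha : a < S.2.1.length
    · rw [List.getD_eq_getElem _ _ ha] at hb
      exact ⟨ha, h2 _ (List.getElem_mem ha) b hb⟩
    · rw [List.getD_eq_default _ _ (not_lt.1 ha)] at hb
      simp at hb
  have hval : ∀ b, b < K → ((Fin.ofNat (K + 1) b : Fin (K + 1)) : ℕ) = b := fun b hb =>
    Nat.mod_eq_of_lt (by omega)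
  have hval' : ∀ b, b < K + 1 → ((Fin.ofNat (K + 1) b : Fin (K + 1)) : ℕ) = b := fun b hb =>
    Nat.mod_eq_of_lt hb
  set R := (Finset.range K).sup rk + 1 with hR
  have hRlt : ∀ a < K, rk a < R := fun a ha =>
    Nat.lt_succ_of_le (Finset.le_sup (f := rk) (Finset.mem_range.2 ha))
  set rk' : Fin (K + 1) → ℕ := fun a => if (a : ℕ) < K then rk a else R with hrk'
  have hrk1 : ∀ b, b < K → rk' (Fin.ofNat (K + 1) b) = rk b := by
    intro b hb
    rw [hrk']
    simp only
    rw [hval b hb, if_pos hb]
  have hmem : ∀ (a : Fin (K + 1)) (b : Fin (K + 1)),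
      b ∈ (S.2.1.getD a []).map (Fin.ofNat (K + 1)) →
      (a : ℕ) < K ∧ rk' a = rk a ∧ ∃ b₀, b₀ ∈ S.2.1.getD a [] ∧ b₀ < K ∧ rk' b = rk b₀ := by
    intro a b hb
    obtain ⟨b₀, hb₀, rfl⟩ := List.mem_map.1 hb
    obtain ⟨h3, h4⟩ := hrow a b₀ hb₀
    refine ⟨h3, ?_, b₀, hb₀, h4, hrk1 b₀ h4⟩
    rw [hrk']
    simp only
    rw [if_pos h3]
  refine ⟨rk', fun a b hb => ?_, fun r => ?_⟩
  · obtain ⟨ha, hra, b₀, hb₀, _, hrb⟩ := hmem a b hb
    rw [hra, hrb]
    exact hmon a ha b₀ hb₀
  · by_cases hr : r = R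
    · left
      intro a ha b hb
      obtain ⟨h3, h4, _⟩ := hmem a b hb
      have := hRlt a h3
      omega
    · rcases hd r with hL | hRt
      · left
        intro a ha b hb
        obtain ⟨h3, h4, b₀, h5, h6, h7⟩ := hmem a b hb
        rw [h7]
        exact hL a h3 (by rw [← h4]; exact ha) b₀ h5
      · right
        intro μ ⟨v, ⟨a, ha, hva⟩, hv⟩
        have haK : (a : ℕ) < K := by
          by_contra hc
          rw [hrk'] at ha
          simp only at ha
          rw [if_neg hc] at ha
          exact hr ha.symm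
        have hra : rk a = r := by
          rw [hrk'] at ha
          simp only at ha
          rw [if_pos haK] at ha
          exact ha
        have hofa : Fin.ofNat (K + 1) (a : ℕ) = a := Fin.ext (hval _ haK)
        refine hRt μ ⟨fun n => v (Fin.ofNat (K + 1) n), ⟨a, haK, hra, ?_⟩, ?_⟩
        · simp only
          rw [hofa]
          exact hva
        · intro a₁ ha₁ hra₁
          have h3 := hv (Fin.ofNat (K + 1) a₁) (by rw [hrk1 a₁ ha₁]; exact hra₁)
          rw [← h3]
          have h4 : ∀ b : Fin (K + 1), (if rk' b = r then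
              ((((S.2.1.getD (Fin.ofNat (K + 1) a₁ : Fin (K + 1)) []).map
                (Fin.ofNat (K + 1))).count b : ℕ) : ℂ) * v b else 0) =
              (fun n : ℕ => if rk' (Fin.ofNat (K + 1) n) = r then
                ((((S.2.1.getD a₁ []).count n : ℕ) : ℂ)) * v (Fin.ofNat (K + 1) n) else 0) b := by
            intro b
            have h5 : Fin.ofNat (K + 1) (b : ℕ) = b := Fin.ext (hval' _ b.2)
            simp only
            rw [h5, TRS_count S.2.1 K (fun w hw a ha => Nat.lt_succ_of_lt (h2 w hw a ha)),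
              hval a₁ ha₁]
          have h6 : ∑ b : Fin (K + 1), (if rk' b = r then
              ((((S.2.1.getD (Fin.ofNat (K + 1) a₁ : Fin (K + 1)) []).map
                (Fin.ofNat (K + 1))).count b : ℕ) : ℂ) * v b else 0) =
              ∑ n ∈ Finset.range (K + 1), (if rk' (Fin.ofNat (K + 1) n) = r then
                ((((S.2.1.getD a₁ []).count n : ℕ) : ℂ)) * v (Fin.ofNat (K + 1) n) else 0) := by
            rw [← Fin.sum_univ_eq_sum_range (fun n : ℕ => if rk' (Fin.ofNat (K + 1) n) = r then
                ((((S.2.1.getD a₁ []).count n : ℕ) : ℂ)) * v (Fin.ofNat (K + 1) n) else 0)]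
            exact Finset.sum_congr rfl fun b _ => h4 b
          refine Eq.trans ?_ h6.symm
          rw [Finset.sum_range_succ]
          have h7 : rk' (Fin.ofNat (K + 1) K) = R := by
            rw [hrk']
            simp only
            rw [hval' K (Nat.lt_succ_self K), if_neg (lt_irrefl K)]
          rw [h7, if_neg (fun h => hr h.symm), add_zero]
          apply Finset.sum_congr rfl
          intro b hb
          rw [hrk1 b (Finset.mem_range.1 hb)]

end Pool.RS
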