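import Pool.Agent.Work.MP_4cd38d_rs.Cov
import Pool.Agent.Work.MP_4cd38d_rs.B_PES
import Pool.Agent.Work.MP_4cd38d_rs.B_PEC
import Pool.Agent.Work.MP_4cd38d_rs.B_PE1
import Pool.Agent.Work.MP_4cd38d_rs.B_PEM
import Pool.Agent.Work.MP_4cd38d_rs.B_PD1
import Pool.Agent.Work.MP_4cd38d_rs.B_PD2
import Pool.Agent.Work.MP_4cd38d_rs.B_PDA
import Pool.Agent.Work.MP_4cd38d_rs.B_DPO
import Pool.Agent.Work.MP_4cd38d_rs.B_DST
import Pool.Agent.Work.MP_4cd38d_rs.B_DPR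
import Pool.Agent.Work.MP_4cd38d_rs.B_MIN
import Pool.Agent.Work.MP_4cd38d_rs.B_NE1
import Pool.Agent.Work.MP_4cd38d_rs.B_NEW
import Pool.Agent.Work.MP_4cd38d_rs.B_CH1
import Pool.Agent.Work.MP_4cd38d_rs.B_CHN
import Pool.Agent.Work.MP_4cd38d_rs.B_CR1
import Pool.Agent.Work.MP_4cd38d_rs.B_CRT
import Pool.Agent.Work.MP_4cd38d_rs.B_EIT
import Pool.Agent.Work.MP_4cd38d_rs.B_FPW
import Pool.Agent.Work.MP_4cd38d_rs.B_KEV
import Pool.Agent.Work.MP_4cd38d_rs.B_CEX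
import Pool.Agent.Work.MP_4cd38d_rs.B_CNA
import Pool.Agent.Work.MP_4cd38d_rs.B_CNT
import Pool.Agent.Work.MP_4cd38d_rs.B_PWE
import Pool.Agent.Work.MP_4cd38d_rs.B_PWH
import Pool.Agent.Work.MP_4cd38d_rs.B_KA1
import Pool.Agent.Work.MP_4cd38d_rs.B_KAP
import Pool.Agent.Work.MP_4cd38d_rs.B_ON1
import Pool.Agent.Work.MP_4cd38d_rs.B_NOI
import Pool.Agent.Work.MP_4cd38d_rs.B_SUB
import Pool.Agent.Work.MP_4cd38d_rs.B_SND
import Pool.Agent.Work.MP_4cd38d_rs.B_CMP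
import Pool.Agent.Work.MP_4cd38d_rs.B_PRM
import Pool.Agent.Work.MP_4cd38d_rs.B_NSN
import Pool.Agent.Work.MP_4cd38d_rs.B_TRS
import Pool.Agent.Work.MP_4cd38d_rs.B_NCM
import Pool.Agent.Work.MP_4cd38d_rs.B_FIN
import Pool.Agent.Work.MP_4cd38d_rs.B_EX1
import Pool.Agent.Work.MP_4cd38d_rs.B_EX2
import Pool.Agent.Work.MP_4cd38d_rs.B_E3A
import Pool.Agent.Work.MP_4cd38d_rs.B_E3B
import Pool.Agent.Work.MP_4cd38d_rs.B_EX3

set_option autoImplicit false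

/-! # MP_4cd38d: HD0L systems of real type; assembly -/

namespace Pool.RS

open Pool.Agent.Work.MP_4cd38d_lc
open Polynomial

theorem a_PES : Stmt_PES := p_PES 
theorem a_PEC : Stmt_PEC := p_PEC 
theorem a_PE1 : Stmt_PE1 := p_PE1 a_PES
theorem a_PEM : Stmt_PEM := p_PEM a_PE1
theorem a_PD1 : Stmt_PD1 := p_PD1 
theorem a_PD2 : Stmt_PD2 := p_PD2 
theorem a_PDA : Stmt_PDA := p_PDA a_PD1 a_PD2
theorem a_DPO : Stmt_DPO := p_DPO 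
theorem a_DST : Stmt_DST := p_DST 
theorem a_DPR : Stmt_DPR := p_DPR a_DST
theorem a_MIN : Stmt_MIN := p_MIN 
theorem a_NE1 : Stmt_NE1 := p_NE1 
theorem a_NEW : Stmt_NEW := p_NEW a_NE1
theorem a_CH1 : Stmt_CH1 := p_CH1 a_NEW
theorem a_CHN : Stmt_CHN := p_CHN a_CH1
theorem a_CR1 : Stmt_CR1 := p_CR1 
theorem a_CRT : Stmt_CRT := p_CRT a_PDA a_DPO a_DPR a_MIN a_CHN a_CR1
theorem a_EIT : Stmt_EIT := p_EIT 
theorem a_FPW : Stmt_FPW := p_FPW 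
theorem a_KEV : Stmt_KEV := p_KEV 
theorem a_CEX : Stmt_CEX := p_CEX 
theorem a_CNA : Stmt_CNA := p_CNA a_EIT a_KEV
theorem a_CNT : Stmt_CNT := p_CNT a_PEC a_PEM a_CEX a_CNA
theorem a_PWE : Stmt_PWE := p_PWE 
theorem a_PWH : Stmt_PWH := p_PWH 
theorem a_KA1 : Stmt_KA1 := p_KA1 
theorem a_KAP : Stmt_KAP := p_KAP a_KA1
theorem a_ON1 : Stmt_ON1 := p_ON1 a_CNT a_FPW a_PWE a_PWH a_KAP
theorem a_NOI : Stmt_NOI := p_NOI a_PEC a_ON1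
theorem a_SUB : Stmt_SUB := p_SUB 
theorem a_SND : Stmt_SND := p_SND a_SUB
theorem a_CMP : Stmt_CMP := p_CMP 
theorem a_PRM : Stmt_PRM := p_PRM 
theorem a_NSN : Stmt_NSN := p_NSN a_SND
theorem a_TRS : Stmt_TRS := p_TRS 
theorem a_NCM : Stmt_NCM := p_NCM a_CRT a_NOI a_SUB a_CMP a_TRS
theorem a_FIN : Stmt_FIN := p_FIN a_PRM a_NSN a_NCM
theorem a_EX1 : Stmt_EX1 := p_EX1 
theorem a_EX2 : Stmt_EX2 := p_EX2 
theorem a_E3A : Stmt_E3A := p_E3A 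
theorem a_E3B : Stmt_E3B := p_E3B 
theorem a_EX3 : Stmt_EX3 := p_EX3 a_E3A a_E3B

lemma Covered.realType {S : HSystem} (h : Covered S) : RealType S := by
  obtain ⟨⟨h1, h2⟩, h | ⟨h, h'⟩ | h | h⟩ := h
  · exact a_EX1 S h1 h
  · exact a_EX2 S h' h
  · exact a_EX3 S h1 h2 h
  · exact ⟨h1, h2, h⟩

theorem main : ∃ f : HSystem × HSystem →. Bool, Partrec f ∧
    (∀ S S' : HSystem, (true ∈ f (S, S') → ∃ n, term S n = term S' n) ∧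
      (false ∈ f (S, S') → ¬ ∃ n, term S n = term S' n)) ∧
    ∀ S S' : HSystem, Covered S → Covered S' → (f (S, S')).Dom := by
  obtain ⟨f, h1, h2, h3⟩ := a_FIN
  exact ⟨f, h1, h2, fun S S' hS hS' => h3 S S' hS.realType hS'.realType⟩

end Pool.RS
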