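import Pool.Agent.Work.MP_4cd38d_rs.Interface

set_option autoImplicit false

/-! # MP_4cd38d, block CEX (helper79): expansion of scattered counts under a morphism -/

namespace Pool.RS

open Pool.Agent.Work.MP_4cd38d_lc
open Polynomial

/-- the coefficients of the expansion -/
def CEX_c {Γ D : Type} [DecidableEq D] (g : Γ → List D) : List Γ → List D → ℕ
  | [], z => if z = [] then 1 else 0
  | s :: z', z => ∑ i ∈ Finset.range z.length,
      scatteredCount (z.take (i + 1)) (g s) * CEX_c g z' (z.drop (i + 1))

theorem CEX_c_nil {Γ D : Type} [DecidableEq D] (g : Γ → List D) (z : List D) :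
    CEX_c g [] z = if z = [] then 1 else 0 := by
  rw [CEX_c]

theorem CEX_c_cons {Γ D : Type} [DecidableEq D] (g : Γ → List D) (s : Γ) (z' : List Γ)
    (z : List D) : CEX_c g (s :: z') z = ∑ i ∈ Finset.range z.length,
      scatteredCount (z.take (i + 1)) (g s) * CEX_c g z' (z.drop (i + 1)) := by
  rw [CEX_c]

theorem CEX_zero {Γ D : Type} [DecidableEq D] (g : Γ → List D) (z' : List Γ) :
    ∀ z : List D, z.length < z'.length → CEX_c g z' z = 0 := by
  induction z' with
  | nil =>
    intro z hz
    simp at hz
  | cons s z' ih =>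
    intro z hz
    rw [CEX_c_cons]
    apply Finset.sum_eq_zero
    intro i hi
    rw [Finset.mem_range] at hi
    rw [List.length_cons] at hz
    rw [ih (z.drop (i + 1)) (by rw [List.length_drop]; omega), mul_zero]

theorem CEX_single {D : Type} [DecidableEq D] (b : D) (w : List D) :
    scatteredCount [b] w = w.count b := by
  induction w with
  | nil => simp [scatteredCount_nil]
  | cons a w ih =>
    rw [scatteredCount_cons, ih, scatteredCount_nil_left, List.count_cons]
    by_cases h : b = a
    · subst h
      simp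
    · have h' : ¬ a = b := fun e => h e.symm
      simp [h, h']

theorem CEX_prod {Γ D : Type} [DecidableEq D] (g : Γ → List D) :
    ∀ (m : ℕ) (f' : Fin m → Γ) (f : Fin m → D),
      CEX_c g (List.ofFn f') (List.ofFn f) = ∏ i, (g (f' i)).count (f i) := by
  intro m
  induction m with
  | zero =>
    intro f' f
    simp [CEX_c_nil]
  | succ m ih =>
    intro f' f
    rw [List.ofFn_succ, List.ofFn_succ, CEX_c_cons, Fin.prod_univ_succ, List.length_cons,
      List.length_ofFn, Finset.sum_range_succ']
    have h1 : ∑ k ∈ Finset.range m,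
        scatteredCount ((f 0 :: List.ofFn fun i : Fin m => f i.succ).take (k + 1 + 1)) (g (f' 0)) *
          CEX_c g (List.ofFn fun i : Fin m => f' i.succ)
            ((f 0 :: List.ofFn fun i : Fin m => f i.succ).drop (k + 1 + 1)) = 0 := by
      apply Finset.sum_eq_zero
      intro k hk
      rw [Finset.mem_range] at hk
      rw [CEX_zero, mul_zero]
      rw [List.length_drop, List.length_cons, List.length_ofFn, List.length_ofFn]
      omega
    rw [h1, zero_add, List.take_succ_cons, List.drop_succ_cons, List.take_zero, List.drop_zero,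
      CEX_single, ih]

/-- the sum over all words of length at most `m` -/
def CEX_S {Γ : Type} [Fintype Γ] (m : ℕ) (F : List Γ → ℕ) : ℕ :=
  ∑ x : (Σ l : Fin (m + 1), Fin l → Γ), F (List.ofFn x.2)

theorem CEX_S_eq {Γ : Type} [Fintype Γ] (m : ℕ) (F : List Γ → ℕ) :
    CEX_S m F = ∑ l ∈ Finset.range (m + 1), ∑ f : Fin l → Γ, F (List.ofFn f) := by
  rw [CEX_S, Fintype.sum_sigma, Finset.sum_range]

theorem CEX_S_step {Γ : Type} [Fintype Γ] (F : List Γ → ℕ) (l : ℕ) :
    ∑ f : Fin (l + 1) → Γ, F (List.ofFn f) =
      ∑ s : Γ, ∑ f : Fin l → Γ, F (s :: List.ofFn f) := by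
  rw [← Fintype.sum_prod_type' (f := fun (s : Γ) (f : Fin l → Γ) => F (s :: List.ofFn f))]
  refine (Fintype.sum_equiv (Fin.consEquiv fun _ : Fin (l + 1) => Γ) _ _ ?_).symm
  rintro ⟨s, f⟩
  show F (s :: List.ofFn f) = F (List.ofFn (Fin.cons s f : Fin (l + 1) → Γ))
  rw [List.ofFn_succ]
  simp

theorem CEX_S_zero {Γ : Type} [Fintype Γ] (F : List Γ → ℕ) : CEX_S 0 F = F [] := by
  rw [CEX_S_eq, Finset.sum_range_one]
  simp

theorem CEX_S_succ {Γ : Type} [Fintype Γ] (m : ℕ) (F : List Γ → ℕ) :
    CEX_S (m + 1) F = F [] + ∑ s : Γ, CEX_S m (fun z => F (s :: z)) := by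
  have h1 : ∑ l ∈ Finset.range (m + 1), ∑ f : Fin (l + 1) → Γ, F (List.ofFn f) =
      ∑ s : Γ, CEX_S m (fun z => F (s :: z)) := by
    rw [Finset.sum_congr rfl fun l _ => CEX_S_step F l, Finset.sum_comm]
    exact Finset.sum_congr rfl fun s _ => (CEX_S_eq m fun z => F (s :: z)).symm
  rw [CEX_S_eq, Finset.sum_range_succ', h1, add_comm]
  simp

theorem CEX_S_add {Γ : Type} [Fintype Γ] (m : ℕ) (F G : List Γ → ℕ) :
    CEX_S m (fun z => F z + G z) = CEX_S m F + CEX_S m G := by
  unfold CEX_S
  exact Finset.sum_add_distrib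

theorem CEX_S_mul {Γ : Type} [Fintype Γ] (m a : ℕ) (F : List Γ → ℕ) :
    CEX_S m (fun z => a * F z) = a * CEX_S m F := by
  unfold CEX_S
  exact (Finset.mul_sum _ _ _).symm

theorem CEX_S_sum {Γ ι : Type} [Fintype Γ] (m : ℕ) (s : Finset ι) (F : ι → List Γ → ℕ) :
    CEX_S m (fun z => ∑ i ∈ s, F i z) = ∑ i ∈ s, CEX_S m (F i) := by
  unfold CEX_S
  exact Finset.sum_comm

theorem CEX_S_congr {Γ : Type} [Fintype Γ] (m : ℕ) {F G : List Γ → ℕ} (h : ∀ z, F z = G z) :
    CEX_S m F = CEX_S m G := by
  have : F = G := funext h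
  rw [this]

theorem CEX_S_nil {Γ : Type} [Fintype Γ] (m : ℕ) (F : List Γ → ℕ)
    (h : ∀ s z, F (s :: z) = 0) : CEX_S m F = F [] := by
  cases m with
  | zero => exact CEX_S_zero F
  | succ m =>
    rw [CEX_S_succ]
    have h1 : ∀ s : Γ, CEX_S m (fun z => F (s :: z)) = 0 := by
      intro s
      unfold CEX_S
      exact Finset.sum_eq_zero fun x _ => h s _
    rw [Finset.sum_eq_zero fun s _ => h1 s, add_zero]

theorem CEX_main {Γ D : Type} [Fintype Γ] [DecidableEq Γ] [DecidableEq D] (g : Γ → List D)
    (w : List Γ) : ∀ (m : ℕ) (z : List D), z.length ≤ m → scatteredCount z (w.flatMap g) =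
      CEX_S m (fun z' => CEX_c g z' z * scatteredCount z' w) := by
  induction w with
  | nil =>
    intro m z _
    rw [CEX_S_nil]
    · rw [List.flatMap_nil, scatteredCount_nil, CEX_c_nil, scatteredCount_nil_left, mul_one]
    · intro s z'
      rw [scatteredCount_nil, if_neg (List.cons_ne_nil s z'), mul_zero]
  | cons t w ih =>
    intro m z hz
    cases m with
    | zero =>
      have h0 : z = [] := List.length_eq_zero_iff.1 (by omega)
      subst h0
      rw [CEX_S_zero, CEX_c_nil, scatteredCount_nil_left, scatteredCount_nil_left]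
      simp
    | succ m =>
      rw [List.flatMap_cons, scatteredCount_append, Finset.sum_range_succ', List.take_zero,
        List.drop_zero, scatteredCount_nil_left, one_mul, ih (m + 1) z hz, CEX_S_succ, CEX_S_succ]
      have h1 : ∀ s : Γ, CEX_S m (fun z' => CEX_c g (s :: z') z *
          scatteredCount (s :: z') (t :: w)) =
          CEX_S m (fun z' => CEX_c g (s :: z') z * scatteredCount (s :: z') w) +
          if s = t then CEX_S m (fun z' => CEX_c g (t :: z') z * scatteredCount z' w) else 0 := by
        intro s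
        by_cases hst : s = t
        · subst hst
          rw [if_pos rfl, ← CEX_S_add]
          apply CEX_S_congr
          intro z'
          rw [scatteredCount_cons, if_pos rfl, mul_add]
        · rw [if_neg hst, add_zero]
          apply CEX_S_congr
          intro z'
          rw [scatteredCount_cons, if_neg hst, add_zero]
      have h2 : CEX_S m (fun z' => CEX_c g (t :: z') z * scatteredCount z' w) =
          ∑ i ∈ Finset.range z.length, scatteredCount (z.take (i + 1)) (g t) *
            scatteredCount (z.drop (i + 1)) (w.flatMap g) := by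
        have h3 : ∀ z' : List Γ, CEX_c g (t :: z') z * scatteredCount z' w =
            ∑ i ∈ Finset.range z.length, scatteredCount (z.take (i + 1)) (g t) *
              (CEX_c g z' (z.drop (i + 1)) * scatteredCount z' w) := by
          intro z'
          rw [CEX_c_cons, Finset.sum_mul]
          exact Finset.sum_congr rfl fun i _ => mul_assoc _ _ _
        rw [CEX_S_congr m h3, CEX_S_sum]
        apply Finset.sum_congr rfl
        intro i hi
        rw [Finset.mem_range] at hi
        rw [CEX_S_mul, ← ih m (z.drop (i + 1)) (by rw [List.length_drop]; omega)]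
      rw [Finset.sum_congr rfl fun s _ => h1 s, Finset.sum_add_distrib, Finset.sum_ite_eq',
        if_pos (Finset.mem_univ t), h2, scatteredCount_nil_left, scatteredCount_nil_left]
      ring

theorem p_CEX : Stmt_CEX := by
  intro Γ D _ _ _ g
  exact ⟨CEX_c g, fun z' z h => CEX_zero g z' z h, CEX_prod g,
    fun m z w hz => CEX_main g w m z hz⟩

end Pool.RS
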