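import Pool.Agent.Work.MP_4cd38d_rs.Interface

set_option autoImplicit false

namespace Pool.RS

open Pool.Agent.Work.MP_4cd38d_lc
open Polynomial

/-- the coded certificate -/
def CMP_c (D T W n₂ : ℕ) (B : ℕ → ℕ → ℕ) (y : ℕ → ℕ → ℤ) : Cert :=
  (D, (List.range T).map (fun i => (List.range (i + 1)).map fun j => B i j),
    (List.range (T + 1)).map fun i => (List.range W).map fun r => (y i (n₂ + r)).toNat)

theorem CMP_getD {α : Type} (f : ℕ → α) (n i : ℕ) (d : α) (h : i < n) :
    ((List.range n).map f).getD i d = f i := by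
  rw [List.getD_eq_getElem?_getD, List.getElem?_map, List.getElem?_range h]
  rfl

theorem CMP_len (D T W n₂ : ℕ) (B : ℕ → ℕ → ℕ) (y : ℕ → ℕ → ℤ) :
    (CMP_c D T W n₂ B y).2.1.length = T := by
  simp [CMP_c]

theorem CMP_gb (D T W n₂ : ℕ) (B : ℕ → ℕ → ℕ) (y : ℕ → ℕ → ℤ) (i j : ℕ) (hi : i < T)
    (hj : j < i + 1) : gb (CMP_c D T W n₂ B y) i j = B i j := by
  unfold gb CMP_c
  simp only
  rw [CMP_getD _ _ _ _ hi, CMP_getD _ _ _ _ hj]

theorem CMP_gy (D T W n₂ : ℕ) (B : ℕ → ℕ → ℕ) (y : ℕ → ℕ → ℤ) (i r : ℕ) (hi : i < T + 1)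
    (hr : r < W) : gy (CMP_c D T W n₂ B y) i r = (y i (n₂ + r)).toNat := by
  unfold gy CMP_c
  simp only
  rw [CMP_getD _ _ _ _ hi, CMP_getD _ _ _ _ hr]

theorem CMP_sum0 (n : ℕ) (f : ℕ → ℕ) (h : ∀ i < n, f i = 0) :
    ((List.range n).map f).sum = 0 := by
  apply List.sum_eq_zero
  intro x hx
  obtain ⟨i, hi, rfl⟩ := List.mem_map.1 hx
  exact h i (List.mem_range.1 hi)

theorem CMP_sumc (n : ℕ) (f : ℕ → ℕ) :
    (((List.range n).map f).sum : ℤ) = ∑ i ∈ Finset.range n, (f i : ℤ) := by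
  induction n with
  | zero => simp
  | succ n ih =>
    rw [List.range_succ, List.map_append, List.sum_append, Finset.sum_range_succ, ← ih]
    simp

theorem p_CMP : Stmt_CMP := by
  intro a k e D T B n₁ y hc n₂ hn
  refine ⟨CMP_c D T (T + ord a + 1) n₂ B y, ?_⟩
  set c := CMP_c D T (T + ord a + 1) n₂ B y with hcdef
  have hT : c.2.1.length = T := CMP_len _ _ _ _ _ _
  have hD : c.1 = D := rfl
  have hnn : ∀ i < T + 1, ∀ n, n₁ ≤ n → 0 ≤ y i n := by
    intro i hi n hn'
    rcases Nat.lt_succ_iff_lt_or_eq.1 hi with h | h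
    · exact (hc.pos i h n hn').le
    · rw [h, hc.yT n hn']
  have hgy : ∀ i < T + 1, ∀ r < T + ord a + 1, (gy c i r : ℤ) = y i (n₂ + r) := by
    intro i hi r hr
    rw [hcdef, CMP_gy _ _ _ _ _ _ _ _ hi hr]
    exact Int.toNat_of_nonneg (hnn i hi _ (by omega))
  have hw : wid a c = T + ord a + 1 := by
    unfold wid
    rw [hT]
  have h1 : 1 - c.1 = 0 := by
    rw [hD]
    have := hc.D1
    omega
  have h2 : 1 - c.2.1.length = 0 := by
    rw [hT]
    have := hc.T1
    omega
  have h3 : ((List.range (wid a c)).map fun r =>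
      dst (gy c 0 r) (sN a (k * (n₂ + r) + e))).sum = 0 := by
    apply CMP_sum0
    intro r hr
    rw [hw] at hr
    rw [dst_eq_zero]
    have h := hgy 0 (by omega) r hr
    rw [hc.y0 _ (by omega)] at h
    exact_mod_cast h
  have h4 : ((List.range c.2.1.length).map fun i => ((List.range (wid a c - 1)).map fun r =>
      dst (c.1 * gy c i (r + 1)) (gy c (i + 1) r +
        ((List.range (i + 1)).map fun j => gb c i j * gy c j r).sum)).sum).sum = 0 := by
    apply CMP_sum0
    intro i hi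
    rw [hT] at hi
    apply CMP_sum0
    intro r hr
    rw [hw] at hr
    rw [dst_eq_zero]
    have h := hc.rc i hi (n₂ + r) (by omega)
    have e1 : ((((List.range (i + 1)).map fun j => gb c i j * gy c j r).sum : ℕ) : ℤ) =
        ∑ j ∈ Finset.range (i + 1), (B i j : ℤ) * y j (n₂ + r) := by
      rw [CMP_sumc]
      refine Finset.sum_congr rfl fun j hj => ?_
      have hj' := Finset.mem_range.1 hj
      rw [Nat.cast_mul, hgy j (by omega) r (by omega), hcdef, CMP_gb _ _ _ _ _ _ _ _ hi hj']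
    have e2 : ((c.1 * gy c i (r + 1) : ℕ) : ℤ) = ((gy c (i + 1) r +
        ((List.range (i + 1)).map fun j => gb c i j * gy c j r).sum : ℕ) : ℤ) := by
      rw [Nat.cast_add, e1, Nat.cast_mul, hgy i (by omega) (r + 1) (by omega),
        hgy (i + 1) (by omega) r (by omega), hD, ← h, Nat.add_assoc]
    exact_mod_cast e2
  have h5 : ((List.range (ord a)).map fun r => gy c c.2.1.length r).sum = 0 := by
    apply CMP_sum0
    intro r hr
    rw [hT]
    have h := hgy T (by omega) r (by omega)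
    rw [hc.yT _ (by omega)] at h
    exact_mod_cast h
  have h6 : ((List.range c.2.1.length).map fun i => (1 - gy c i 0) + (1 - gy c i 1)).sum = 0 := by
    apply CMP_sum0
    intro i hi
    rw [hT] at hi
    have g0 := hgy i (by omega) 0 (by omega)
    have g1 := hgy i (by omega) 1 (by omega)
    have p0 := hc.pos i hi (n₂ + 0) (by omega)
    have p1 := hc.pos i hi (n₂ + 1) (by omega)
    omega
  unfold bad
  rw [h1, h2, h3, h4, h5, h6]

end Pool.RS
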