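import Pool.Agent.Work.MP_4cd38d_rs.Interface

set_option autoImplicit false

/-! # MP_4cd38d, THEOREM RS: block DPR -/

namespace Pool.RS

open Pool.Agent.Work.MP_4cd38d_lc
open Polynomial

theorem DPR_ms (hDST : Stmt_DST) (lam : ℝ) (hlam : 0 < lam) (k : ℕ) (y : ℕ → ℝ)
    (hy : Dom lam k y) (s : Multiset ℝ) : (∀ ρ ∈ s, ρ ≤ lam) → s.count lam ≤ k →
      Dom lam (k - s.count lam) (pE (s.map (fun a => X - C a)).prod y) := by
  induction s using Multiset.induction_on with
  | empty =>
    intro _ _
    have h1 : pE ((0 : Multiset ℝ).map (fun a => (X : ℝ[X]) - C a)).prod y = y := by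
      rw [Multiset.map_zero, Multiset.prod_zero]
      unfold pE
      rw [map_one]
      rfl
    rw [h1, Multiset.count_zero]
    exact hy
  | cons ρ s ih =>
    intro h1 h2
    have h3 : ∀ σ ∈ s, σ ≤ lam := fun σ hσ => h1 σ (Multiset.mem_cons_of_mem hσ)
    have h4 : s.count lam ≤ k := (Multiset.count_le_count_cons lam ρ s).trans h2
    have h5 := ih h3 h4
    have h6 := hDST lam _ _ hlam h5
    have h7 : pE (((ρ ::ₘ s).map (fun a => (X : ℝ[X]) - C a)).prod) y =
        pE (X - C ρ) (pE (s.map (fun a => (X : ℝ[X]) - C a)).prod y) := by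
      rw [Multiset.map_cons, Multiset.prod_cons]
      unfold pE
      rw [map_mul]
      rfl
    rw [h7]
    rcases lt_or_eq_of_le (h1 ρ (Multiset.mem_cons_self ρ s)) with h8 | h8
    · rw [Multiset.count_cons_of_ne h8.ne']
      exact h6.1 ρ h8
    · subst h8
      rw [Multiset.count_cons_self] at h2 ⊢
      have h9 := h6.2 (by omega)
      have e : k - (s.count ρ + 1) = k - s.count ρ - 1 := by omega
      rw [e]
      exact h9

theorem p_DPR (hDST : Stmt_DST) : Stmt_DPR := by
  intro lam k y N hlam hy hN hs hr hk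
  have e1 := hs.eq_prod_roots_of_monic hN
  have e2 : N.rootMultiplicity lam = N.roots.count lam := (count_roots N).symm
  have h1 := DPR_ms hDST lam hlam k y hy N.roots
    (fun ρ hρ => hr ρ ((mem_roots hN.ne_zero).1 hρ)) (by rw [← e2]; exact hk)
  rw [← e1, ← e2] at h1
  exact h1

end Pool.RS
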