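import Pool.Agent.Work.MP_4cd38d_lc.DefsSkolem

set_option autoImplicit false

/-! # MP_4cd38d: the covered HD0L systems -/

namespace Pool.RS

open Pool.Agent.Work.MP_4cd38d_lc

/-- The system `S` is proper: only letters `< k` occur in the start word and in the table of the
first morphism `g`, where `k` is the number of entries of this table. -/
def Proper (S : HSystem) : Prop :=
  (∀ a ∈ S.1, a < S.2.1.length) ∧ ∀ w ∈ S.2.1, ∀ a ∈ w, a < S.2.1.length

/-- The letters of `g a` are `≤ a`, for all `a < k`. -/
def Triangular (S : HSystem) : Prop := ∀ a < S.2.1.length, ∀ b ∈ S.2.1.getD a [], b ≤ a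

/-- The lengths of the words `gⁿ a`, `a < k`, are bounded by a polynomial in `n`. -/
def PolyBounded (S : HSystem) : Prop :=
  ∃ K d : ℕ, ∀ a < S.2.1.length, ∀ n : ℕ,
    ((fun w : List ℕ => w.flatMap (fun b => S.2.1.getD b []))^[n] [a]).length ≤ K * (n + 1) ^ d

/-- The letters `a < k` have levels `rk a` such that the letters of `g a` have at most the level of
`a`, and for every level `r` either the letters of the images of the letters of level `r` have
smaller level, or every complex eigenvalue of the square matrix of the numbers of letters `b` of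
level `r` in the images of the letters `a` of level `r` has a positive real power. -/
def RealLevels (S : HSystem) : Prop :=
  ∃ rk : ℕ → ℕ, (∀ a < S.2.1.length, ∀ b ∈ S.2.1.getD a [], rk b ≤ rk a) ∧
    ∀ r, (∀ a < S.2.1.length, rk a = r → ∀ b ∈ S.2.1.getD a [], rk b < r) ∨
      ∀ μ : ℂ, (∃ v : ℕ → ℂ, (∃ a < S.2.1.length, rk a = r ∧ v a ≠ 0) ∧
        ∀ a < S.2.1.length, rk a = r → ∑ b ∈ Finset.range S.2.1.length,
          (if rk b = r then ((S.2.1.getD a []).count b : ℂ) * v b else 0) = μ * v a) →
      ∃ j : ℕ, 0 < j ∧ ∃ t : ℝ, 0 < t ∧ μ ^ j = t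

/-- The system `S` is covered: it is proper, and it is triangular, or `k = 2` and its incidence
matrix is nonsingular, or it is polynomially bounded, or it has levels as in `RealLevels`.  (The
first three conditions imply the last one.) -/
def Covered (S : HSystem) : Prop :=
  Proper S ∧ (Triangular S ∨ (S.2.1.length = 2 ∧ Nonsingular S) ∨ PolyBounded S ∨ RealLevels S)

end Pool.RS
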