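import Pool.Agent.Work.MP_4cd38d_lc.Reduction

set_option autoImplicit false

/-! # MP_4cd38d: HD0L systems of real type; definitions -/

namespace Pool.RS

open Pool.Agent.Work.MP_4cd38d_lc
open Polynomial

/-! ### Sequences -/

/-- finite sums of `P n * ρ ^ n`, `P` a real polynomial, `ρ > 0` -/
def PExp (y : ℕ → ℝ) : Prop :=
  ∃ (F : Finset ℝ) (P : ℝ → ℝ[X]), (∀ ρ ∈ F, 0 < ρ) ∧
    ∀ n : ℕ, y n = ∑ ρ ∈ F, (P ρ).eval (n : ℝ) * ρ ^ n

/-- the shift of sequences -/
def shf : Module.End ℝ (ℕ → ℝ) where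
  toFun y := fun n => y (n + 1)
  map_add' _ _ := rfl
  map_smul' _ _ := rfl

/-- the polynomial `p` in the shift -/
noncomputable def pE (p : ℝ[X]) : Module.End ℝ (ℕ → ℝ) := Polynomial.aeval shf p

/-- the dominant term of `y` is `P n * lam ^ n`, `P` of degree `k` with positive leading
coefficient -/
def Dom (lam : ℝ) (k : ℕ) (y : ℕ → ℝ) : Prop :=
  ∃ P : ℝ[X], P.natDegree = k ∧ 0 < P.leadingCoeff ∧ ∃ θ C : ℝ, 0 < θ ∧ θ < lam ∧
    ∀ n : ℕ, |y n - P.eval (n : ℝ) * lam ^ n| ≤ C * θ ^ n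

/-- a rational polynomial as a real polynomial -/
noncomputable def rl (q : ℚ[X]) : ℝ[X] := q.map (algebraMap ℚ ℝ)

/-- all complex roots of `p` are real numbers in `(0, lam]` -/
def Rts (p : ℝ[X]) (lam : ℝ) : Prop :=
  p.Monic ∧ p.Splits ∧ ∀ ρ, p.IsRoot ρ → 0 < ρ ∧ ρ ≤ lam

/-! ### Matrices and morphisms -/

/-- `μ` is an eigenvalue of the matrix `A` -/
def Eig {ι : Type} [Fintype ι] (A : ι → ι → ℂ) (μ : ℂ) : Prop :=
  ∃ v : ι → ℂ, (∃ a, v a ≠ 0) ∧ ∀ a, ∑ b, A a b * v b = μ * v a

/-- `μ` is a positive real number -/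
def Ps (μ : ℂ) : Prop := ∃ t : ℝ, 0 < t ∧ μ = t

/-- `μ` has a positive real power -/
def Pw (μ : ℂ) : Prop := ∃ j : ℕ, 0 < j ∧ Ps (μ ^ j)

/-- the incidence matrix over `ℂ` -/
def inc {C : Type} [DecidableEq C] (g : C → List C) : C → C → ℂ :=
  fun a b => ((g a).count b : ℂ)

/-- the morphism given by `g` -/
def mo {C D : Type} (g : C → List D) (w : List C) : List D := w.flatMap g

/-- the `k`-th power of the morphism `g` -/
def pw {C : Type} (g : C → List C) (k : ℕ) : C → List C := fun a => (mo g)^[k] [a]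

/-- `μ` is an eigenvalue of the block of the letters of level `r` -/
def BEig {C : Type} [Fintype C] [DecidableEq C] (g : C → List C) (rk : C → ℕ) (r : ℕ) (μ : ℂ) :
    Prop :=
  ∃ v : C → ℂ, (∃ a, rk a = r ∧ v a ≠ 0) ∧ ∀ a, rk a = r →
    ∑ b, (if rk b = r then ((g a).count b : ℂ) * v b else 0) = μ * v a

/-- `g` is of real type with the levels `rk` -/
def RT {C : Type} [Fintype C] [DecidableEq C] (g : C → List C) (rk : C → ℕ) : Prop :=
  (∀ a, ∀ b ∈ g a, rk b ≤ rk a) ∧
  ∀ r, (∀ a, rk a = r → ∀ b ∈ g a, rk b < r) ∨ ∀ μ, BEig g rk r μ → Pw μ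

/-- The system `S` is of real type: with `k` the number of entries of the table `S.2.1` of the first
morphism, only letters `< k` occur in the start word and in this table, and the letters have levels
`rk a` such that the letters of `S.2.1 a` have at most the level of `a`, and for every level `r`
either the images of all letters of level `r` consist of letters of smaller level, or every
complex eigenvalue of the square matrix of the numbers of letters `b` of level `r` in the images of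
the letters `a` of level `r` has a positive real power. -/
def RealType (S : HSystem) : Prop :=
  (∀ a ∈ S.1, a < S.2.1.length) ∧ (∀ w ∈ S.2.1, ∀ a ∈ w, a < S.2.1.length) ∧
    ∃ rk : ℕ → ℕ, (∀ a < S.2.1.length, ∀ b ∈ S.2.1.getD a [], rk b ≤ rk a) ∧
      ∀ r, (∀ a < S.2.1.length, rk a = r → ∀ b ∈ S.2.1.getD a [], rk b < r) ∨
        ∀ μ : ℂ, (∃ v : ℕ → ℂ, (∃ a < S.2.1.length, rk a = r ∧ v a ≠ 0) ∧
          ∀ a < S.2.1.length, rk a = r → ∑ b ∈ Finset.range S.2.1.length,
            (if rk b = r then ((S.2.1.getD a []).count b : ℂ) * v b else 0) = μ * v a) →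
        ∃ j : ℕ, 0 < j ∧ ∃ t : ℝ, 0 < t ∧ μ ^ j = t

/-! ### Certificates -/

/-- A certificate: `y 0 = s` on the tail from `n₁`, all `y i`, `i < T`, are positive there and
`y T = 0`. -/
structure Crt (s : ℕ → ℤ) (D T : ℕ) (B : ℕ → ℕ → ℕ) (n₁ : ℕ) (y : ℕ → ℕ → ℤ) : Prop where
  D1 : 1 ≤ D
  T1 : 1 ≤ T
  y0 : ∀ n, n₁ ≤ n → y 0 n = s n
  rc : ∀ i < T, ∀ n, n₁ ≤ n →
    (D : ℤ) * y i (n + 1) = y (i + 1) n + ∑ j ∈ Finset.range (i + 1), (B i j : ℤ) * y j n
  pos : ∀ i < T, ∀ n, n₁ ≤ n → 0 < y i n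
  yT : ∀ n, n₁ ≤ n → y T n = 0

/-- coded certificates: `D`, the rows of `B`, the table of the values of `y` -/
abbrev Cert : Type := ℕ × List (List ℕ) × List (List ℕ)

/-- the entry `B i j` -/
def gb (c : Cert) (i j : ℕ) : ℕ := (c.2.1.getD i []).getD j 0

/-- the value `y i (n₁ + r)` -/
def gy (c : Cert) (i r : ℕ) : ℕ := (c.2.2.getD i []).getD r 0

/-- the number of values in the rows of the table -/
def wid (a : Par) (c : Cert) : ℕ := c.2.1.length + ord a + 1

/-- the number of errors of the certificate `c` for the sequence `n ↦ sN a (k * n + e)` -/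
def bad (a : Par) (k e n₁ : ℕ) (c : Cert) : ℕ :=
  (1 - c.1) + (1 - c.2.1.length) +
  ((List.range (wid a c)).map fun r => dst (gy c 0 r) (sN a (k * (n₁ + r) + e))).sum +
  ((List.range c.2.1.length).map fun i => ((List.range (wid a c - 1)).map fun r =>
    dst (c.1 * gy c i (r + 1)) (gy c (i + 1) r +
      ((List.range (i + 1)).map fun j => gb c i j * gy c j r).sum)).sum).sum +
  ((List.range (ord a)).map fun r => gy c c.2.1.length r).sum +
  ((List.range c.2.1.length).map fun i => (1 - gy c i 0) + (1 - gy c i 1)).sum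

/-- negative certificates: words, `k - 1`, `n₁` and one certificate for each class modulo `k` -/
abbrev NCert : Type := List (List ℕ) × ℕ × ℕ × List Cert

/-- the number of errors of a negative certificate for the pair `p` of systems -/
def nbad (p : HSystem × HSystem) (N : NCert) : ℕ :=
  ((List.range (N.2.1 + 1)).map fun e =>
    bad (p, N.1) (N.2.1 + 1) e N.2.2.1 (N.2.2.2.getD e (0, [], []))).sum +
  ((List.range ((N.2.1 + 1) * N.2.2.1)).map fun n =>
    if term p.1 n = term p.2 n then 1 else 0).sum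

end Pool.RS
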