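import Pool.Agent.Work.MP_4cd38d_rs.Defs

set_option autoImplicit false

/-! # MP_4cd38d: HD0L systems of real type; interface (helper72)

THEOREM RS.  One partial recursive procedure decides whether two HD0L sequences have equal terms at
some common index, for all pairs of systems of real type, and it is never wrong on other pairs.

The file of block `X` is `Pool/Agent/Work/MP_4cd38d_rs/B_X.lean`: `import` this file, namespace `Pool.RS`, the
same `open` lines, `theorem p_X (hA : Stmt_A) (hB : Stmt_B) .. : Stmt_X` with exactly the blocks of the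
column `uses` as hypotheses in that order; auxiliary lemmas with the prefix `X_`.  All blocks are
independent.  The definitions (`PExp shf pE Dom rl Rts Eig Ps Pw inc mo pw BEig RT RealType Crt Cert gb gy wid bad
NCert nbad`) are in `Defs.lean`.  From `Work/MP_4cd38d_lc` (namespace `Pool.Agent.Work.MP_4cd38d_lc`): `hd0l`,
`scatteredCount`, `sq` (SysRec), `term`, `HSystem`, `Par`, `sN`, `sqN_eq`, `sN_eq`, `sN_eq_zero`, `dst`, `dst_eq_zero`, `ord`,
`ord_pos`, `coded_recurrence`, `to_fin`, `bnd_spec`, `eq_of_scatteredCount`, `scatteredCount_append`, `scatteredCount_cons`,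
`scatteredCount_nil`, `scatteredCount_nil_left`, `exists_matrix_recurrence` (Recur), `primrec_rsum`, `primrec_sum`,
`primrec_dst`, `primrec_sN`, `primrec_ord`, `primrec_term`, `computable_find` and the file `Reduction.lean`
(`decidable_of_skolem`) as an example for FIN. -/

namespace Pool.RS

open Pool.Agent.Work.MP_4cd38d_lc
open Polynomial

/-! ### A. Exponential polynomials -/

/-- **PES** (150 lines).  For `σ > 0` and a polynomial `P` there is a polynomial `Q` with
`σ * Q(n+1) - ρ * Q(n) = P(n)`: strong induction on the degree `d` of `P`, leading coefficient `a`: if `σ ≠ ρ` subtract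
the expression for `Q₀ = a / (σ - ρ) * X ^ d`, if `σ = ρ` for `Q₀ = a / (σ (d + 1)) * X ^ (d + 1)`; the degree of the
rest is smaller.  So for `h n = ∑ P_σ(n) σ ^ n` there is `z n = ∑ Q_σ(n) σ ^ n` with `z (n+1) = ρ * z n + h n`; and
`w = y - z` satisfies `w n = w 0 * ρ ^ n`.  (`PExp` is closed under addition: take the union of the finite
sets, `P` replaced by 0 outside.) -/
def Stmt_PES : Prop := ∀ (ρ : ℝ) (y h : ℕ → ℝ), 0 < ρ → PExp h →
  (∀ n, y (n + 1) = ρ * y n + h n) → PExp y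

/-- **PEC** (150).  Sum: union of the finite sets (polynomials 0 outside).  Product: the finite set of the
products `ρ * σ`, the polynomial of `τ` is the sum of `P_ρ * Q_σ` over the pairs with `ρ * σ = τ`
(`Finset.sum_fiberwise`).  Constant: `ρ = 1`.  Shift: `P.comp (X + C m) * C (ρ ^ m)`. -/
def Stmt_PEC : Prop :=
  (∀ y z : ℕ → ℝ, PExp y → PExp z → PExp (fun n => y n + z n)) ∧
  (∀ y z : ℕ → ℝ, PExp y → PExp z → PExp (fun n => y n * z n)) ∧
  (∀ c : ℝ, PExp (fun _ => c)) ∧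
  (∀ (y : ℕ → ℝ) (m : ℕ), PExp y → PExp (fun n => y (m + n)))

/-- **PE1** (80 lines), uses PES.  Induction on the degree of `p`: `p = (X - C ρ) * p'`, `ρ` a root (`Splits`, `Monic`), `ρ > 0`.
`z = pE (X - C ρ) y`, i.e. `z n = y (n + 1) - ρ * y n`, satisfies `pE p' z = 0`, so `PExp z`, and PES for
`y (n + 1) = ρ * y n + z n`.  Degree 0: `p = 1`, `y = 0`. -/
def Stmt_PE1 : Prop := ∀ (p : ℝ[X]) (y : ℕ → ℝ), p.Monic → p.Splits → (∀ ρ, p.IsRoot ρ → 0 < ρ) →
  pE p y = 0 → PExp y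

/-- **PEM** (150), uses PE1.  Let `p` be the characteristic polynomial of the real matrix `A`.  Its complex roots
are eigenvalues (`Matrix.exists_mulVec_eq_zero_iff` for `A - μ`), so positive real numbers, and over `ℂ`
`p = ∏ (X - t_i)`, `t_i > 0` real (`IsAlgClosed.splits`), so also over `ℝ` (the map `ℝ[X] → ℂ[X]` is injective).  By
Cayley-Hamilton (`Matrix.aeval_self_charpoly`) every coordinate satisfies `pE p (fun n => y n a) = 0`. -/
def Stmt_PEM : Prop := ∀ (ι : Type) [Fintype ι] (A : ι → ι → ℝ),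
  (∀ μ, Eig (fun a b => (A a b : ℂ)) μ → Ps μ) → ∀ y : ℕ → ι → ℝ,
    (∀ n a, y (n + 1) a = ∑ b, A a b * y n b) → ∀ a, PExp (fun n => y n a)

/-- **PD1** (120).  The operator `pE (X - C ρ)` (`z n ↦ z (n+1) - ρ z n`) maps `Q(n) ρ ^ n` to `ρ (Q(n+1) - Q(n)) ρ ^ n`, and
the degree of `Q(X+1) - Q(X)` is smaller than the one of `Q` (it is 0 if `Q` is constant); so
`pE ((X - C ρ) ^ (deg Q + 1))` kills `Q(n) ρ ^ n`; the other factors commute with it (`map_mul`, `map_sum`). -/
def Stmt_PD1 : Prop := ∀ (F : Finset ℝ) (P : ℝ → ℝ[X]),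
  pE (∏ ρ ∈ F, (X - C ρ) ^ ((P ρ).natDegree + 1))
    (fun n : ℕ => ∑ ρ ∈ F, (P ρ).eval (n : ℝ) * ρ ^ n) = 0

/-- **PD2** (120).  If the leading coefficient of `P lam` is negative take `-y` and `-P lam`.  `θ` = a number with
`ρ < θ < lam` for all other `ρ ∈ F` and `0 < θ`: `|P_ρ(n)| ρ ^ n ≤ C_ρ θ ^ n`, because a polynomial times `(ρ/θ) ^ n` tends
to 0. -/
def Stmt_PD2 : Prop := ∀ (F : Finset ℝ) (P : ℝ → ℝ[X]) (lam : ℝ), (∀ ρ ∈ F, 0 < ρ ∧ ρ ≤ lam) →
  lam ∈ F → P lam ≠ 0 →
  Dom lam (P lam).natDegree (fun n : ℕ => ∑ ρ ∈ F, (P ρ).eval (n : ℝ) * ρ ^ n) ∨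
  Dom lam (P lam).natDegree (fun n : ℕ => -∑ ρ ∈ F, (P ρ).eval (n : ℝ) * ρ ^ n)

/-- **PDA** (100), uses PD1 PD2.  Let `F'` be the set of the `ρ ∈ F` with `P ρ ≠ 0`; it is not empty; `lam` = its
maximum, `k` = the degree of `P lam`, `p` = the product of PD1 for `F'`; the multiplicity of `lam` in `p` is `k + 1`. -/
def Stmt_PDA : Prop := ∀ y : ℕ → ℝ, PExp y → (∃ n, y n ≠ 0) → ∃ (lam : ℝ) (k : ℕ), 0 < lam ∧
  (Dom lam k y ∨ Dom lam k (fun n => -y n)) ∧
    ∃ p : ℝ[X], Rts p lam ∧ p.rootMultiplicity lam ≤ k + 1 ∧ pE p y = 0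

/-! ### B. Dominant terms -/

/-- **DPO** (80).  Divide by `lam ^ n`: the rest tends to 0 and `P(n)` is eventually at least half of the leading
coefficient (constant if `k = 0`, `P(n) → ∞` otherwise: `Polynomial.tendsto_atTop_of_leadingCoeff_nonneg`). -/
def Stmt_DPO : Prop := ∀ (lam : ℝ) (k : ℕ) (y : ℕ → ℝ), 0 < lam → Dom lam k y →
  ∃ N : ℕ, ∀ n, N ≤ n → 0 < y n

/-- **DST** (120).  `pE (X - C ρ) y n = y (n+1) - ρ * y n`.  The polynomial is `lam * P(X+1) - ρ * P(X)`; if `ρ < lam` it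
has the same degree and the leading coefficient `(lam - ρ) * a`; if `ρ = lam`, `k ≥ 1`, it is
`lam * (P(X+1) - P(X))`, of degree `k - 1` with leading coefficient `lam * k * a`.  The rest is bounded by
`C (θ + |ρ|) θ ^ n`. -/
def Stmt_DST : Prop := ∀ (lam : ℝ) (k : ℕ) (y : ℕ → ℝ), 0 < lam → Dom lam k y →
  (∀ ρ, ρ < lam → Dom lam k (pE (X - C ρ) y)) ∧
  (1 ≤ k → Dom lam (k - 1) (pE (X - C lam) y))

/-- **DPR** (100), uses DST.  Induction on the degree of `N` (`pE` of a product is the composition, `map_mul`):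
`N = (X - C ρ) * N'`, `ρ` a root (`Splits`), `rootMultiplicity` of a product. -/
def Stmt_DPR : Prop := ∀ (lam : ℝ) (k : ℕ) (y : ℕ → ℝ) (N : ℝ[X]), 0 < lam → Dom lam k y →
  N.Monic → N.Splits → (∀ ρ, N.IsRoot ρ → ρ ≤ lam) → N.rootMultiplicity lam ≤ k →
    Dom lam (k - N.rootMultiplicity lam) (pE N y)

/-! ### C. Rational annihilators and certificates -/

/-- **MIN** (180).  `m` = a monic rational polynomial of least degree `d₀` with `pE (rl m) s = 0` (there is one,
because of the recurrence).  `←` is clear (`map_mul`).  `→`: let `r = p %ₘ rl m`, so `pE r s = 0`; suppose `r ≠ 0`, its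
degree is `< d₀`.  The rational `d₀ × d₀` matrix `H i j = s (i + j)` has a nonzero real vector in its kernel (the
coefficients of `r`), so `det H = 0` (`Matrix.exists_mulVec_eq_zero_iff` over `ℝ`, `RingHom.map_det`), so there is a nonzero
rational vector `c` with `∑_i c_i s (i + j) = 0` for `j < d₀`.  The sequence `z = ∑_i c_i s (i + ·)` is annihilated by `m`,
so it is determined by its first `d₀` values, which are 0: `z = 0`, and `c` gives a monic rational
annihilator of degree `< d₀`. -/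
def Stmt_MIN : Prop := ∀ (s : ℕ → ℤ) (d : ℕ) (q : ℕ → ℤ),
  (∀ n, s (n + d) = ∑ i ∈ Finset.range d, q i * s (n + i)) →
  ∃ m : ℚ[X], m.Monic ∧ ∀ p : ℝ[X], pE p (fun n => (s n : ℝ)) = 0 ↔ rl m ∣ p

/-- **NE1** (120).  Newton's form, by induction on `e`.  Let `δ` be the minimum of the `|q(z_i)|`, `i ≤ e`.  Since `q` has
different signs at `z_0` and `z_1`, there is `x ∈ (z_0, z_1)` with `q(x) = -δ/2`, and near `x` a rational `r_0 ∈ (z_0, z_1)`
with `-δ < q(r_0) < 0`.  `c_0 = -q(r_0) > 0`, `q + C c_0 = (X - C r_0) * q_1`, `q_1` monic of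
degree `e - 1`.  If `e = 1` this is the claim.  Otherwise `q_1` with `z_1, .., z_e` satisfies the hypotheses
(`z_i - r_0 > 0` for `i ≥ 1`), and the claim for `q_1` (shift the indices of `r`, `c` by one, multiply by `X - C r_0`) gives
the claim for `q`. -/
def Stmt_NE1 : Prop := ∀ (e : ℕ) (q : ℚ[X]) (z : ℕ → ℝ), 1 ≤ e → q.Monic → q.natDegree = e →
  (∀ i < e, z i < z (i + 1)) → (∀ i ≤ e, 0 < (-1) ^ (e - i) * (rl q).eval (z i)) →
  ∃ r c : ℕ → ℚ, (∀ i < e, z i < r i ∧ (r i : ℝ) < z (i + 1) ∧ 0 ≤ c i) ∧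
    ∏ j ∈ Finset.range e, (X - C (r j)) =
      q + ∑ i ∈ Finset.range e, C (c i) * ∏ j ∈ Finset.range i, (X - C (r j))

/-- **NEW** (120), uses NE1.  The roots `ρ_1 < .. < ρ_e` of `rl q` are simple and positive (separable and `Splits`), take
`0 < z_0 < ρ_1 < z_1 < .. < ρ_e < z_e`, the sign of `∏ (z_i - ρ_j)` is the one of `(-1) ^ (e - i)`;
`r i < z (i + 1) ≤ z_(e-1) < ρ_e ≤ lam` for `i + 1 < e`. -/
def Stmt_NEW : Prop := ∀ (q : ℚ[X]) (e : ℕ) (lam : ℝ), q.natDegree = e → 1 ≤ e → q.Monic →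
  Rts (rl q) lam → (rl q).Separable → ∃ r c : ℕ → ℚ, (∀ i < e, 0 ≤ r i ∧ 0 ≤ c i) ∧
    (∀ i, i + 1 < e → (r i : ℝ) < lam) ∧
    ∏ j ∈ Finset.range e, (X - C (r j)) =
      q + ∑ i ∈ Finset.range e, C (c i) * ∏ j ∈ Finset.range i, (X - C (r j))

/-- **CH1** (180), uses NEW.  Induction on the list `l`, for all `Q`.  `l = q :: l'`, `e = deg q`, `r`, `c` of NEW: the first `e`
polynomials are `Q * ∏_{i < l} (X - C (r i))`, `l < e`.  For `l + 1 < e`: `X * N = N⁺ + r_l * N`; for `l = e - 1`: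
`X * N = Q q + r_l * N + ∑_i c_i (Q ∏_{j < i} (X - C (r j)))`.  Then the chain of `l'` for `Q * q` (indices shifted by `e`). -/
def Stmt_CH1 : Prop := ∀ (l : List ℚ[X]) (lam : ℝ),
  (∀ q ∈ l, q.Monic ∧ 1 ≤ q.natDegree ∧ Rts (rl q) lam ∧ (rl q).Separable) → ∀ Q : ℚ[X],
  ∃ (T : ℕ) (N : ℕ → ℚ[X]) (β : ℕ → ℕ → ℚ), N 0 = Q ∧ N T = Q * l.prod ∧ (∀ i j, 0 ≤ β i j) ∧
    (∀ i < T, X * N i = N (i + 1) + ∑ j ∈ Finset.range (i + 1), C (β i j) * N j) ∧
    ∀ i < T, ∃ (l₁ l₂ : List ℚ[X]) (q : ℚ[X]) (t : List ℚ), l = l₁ ++ q :: l₂ ∧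
      (∀ r ∈ t, (r : ℝ) < lam) ∧ N i = Q * l₁.prod * (t.map (fun r => X - C r)).prod

/-- **CHN** (150), uses CH1.  `m` is a product of monic irreducible polynomials of `ℚ[X]`; they are separable of degree
`≥ 1`, and `Rts` with the same `lam`, as divisors of `m`; arrange them as a list `l = l' ++ [q]` such that `q` has the root
`lam`.  Then `l'.prod * q = m`, so the multiplicity of `lam` in `rl l'.prod` is at most `k`.  CH1 with `Q = 1`: the `l₁` there
is an initial segment of `l'`, so `l₁.prod ∣ l'.prod`, and `∏ (X - C r)`, `r < lam`, does not vanish at `lam`. -/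
def Stmt_CHN : Prop := ∀ (m : ℚ[X]) (lam : ℝ) (k : ℕ), m.Monic → Rts (rl m) lam →
  (rl m).rootMultiplicity lam = k + 1 → ∃ (T : ℕ) (N : ℕ → ℚ[X]) (β : ℕ → ℕ → ℚ),
    N 0 = 1 ∧ N T = m ∧ (∀ i j, 0 ≤ β i j) ∧
    (∀ i < T, X * N i = N (i + 1) + ∑ j ∈ Finset.range (i + 1), C (β i j) * N j) ∧
    ∀ i < T, (rl (N i)).Monic ∧ (rl (N i)).Splits ∧ (∀ ρ, (rl (N i)).IsRoot ρ → ρ ≤ lam) ∧
      (rl (N i)).rootMultiplicity lam ≤ k

/-- **CR1** (120).  `D` = a common denominator of the `β i j`, `j ≤ i < T`; `B i j` = the natural number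
`D ^ (i + 1 - j) * β i j` for `j ≤ i < T`; `y 0 = s`, `y (i+1) n = D * y i (n+1) - ∑_{j ≤ i} B i j * y j n` (integers).  By strong
induction on `i`, `y i = D ^ i * pE (rl (N i)) s` as real sequences for `i ≤ T` (`pE (rl (X * N)) s n = pE (rl N) s (n+1)`).
`n₁` = the maximum of the thresholds. -/
def Stmt_CR1 : Prop := ∀ (s : ℕ → ℤ) (T : ℕ) (N : ℕ → ℚ[X]) (β : ℕ → ℕ → ℚ), 1 ≤ T → N 0 = 1 →
  (∀ i j, 0 ≤ β i j) →
  (∀ i < T, X * N i = N (i + 1) + ∑ j ∈ Finset.range (i + 1), C (β i j) * N j) →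
  (∀ i < T, ∃ n₀ : ℕ, ∀ n, n₀ ≤ n → 0 < pE (rl (N i)) (fun n => (s n : ℝ)) n) →
  pE (rl (N T)) (fun n => (s n : ℝ)) = 0 →
  ∃ (D : ℕ) (B : ℕ → ℕ → ℕ) (n₁ : ℕ) (y : ℕ → ℕ → ℤ), Crt s D T B n₁ y

/-- **CRT** (120), uses PDA DPO DPR MIN CHN CR1.  PDA for `s` as a real sequence: `Dom lam k s` (the other case contradicts
`s ≥ 0` and DPO), `p`.  MIN: `m`; `rl m ∣ p`, so `Rts (rl m) lam` and the multiplicity `a` of `lam` in `rl m` is at most
`k + 1`.  If `a ≤ k`, then by DPR and DPO `pE (rl m) s` is eventually positive, but it is 0.  So `a = k + 1`.  CHN: `T`, `N`,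
`β`; the `pE (rl (N i)) s`, `i < T`, are eventually positive (DPR, DPO); `T ≥ 1` because `m ≠ 1` (`a ≥ 1`); CR1. -/
def Stmt_CRT : Prop := ∀ (s : ℕ → ℤ) (d : ℕ) (q : ℕ → ℤ),
  (∀ n, s (n + d) = ∑ i ∈ Finset.range d, q i * s (n + i)) → (∀ n, 0 ≤ s n) →
  PExp (fun n => (s n : ℝ)) → (∃ n, s n ≠ 0) →
  ∃ (D T : ℕ) (B : ℕ → ℕ → ℕ) (n₁ : ℕ) (y : ℕ → ℕ → ℤ), Crt s D T B n₁ y

/-! ### D. Eigenvalues and counts -/

/-- **EIT** (40).  `μ` is an eigenvalue iff `det (A - μ) = 0` (`Matrix.exists_mulVec_eq_zero_iff`), `Matrix.det_transpose`. -/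
def Stmt_EIT : Prop := ∀ (ι : Type) [Fintype ι] (A : ι → ι → ℂ) (μ : ℂ), Eig A μ →
  Eig (fun a b => A b a) μ

/-- **FPW** (80).  The eigenvalues are roots of the characteristic polynomial (`det (A - μ) = 0`), so there are
finitely many; `k` = the product of the exponents; `(t ^ i)` is positive. -/
def Stmt_FPW : Prop := ∀ (ι : Type) [Fintype ι] (A : ι → ι → ℂ), (∀ μ, Eig A μ → Pw μ) →
  ∃ k : ℕ, 0 < k ∧ ∀ μ, Eig A μ → Ps (μ ^ k)

/-- **KEV** (150).  Induction on `m`.  `m = 0`: the matrix is `1 × 1` with entry 1.  `m + 1`: identify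
`Fin (m + 1) → Γ` with `Γ × (Fin m → Γ)` (`Fin.consEquiv`, `Fin.prod_univ_succ`).  Let `W ≠ 0` be the space of the `v` with
`(N ⊗ K) v = μ v`; the operator `N ⊗ 1` commutes with `N ⊗ K`, so it maps `W` to itself and has an eigenvector
`v ∈ W`, eigenvalue `τ` (`Module.End.exists_eigenvalue`); a nonzero slice `v(·, z)` is an eigenvector of `N`, so `Ps τ`,
`τ ≠ 0`; then `(1 ⊗ K) v = (μ / τ) v`, and a nonzero slice `v(c, ·)` shows by induction `Ps (μ / τ)`. -/
def Stmt_KEV : Prop := ∀ (Γ : Type) [Fintype Γ] (N : Γ → Γ → ℂ), (∀ μ, Eig N μ → Ps μ) →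
  ∀ (m : ℕ) (μ : ℂ), Eig (fun z z' : Fin m → Γ => ∏ i, N (z i) (z' i)) μ → Ps μ

/-- **CEX** (220).  `c z' z` is defined by recursion on `z'`: `c [] z = 1` if `z = []`, otherwise 0;
`c (s :: z') z = ∑_{i < |z|} scatteredCount (z.take (i+1)) (g s) * c z' (z.drop (i+1))`.  (1) by induction on `z'`.  (2) by
induction on `m`: in the recursion only `i = 0` contributes by (1); `scatteredCount [a] w = w.count a`.  (3): by
induction on `w`, for all `z`: let `Φ(w, z)` be the sum; since `scatteredCount z' (t :: w) = scatteredCount z' w` plus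
`scatteredCount z'' w` if `z' = t :: z''` (`scatteredCount_cons`), we get
`Φ(t :: w, z) = Φ(w, z) + ∑_{i < |z|} scatteredCount (z.take (i+1)) (g t) * Φ(w, z.drop (i+1))`; the left side satisfies the
same recursion by `scatteredCount_append`.  The sum may be taken over all words of length `≤ m` for any `m ≥ |z|`,
by (1). -/
def Stmt_CEX : Prop := ∀ (Γ D : Type) [Fintype Γ] [DecidableEq Γ] [DecidableEq D]
  (g : Γ → List D), ∃ c : List Γ → List D → ℕ, (∀ z' z, z.length < z'.length → c z' z = 0) ∧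
    (∀ (m : ℕ) (f' : Fin m → Γ) (f : Fin m → D),
      c (List.ofFn f') (List.ofFn f) = ∏ i, (g (f' i)).count (f i)) ∧
    ∀ (m : ℕ) (z : List D) (w : List Γ), z.length ≤ m → scatteredCount z (w.flatMap g) =
      ∑ x : (Σ l : Fin (m + 1), Fin l → Γ),
        c (List.ofFn x.2) z * scatteredCount (List.ofFn x.2) w

/-- **CNA** (120), uses EIT KEV.  Let `v` be an eigenvector, `l` the smallest length of a `z` with `v z ≠ 0`; in the rows
of length `l` only the `z'` of length `l` contribute (longer: `c = 0`, shorter: `v = 0`), so `μ` is an eigenvalue of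
`∏ i, N (z i) (z' i)` on `Fin l → Γ`, `N a b = inc g b a`: KEV for `N`, with EIT. -/
def Stmt_CNA : Prop := ∀ (Γ : Type) [Fintype Γ] [DecidableEq Γ] (g : Γ → List Γ)
  (c : List Γ → List Γ → ℕ), (∀ z' z, z.length < z'.length → c z' z = 0) →
  (∀ (m : ℕ) (f' f : Fin m → Γ),
    c (List.ofFn f') (List.ofFn f) = ∏ i, (g (f' i)).count (f i)) →
  (∀ μ, Eig (inc g) μ → Ps μ) → ∀ (m : ℕ) (μ : ℂ),
    Eig (fun z z' : (Σ l : Fin (m + 1), Fin l → Γ) =>
      (c (List.ofFn z'.2) (List.ofFn z.2) : ℂ)) μ → Ps μ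

/-- **CNT** (120), uses PEC PEM CEX CNA.  Let `m = x.length`, `ι = Σ l : Fin (m + 1), Fin l → Γ`,
`y n z = scatteredCount (ofFn z.2) (g^n u)`.  CEX for `g`: `y (n+1) z = ∑_{z'} A z z' * y n z'` with
`A z z' = c (ofFn z'.2) (ofFn z.2)`.  CNA: the eigenvalues of `A` are positive.  PEM: all `n ↦ y n z` are `PExp`.  CEX for
`G` and `x`, and PEC, give the claim (`hd0l g G u n = (g^n u).flatMap G`). -/
def Stmt_CNT : Prop := ∀ (Γ D : Type) [Fintype Γ] [DecidableEq Γ] [DecidableEq D]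
  (g : Γ → List Γ) (G : Γ → List D) (u : List Γ) (x : List D), (∀ μ, Eig (inc g) μ → Ps μ) →
    PExp (fun n => (scatteredCount x (hd0l g G u n) : ℝ))

/-- **PWE** (120).  `count b (pw g k a)` is the entry `(a, b)` of the `k`-th power of the incidence matrix (count in
`w.flatMap g` is `∑_c count c w * count b (g c)`).  The space of the `v` with `M ^ k v = μ v` is not 0 and `M`-invariant, so
`M` has an eigenvector in it, with eigenvalue `τ`, `τ ^ k = μ`. -/
def Stmt_PWE : Prop := ∀ (Γ : Type) [Fintype Γ] [DecidableEq Γ] (g : Γ → List Γ) (k : ℕ) (μ : ℂ),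
  Eig (inc (pw g k)) μ → ∃ τ, Eig (inc g) τ ∧ τ ^ k = μ

/-- **PWH** (80).  `mo (pw g k) = (mo g)^[k]` (`flatMap` of the images of the letters; `mo` is a homomorphism of the
free monoid), so `(mo (pw g k))^[n] = (mo g)^[k * n]`; the second claim similarly: `mo g' ∘ ..`. -/
def Stmt_PWH : Prop := ∀ (Γ D : Type) (g : Γ → List Γ) (G : Γ → List D) (u : List Γ)
  (k n e : ℕ), hd0l g G u (k * n + e) = hd0l (pw g k) G ((mo g)^[e] u) n

/-- **KA1** (200).  Call a level `r` good if for all `a` of level `r` the letters of `g a` have level `< r`.  By induction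
on `R` there are `κ`, `g'`, `j` with: for all `c` of level `< R`: `mo g (κ c) = mo κ (g' c)`; `κ c = []`, `g' c = [c]` if the level
of `c` is good; otherwise all letters of `g' c` are of bad level `≤ rk c` and the letters `b` with `rk b = rk c` occur in
`g' c` as often as in `g c`; and for all `a` of level `< R` and all `i ≥ j` there is a word `v` of letters of bad levels
`< R` with `(mo g)^[i] [a] = mo κ v`.  Step, level `R` good: `κ c = []`, `g' c = [c]` for `rk c = R`, `j + 1` instead of `j`.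
Level `R` bad: for `rk c = R` let `κ c = (mo g)^[j] [c]` and `g' c` = the word `g c` with the letters `b` of level `< R`
replaced by `v_b`, where `(mo g)^[j] [b] = mo κ v_b`; then `g (κ c) = g^j (g c) = κ (g' c)`, and for `i ≥ j`:
`g^i c = g^(i-j) (κ c) = κ (g'^(i-j) c)`; `j` is unchanged. -/
def Stmt_KA1 : Prop := ∀ (Γ : Type) [Fintype Γ] [DecidableEq Γ] (g : Γ → List Γ) (rk : Γ → ℕ),
  (∀ a, ∀ b ∈ g a, rk b ≤ rk a) → ∃ (g' κ : Γ → List Γ) (n₀ : ℕ),
    (∀ c, mo g (κ c) = mo κ (g' c)) ∧ (∀ a, ∃ v, (mo g)^[n₀] [a] = mo κ v) ∧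
    (∀ c, (∀ a, rk a = rk c → ∀ b ∈ g a, rk b < rk c) → g' c = [c]) ∧
    ∀ c, ¬ (∀ a, rk a = rk c → ∀ b ∈ g a, rk b < rk c) →
      (∀ b ∈ g' c, rk b ≤ rk c) ∧ ∀ b, rk b = rk c → (g' c).count b = (g c).count b

/-- **KAP** (80), uses KA1.  `g'`, `κ`, `n₀` from KA1.  Let `v` be an eigenvector of `inc g'`, eigenvalue `μ`, `r` the smallest
level with `v a ≠ 0` for some `a` of level `r`.  If the level `r` is good, `g' a = [a]` gives `μ = 1`.  Otherwise the second
alternative of `RT` holds for `r`, and `BEig g rk r μ` with the same `v` (in the row of `a`, `rk a = r`: `v b = 0` for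
`rk b < r`, and the letters of `g' a` have level `≤ r`). -/
def Stmt_KAP : Prop := ∀ (Γ : Type) [Fintype Γ] [DecidableEq Γ] (g : Γ → List Γ) (rk : Γ → ℕ),
  RT g rk → ∃ (g' κ : Γ → List Γ) (n₀ : ℕ), (∀ c, mo g (κ c) = mo κ (g' c)) ∧
    (∀ a, ∃ v, (mo g)^[n₀] [a] = mo κ v) ∧ ∀ μ, Eig (inc g') μ → Pw μ

/-- **ON1** (120), uses CNT FPW PWE PWH KAP.  KAP; `k` from FPW for `inc g'`.  For `j ≥ n₀`:
`g^(k m n + j) u = g^(k m n + j - n₀) (κ v) = κ (g'^(k m n + j - n₀) v)` (`g^n₀ u = κ v` for words: concatenate), so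
`hd0l g G u (k m n + j) = hd0l g' (fun c => mo G (κ c)) v (k m n + (j - n₀))`, PWH for `k * m`, the eigenvalues of
`inc (pw g' (k * m))` are `τ ^ (k m)`, `Ps` (PWE); CNT. -/
def Stmt_ON1 : Prop := ∀ (Γ : Type) [Fintype Γ] [DecidableEq Γ] (g : Γ → List Γ) (rk : Γ → ℕ),
  RT g rk → ∃ (k n₀ : ℕ), 0 < k ∧ ∀ m j : ℕ, 0 < m → n₀ ≤ j →
    ∀ (D : Type) [DecidableEq D] (G : Γ → List D) (u : List Γ) (x : List D),
      PExp (fun n => (scatteredCount x (hd0l g G u (k * m * n + j)) : ℝ))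

/-- **NOI** (100), uses PEC ON1.  `k = k₁ * k₂`, `m₀ = n₁ + n₂` (ON1 for both morphisms, with `m = k₂` and `m = k₁`,
`j = k * m₀ + e ≥ n₁, n₂`).  For `e < k` the two words at the index `k * m₀ + e` differ, so there is `x_e` with different
counts (`eq_of_scatteredCount`).  `X` = the list of the `x_e`.  The counts are `PExp`, so their differences and
`sq X ..` (a sum of squares) are (PEC).  `sq X .. ≠ 0` for `n = 0`. -/
def Stmt_NOI : Prop := ∀ (Γ Γ' D : Type) [Fintype Γ] [DecidableEq Γ] [Fintype Γ']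
  [DecidableEq Γ'] [DecidableEq D] (g : Γ → List Γ) (rk : Γ → ℕ) (G : Γ → List D) (u : List Γ)
  (g' : Γ' → List Γ') (rk' : Γ' → ℕ) (G' : Γ' → List D) (u' : List Γ'), RT g rk → RT g' rk' →
  (∀ n, hd0l g G u n ≠ hd0l g' G' u' n) → ∃ (X : List (List D)) (k m₀ : ℕ), 0 < k ∧
    ∀ e < k, PExp (fun n => (sq X (hd0l g G u (k * (m₀ + n) + e))
      (hd0l g' G' u' (k * (m₀ + n) + e)) : ℝ)) ∧
      ∃ n, sq X (hd0l g G u (k * (m₀ + n) + e)) (hd0l g' G' u' (k * (m₀ + n) + e)) ≠ 0

/-! ### E. The procedure -/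

/-- **SUB** (100).  `V n = (s n, .., s (n + d - 1))`, `V (n + 1) = A V n` with the companion matrix `A` (integer, `d × d`), so
`V (n + k) = A ^ k V n`.  `exists_matrix_recurrence` for `Q = A ^ k` gives `q'` with `A ^ (k (n + d)) = ∑ q'_i A ^ (k (n + i))`; apply
it to `V e` and take the coordinate 0. -/
def Stmt_SUB : Prop := ∀ (d : ℕ) (q s : ℕ → ℤ), 0 < d →
  (∀ n, s (n + d) = ∑ i ∈ Finset.range d, q i * s (n + i)) → ∀ k e : ℕ, ∃ q' : ℕ → ℤ,
    ∀ n, s (k * (n + d) + e) = ∑ i ∈ Finset.range d, q' i * s (k * (n + i) + e)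

/-- **SND** (180), uses SUB.  All summands of `bad` are 0.  Let `D = c.1 ≥ 1`, `T = c.2.1.length ≥ 1`,
`s r = sN a (k * (n₁ + r) + e)`, and define integers `y i r` by `y 0 r = s r`,
`y (i+1) r = D * y i (r+1) - ∑_{j ≤ i} gb c i j * y j r`.  By induction on `i`: `gy c i r = y i r` for `i ≤ T`, `r + i < wid a c`.
All `y i` satisfy the recurrence of order `ord a` of `s` (`coded_recurrence`, SUB; the recurrence is invariant under
shifts and linear combinations); `y T r = 0` for `r < ord a`, so `y T = 0`.  `y i 0 > 0` for `i < T`, and `y (T-1) 1 > 0`, so (row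
`T - 1`, `r = 0`) some `gb c (T-1) j` is positive.  By induction on `r`: `y i r > 0` for all `i < T`:
`D * y i (r+1) = y (i+1) r + ∑ ..`, for `i + 1 < T` the first term is positive, for `i + 1 = T` the sum. -/
def Stmt_SND : Prop := ∀ (a : Par) (k e n₁ : ℕ) (c : Cert), bad a k e n₁ c = 0 →
  ∀ n, n₁ ≤ n → 0 < sN a (k * n + e)

/-- **CMP** (120).  `c = (D, rows, table)`: `rows` = the list of the lists of `B i j`, `j ≤ i`, for `i < T`; `table` = the list for
`i ≤ T` of the lists of `(y i (n₂ + r)).toNat`, `r < T + ord a + 1`.  All values are `≥ 0`, so the equations hold in `ℕ`. -/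
def Stmt_CMP : Prop := ∀ (a : Par) (k e D T : ℕ) (B : ℕ → ℕ → ℕ) (n₁ : ℕ) (y : ℕ → ℕ → ℤ),
  Crt (fun n => (sN a (k * n + e) : ℤ)) D T B n₁ y → ∀ n₂, n₁ ≤ n₂ →
    ∃ c : Cert, bad a k e n₂ c = 0

/-- **PRM** (200).  Compositions of primitive recursive functions: `primrec_rsum`, `Primrec.nat_add`, `nat_sub`, `nat_mul`,
`Primrec.list_getD`, `Primrec.list_length`, `primrec_dst`, `primrec_sN`, `primrec_ord`, `primrec_term`, `Primrec.ite` with
`Primrec.eq`; first `gb`, `gy`, `wid`, then the summands of `bad`. -/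
def Stmt_PRM : Prop := Primrec₂ nbad

/-- **NSN** (60), uses SND.  `k = N.2.1 + 1`.  For `n < k * n₁` the second sum; otherwise `n = k * (n / k) + n % k`,
`n₁ ≤ n / k`, SND and `sN_eq_zero`. -/
def Stmt_NSN : Prop := ∀ (p : HSystem × HSystem) (N : NCert), nbad p N = 0 →
  ∀ n, term p.1 n ≠ term p.2 n

/-- **TRS** (100).  `K = S.2.1.length`; on `Fin (K + 1)` take the levels `rk a` for `a < K`, and for the letter `K` (its image
is empty) a level which is larger than all others: there the first alternative holds.  The counts of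
`(S.2.1.getD a []).map (Fin.ofNat (K + 1))` are the ones of `S.2.1.getD a []` (see `incidence_eq` in `Reduction.lean`); sums over
`Fin (K + 1)` against sums over `Finset.range K` (the letter `K` does not occur in images). -/
def Stmt_TRS : Prop := ∀ S : HSystem, RealType S → ∃ rk : Fin (S.2.1.length + 1) → ℕ,
  RT (fun a : Fin (S.2.1.length + 1) =>
    (S.2.1.getD a []).map (Fin.ofNat (S.2.1.length + 1))) rk

/-- **NCM** (200), uses CRT NOI SUB CMP TRS.  TRS for both systems, NOI (with `to_fin`: the `hd0l` sequences are the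
`term` sequences, `D = ℕ`) gives `X`, `k`, `m₀`.  `a = ((S, S'), X)`.  For `e < k` the sequence
`n ↦ sN a (k * (m₀ + n) + e)` (`sN_eq`) satisfies an integer recurrence of order `ord a` (`coded_recurrence`, SUB with
`k * m₀ + e`), CRT gives a certificate; shifted by `m₀` it is one for `n ↦ sN a (k * n + e)`.  `n₂` = the maximum of the
`n₁ + m₀`, CMP; `N = (X, k - 1, n₂, list of the certificates)`; the second sum in `nbad` is 0 because the terms are
different. -/
def Stmt_NCM : Prop := ∀ S S' : HSystem, RealType S → RealType S' →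
  (∀ n, term S n ≠ term S' n) → ∃ N : NCert, nbad (S, S') N = 0

/-- **FIN** (120), uses PRM NSN NCM.  As `decidable_of_skolem` in `Reduction.lean`: `Nat.rfind` over `k` of
`t₁ s k || t₂ s k`, `t₁ s k` = (terms `k` are equal), `t₂ s k` = (`nbad s (ofNat NCert k) = 0`), mapped by `t₁ s k`. -/
def Stmt_FIN : Prop := ∃ f : HSystem × HSystem →. Bool, Partrec f ∧
  (∀ S S' : HSystem, (true ∈ f (S, S') → ∃ n, term S n = term S' n) ∧
    (false ∈ f (S, S') → ¬ ∃ n, term S n = term S' n)) ∧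
  ∀ S S' : HSystem, RealType S → RealType S' → (f (S, S')).Dom

/-! ### F. Examples -/

/-- **EX1** (60).  `rk a = a`.  The block of level `r` is the number of letters `r` in `S.2.1 r`: if it is 0 the first
alternative holds, otherwise `μ` is a positive integer. -/
def Stmt_EX1 : Prop := ∀ S : HSystem, (∀ a ∈ S.1, a < S.2.1.length) →
  (∀ a < S.2.1.length, ∀ b ∈ S.2.1.getD a [], b ≤ a) → RealType S

/-- **EX2** (100).  `rk a = 0`.  `μ ^ 2 - (p + t) μ + (p t - q r) = 0` for the matrix `p, q; r, t` of natural numbers (from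
the eigenvector), `(p + t) ^ 2 - 4 (p t - q r) = (p - t) ^ 2 + 4 q r ≥ 0`, so `μ` is real, and `μ ≠ 0` because the determinant
is not 0.  `j = 2`. -/
def Stmt_EX2 : Prop := ∀ S : HSystem, Nonsingular S → S.2.1.length = 2 → RealType S

/-- **E3A** (100).  Let `F w = w.flatMap (fun b => T.getD b [])`.  From `c ∈ F^[l₁] [b₁]`, `c ∈ F^[l₂] [b₂]` we get with
`l = (l₁ + 1) * (l₂ + 1)`: `c ∈ F^[l - 1] [b₁]` (as `c ∈ F^[(l₁ + 1) i] [c]` for all `i`), and the same for `b₂`, so the number of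
letters `c` in `F^[l] [c]` is at least 2; by induction the number in `F^[l * n] [c]` is at least `2 ^ n`, which is larger
than `K * (l * n + 1) ^ d` for large `n`. -/
def Stmt_E3A : Prop := ∀ (T : List (List ℕ)) (c b₁ b₂ l₁ l₂ : ℕ) (x y z : List ℕ),
  T.getD c [] = x ++ b₁ :: (y ++ b₂ :: z) →
  c ∈ (fun w : List ℕ => w.flatMap (fun b => T.getD b []))^[l₁] [b₁] →
  c ∈ (fun w : List ℕ => w.flatMap (fun b => T.getD b []))^[l₂] [b₂] →
  ∀ K d : ℕ, ∃ n : ℕ, K * (n + 1) ^ d <
    ((fun w : List ℕ => w.flatMap (fun b => T.getD b []))^[n] [c]).length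

/-- **E3B** (150).  `R a` = the set of the letters which occur in some `F^[n] [a]` (`F` as in E3A; letters `< T.length` if
`a < T.length`), `k = T.length`, `rk a = |R a| * (k + 1) + min {b | b ∈ R a, a ∈ R b}`.  `b ∈ R a` implies `R b ⊆ R a`, so
`|R b| ≤ |R a|`, with equality iff `R b = R a`, i.e. `a ∈ R b`; then the two minima are equal; otherwise
`rk b ≤ |R b| * (k + 1) + k < rk a`.  If `rk a = rk b`, then the minima are equal (division by `k + 1`), the common minimal
letter and `a`, `b` can be reached from each other. -/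
def Stmt_E3B : Prop := ∀ T : List (List ℕ), (∀ w ∈ T, ∀ a ∈ w, a < T.length) →
  ∃ rk : ℕ → ℕ, (∀ a < T.length, ∀ b ∈ T.getD a [], rk b ≤ rk a) ∧
    ∀ a < T.length, ∀ b < T.length, rk a = rk b →
      ∃ n, b ∈ (fun w : List ℕ => w.flatMap (fun b => T.getD b []))^[n] [a]

/-- **EX3** (180), uses E3A E3B.  `rk` from E3B.  Let `r` be a level for which the first alternative does not hold: there
are letters `a₀`, `b₀ ∈ S.2.1 a₀` of level `r`.  For each letter `c` of level `r` exactly one position of the word `S.2.1 c`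
carries a letter of level `r`: at least one because there is a path `c → .. → a₀ → b₀ → .. → c` (all its letters
have level `r`, as levels do not increase); not two because of E3A.  So the block is the matrix of a map `f` of
the set of letters of level `r` to itself, which is surjective (same path: the last letter before `c`); for an
eigenvector `v (f a) = μ * v a`; `f` is a permutation of a finite set, `f^[j] = id` for some `j ≥ 1`, so
`μ ^ j = 1`. -/
def Stmt_EX3 : Prop := ∀ S : HSystem, (∀ a ∈ S.1, a < S.2.1.length) →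
  (∀ w ∈ S.2.1, ∀ a ∈ w, a < S.2.1.length) →
  (∃ K d : ℕ, ∀ a < S.2.1.length, ∀ n : ℕ,
    ((fun w : List ℕ => w.flatMap (fun b => S.2.1.getD b []))^[n] [a]).length ≤
      K * (n + 1) ^ d) → RealType S

end Pool.RS
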